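import Pool.Agent.H90.EO.Second

/-!
# Limits for the second moment
-/

open MeasureTheory ProbabilityTheory Filter Topology
open scoped ENNReal NNReal RealInnerProductSpace

namespace Pool.Agent.H90.EO

open Pool.Agent.H90.PR

lemma tendsto_sqrt_div (δ : ℝ) (hδ : 0 < δ) :
    Tendsto (fun m : ℕ => 2 ^ 62 * √((m : ℝ) + 1) / (δ * ((m : ℝ) / 10 + 1))) atTop (𝓝 0) := by
  have h1 : Tendsto (fun m : ℕ => 2 ^ 62 * 10 / δ * (1 / √((m : ℝ) + 1))) atTop (𝓝 0) := by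
    have h2 : Tendsto (fun m : ℕ => √((m : ℝ) + 1)) atTop atTop := by
      apply Real.tendsto_sqrt_atTop.comp
      exact tendsto_natCast_atTop_atTop.atTop_add tendsto_const_nhds
    have h3 := h2.inv_tendsto_atTop.const_mul (2 ^ 62 * 10 / δ)
    simpa [one_div] using h3
  refine squeeze_zero (fun m => by positivity) (fun m => ?_) h1
  have hm : (0 : ℝ) < (m : ℝ) + 1 := by positivity
  have hs : 0 < √((m : ℝ) + 1) := Real.sqrt_pos.mpr hm
  have hsq : √((m : ℝ) + 1) ^ 2 = (m : ℝ) + 1 := Real.sq_sqrt hm.le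
  rw [div_mul_div_comm, div_le_div_iff₀ (by positivity) (by positivity)]
  have h4 : √((m : ℝ) + 1) * √((m : ℝ) + 1) = (m : ℝ) + 1 := Real.mul_self_sqrt hm.le
  calc 2 ^ 62 * √((m : ℝ) + 1) * (δ * √((m : ℝ) + 1))
      = 2 ^ 62 * δ * (√((m : ℝ) + 1) * √((m : ℝ) + 1)) := by ring
    _ = 2 ^ 62 * δ * ((m : ℝ) + 1) := by rw [h4]
    _ ≤ 2 ^ 62 * δ * (10 * ((m : ℝ) / 10 + 1)) := by
        have : (m : ℝ) + 1 ≤ 10 * ((m : ℝ) / 10 + 1) := by linarith
        gcongr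
    _ = 2 ^ 62 * 10 * 1 * (δ * ((m : ℝ) / 10 + 1)) := by ring

/-- `4^m ≤ 2 m C(2m, m)`. -/
lemma four_pow_le' (m : ℕ) (hm : 1 ≤ m) : (4 : ℝ) ^ m ≤ 2 * m * m.centralBinom := by
  exact_mod_cast Nat.four_pow_le_two_mul_self_mul_centralBinom m hm

lemma tendsto_close :
    Tendsto (fun m : ℕ => 361 * 3 ^ m * (6 * (m : ℝ) ^ 5) / m.centralBinom) atTop (𝓝 0) := by
  have h1 : Tendsto (fun m : ℕ => 361 * 12 * ((m : ℝ) ^ 6 * (3 / 4) ^ m)) atTop (𝓝 0) := by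
    have := tendsto_pow_const_mul_const_pow_of_lt_one 6 (r := (3 / 4 : ℝ)) (by norm_num)
      (by norm_num)
    simpa using this.const_mul (361 * 12)
  refine squeeze_zero' (Eventually.of_forall fun m => by positivity) ?_ h1
  filter_upwards [eventually_ge_atTop 1] with m hm
  have hm1 : (1 : ℝ) ≤ m := by exact_mod_cast hm
  have hN : 0 < (m.centralBinom : ℝ) := by exact_mod_cast Nat.centralBinom_pos m
  rw [div_le_iff₀ hN, div_pow]
  have h4 := four_pow_le' m hm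
  calc 361 * 3 ^ m * (6 * (m : ℝ) ^ 5) = 361 * 6 * (m : ℝ) ^ 5 * 3 ^ m / 4 ^ m * 4 ^ m := by
        field_simp
    _ ≤ 361 * 6 * (m : ℝ) ^ 5 * 3 ^ m / 4 ^ m * (2 * m * m.centralBinom) := by gcongr
    _ = _ := by ring

lemma tendsto_tau (K₀ : ℝ) (hK₀ : 0 < K₀) :
    Tendsto (fun m : ℕ => K₀ / (m.centralBinom : ℝ)) atTop (𝓝 0) := by
  have h1 : Tendsto (fun m : ℕ => K₀ * 2 * ((m : ℝ) ^ 1 * (1 / 4) ^ m)) atTop (𝓝 0) := by
    have := tendsto_pow_const_mul_const_pow_of_lt_one 1 (r := (1 / 4 : ℝ)) (by norm_num)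
      (by norm_num)
    simpa using this.const_mul (K₀ * 2)
  refine squeeze_zero' (Eventually.of_forall fun m => by positivity) ?_ h1
  filter_upwards [eventually_ge_atTop 1] with m hm
  have hm1 : (1 : ℝ) ≤ m := by exact_mod_cast hm
  have hN : 0 < (m.centralBinom : ℝ) := by exact_mod_cast Nat.centralBinom_pos m
  have h4 := four_pow_le' m hm
  rw [div_le_iff₀ hN, div_pow, one_pow, pow_one]
  calc K₀ = K₀ * (1 / 4 ^ m) * 4 ^ m := by field_simp
    _ ≤ K₀ * (1 / 4 ^ m) * (2 * m * m.centralBinom) := by gcongr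
    _ = _ := by ring

lemma tendsto_err (K₀ δ : ℝ) (hK₀ : 0 < K₀) (hδ : 0 < δ) :
    Tendsto (err K₀ δ) atTop (𝓝 (1 / √(1 - δ))) := by
  have h1 := tendsto_sqrt_div δ hδ
  have h2 := tendsto_close
  have h3 : Tendsto (fun m : ℕ => Real.pi / 2 * (2 / (m : ℝ)) / K₀) atTop (𝓝 0) := by
    have := (tendsto_const_div_atTop_nhds_zero_nat (2 : ℝ)).const_mul (Real.pi / 2)
    simpa using this.div_const K₀
  have h4 : Tendsto (fun m : ℕ => Real.pi / 2 * (1 / 16) ^ m * m.centralBinom / K₀) atTop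
      (𝓝 0) := by
    have h5 : Tendsto (fun m : ℕ => Real.pi / 2 / K₀ * (1 / 4 : ℝ) ^ m) atTop (𝓝 0) := by
      have := tendsto_pow_atTop_nhds_zero_of_lt_one (r := (1 / 4 : ℝ)) (by norm_num) (by norm_num)
      simpa using this.const_mul (Real.pi / 2 / K₀)
    refine squeeze_zero (fun m => by have := Real.pi_pos; positivity) (fun m => ?_) h5
    have h6 : (m.centralBinom : ℝ) ≤ 4 ^ m := by
      have := Nat.choose_le_two_pow (2 * m) m
      rw [pow_mul] at this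
      have h7 : m.centralBinom ≤ 4 ^ m := by
        rw [Nat.centralBinom]
        exact this
      exact_mod_cast h7
    have hpi := Real.pi_pos
    calc Real.pi / 2 * (1 / 16) ^ m * m.centralBinom / K₀
        ≤ Real.pi / 2 * (1 / 16) ^ m * 4 ^ m / K₀ := by gcongr
      _ = Real.pi / 2 / K₀ * ((1 / 16) ^ m * 4 ^ m) := by ring
      _ = Real.pi / 2 / K₀ * (1 / 4 : ℝ) ^ m := by
          rw [← mul_pow]
          norm_num
  have h := (((tendsto_const_nhds (x := 1 / √(1 - δ)) (f := (atTop : Filter ℕ))).add h1).add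
    h2).add h3 |>.add h4
  have e : (err K₀ δ) = fun m : ℕ => 1 / √(1 - δ) +
      2 ^ 62 * √((m : ℝ) + 1) / (δ * ((m : ℝ) / 10 + 1)) +
      361 * 3 ^ m * (6 * (m : ℝ) ^ 5) / m.centralBinom +
      Real.pi / 2 * (2 / m) / K₀ + Real.pi / 2 * (1 / 16) ^ m * m.centralBinom / K₀ := rfl
  rw [e]
  simp only [add_zero] at h
  exact h

/-- Second moment of the number of hits, sharp to first order. -/
theorem second_moment (K₀ ε : ℝ) (hK₀ : 0 < K₀) (hε : 0 < ε) : ∀ᶠ m : ℕ in atTop,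
    ∑ T ∈ (first m).powersetCard m, ∑ T' ∈ (first m).powersetCard m,
      (gm (Fin (2 * m + 1)) m).real (hit T (Fin.last (2 * m)) (K₀ / m.centralBinom) ∩
        hit T' (Fin.last (2 * m)) (K₀ / m.centralBinom)) ≤
      m.centralBinom * Phi (K₀ / m.centralBinom) +
        (1 + ε) * (m.centralBinom * Phi (K₀ / m.centralBinom)) ^ 2 := by
  -- choose δ
  obtain ⟨δ, hδ, hδ1, hδε⟩ : ∃ δ : ℝ, 0 < δ ∧ δ < 1 ∧ 1 / √(1 - δ) < 1 + ε / 2 := by
    have hc : Tendsto (fun δ : ℝ => 1 / √(1 - δ)) (𝓝[>] 0) (𝓝 1) := by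
      have h1 : ContinuousAt (fun δ : ℝ => 1 / √(1 - δ)) 0 := by
        apply ContinuousAt.div continuousAt_const
        · apply ContinuousAt.sqrt
          fun_prop
        · simp
      have h2 : (fun δ : ℝ => 1 / √(1 - δ)) 0 = 1 := by simp
      have h3 : Tendsto (fun δ : ℝ => 1 / √(1 - δ)) (𝓝 0) (𝓝 1) := by
        have := h1.tendsto
        simpa using this
      exact h3.mono_left nhdsWithin_le_nhds
    have h4 : ∀ᶠ δ : ℝ in 𝓝[>] 0, 1 / √(1 - δ) < 1 + ε / 2 :=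
      hc.eventually_lt_const (by linarith)
    have h5 : ∀ᶠ δ : ℝ in 𝓝[>] 0, δ ∈ Set.Ioo (0 : ℝ) 1 := Ioo_mem_nhdsGT one_pos
    obtain ⟨δ, h6, h7⟩ := (h4.and h5).exists
    exact ⟨δ, h7.1, h7.2, h6⟩
  have herr : ∀ᶠ m : ℕ in atTop, err K₀ δ m < 1 + ε / 2 :=
    (tendsto_err K₀ δ hK₀ hδ).eventually_lt_const hδε
  have hτ2 : ∀ᶠ m : ℕ in atTop, (K₀ / (m.centralBinom : ℝ)) ^ 2 < min 1 (ε / (2 * (1 + ε))) := by
    have h1 : Tendsto (fun m : ℕ => (K₀ / (m.centralBinom : ℝ)) ^ 2) atTop (𝓝 0) := by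
      have := (tendsto_tau K₀ hK₀).pow 2
      simpa using this
    exact h1.eventually_lt_const (lt_min one_pos (by positivity))
  filter_upwards [herr, hτ2, eventually_ge_atTop 2] with m h1 h2 h3
  set N : ℝ := (m.centralBinom : ℝ) with hN
  have hN0 : 0 < N := by rw [hN]; exact_mod_cast Nat.centralBinom_pos m
  set τ : ℝ := K₀ / N with hτ
  have hτ0 : 0 < τ := by positivity
  have hpi := Real.pi_pos
  have hrow : ∀ T ∈ (first m).powersetCard m, ∑ T' ∈ (first m).powersetCard m,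
      (gm (Fin (2 * m + 1)) m).real (hit T (Fin.last (2 * m)) τ ∩
        hit T' (Fin.last (2 * m)) τ) ≤ Phi τ + N * (2 / Real.pi * τ ^ 2) * (1 + ε / 2) := by
    intro T hT
    refine (row_bound m h3 K₀ δ hK₀ hδ hδ1 T hT).trans ?_
    rw [← hN, ← hτ]
    gcongr
  refine (Finset.sum_le_sum hrow).trans ?_
  rw [Finset.sum_const, nsmul_eq_mul, card_sets, ← hN]
  -- compare with the square of the first moment
  have hlow := le_Phi τ hτ0.le
  have hτ1 : τ ^ 2 < 1 := h2.trans_le (min_le_left _ _)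
  have hτε : τ ^ 2 < ε / (2 * (1 + ε)) := h2.trans_le (min_le_right _ _)
  have hq : 0 ≤ √(2 / Real.pi) * τ * (1 - τ ^ 2 / 2) := by
    have : 0 ≤ 1 - τ ^ 2 / 2 := by linarith
    positivity
  have hsq : 2 / Real.pi * τ ^ 2 * (1 - τ ^ 2) ≤ Phi τ ^ 2 := by
    have e1 : (√(2 / Real.pi) * τ * (1 - τ ^ 2 / 2)) ^ 2 =
        2 / Real.pi * τ ^ 2 * (1 - τ ^ 2 / 2) ^ 2 := by
      rw [mul_pow, mul_pow, Real.sq_sqrt (by positivity)]
    have e2 : (√(2 / Real.pi) * τ * (1 - τ ^ 2 / 2)) ^ 2 ≤ Phi τ ^ 2 := by gcongr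
    rw [e1] at e2
    refine le_trans ?_ e2
    have e3 : 1 - τ ^ 2 ≤ (1 - τ ^ 2 / 2) ^ 2 := by nlinarith [sq_nonneg (τ ^ 2)]
    gcongr
  have hkey : 2 / Real.pi * τ ^ 2 * (1 + ε / 2) ≤ (1 + ε) * Phi τ ^ 2 := by
    have e1 : 1 + ε / 2 ≤ (1 + ε) * (1 - τ ^ 2) := by
      rw [lt_div_iff₀ (by positivity)] at hτε
      nlinarith
    calc 2 / Real.pi * τ ^ 2 * (1 + ε / 2) ≤ 2 / Real.pi * τ ^ 2 * ((1 + ε) * (1 - τ ^ 2)) := by
          gcongr
      _ = (1 + ε) * (2 / Real.pi * τ ^ 2 * (1 - τ ^ 2)) := by ring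
      _ ≤ (1 + ε) * Phi τ ^ 2 := by gcongr
  calc N * (Phi τ + N * (2 / Real.pi * τ ^ 2) * (1 + ε / 2))
      = N * Phi τ + N ^ 2 * (2 / Real.pi * τ ^ 2 * (1 + ε / 2)) := by ring
    _ ≤ N * Phi τ + N ^ 2 * ((1 + ε) * Phi τ ^ 2) := by gcongr
    _ = _ := by ring

end Pool.Agent.H90.EO
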