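import Pool.Agent.H90.PR.Main

/-!
# Exact order of the stability constant: definitions

`EE m = ℝ^(m+1)`; `gm ι m` is the law of a family of independent standard Gaussian vectors of `EE m`
indexed by `ι`; `nv T g` (from `PR.Pairs`) is the unit normal of the `m` vectors `g i`, `i ∈ T`.
-/

open MeasureTheory ProbabilityTheory Filter Topology
open scoped ENNReal NNReal RealInnerProductSpace

namespace Pool.Agent.H90.EO

open Pool.Agent.H90.PR

/-- The law of a family of independent standard Gaussian vectors. -/
noncomputable abbrev gm (ι : Type*) [Fintype ι] (m : ℕ) : Measure (ι → EE m) :=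
  Measure.pi (fun _ : ι => stdGaussian (EE m))

/-- The probability that a standard Gaussian variable lies in `[-t, t]`. -/
noncomputable def Phi (t : ℝ) : ℝ := (gaussianReal 0 1).real (Set.Icc (-t) t)

/-- Mixing the members of a family by a matrix. -/
def mix {ι E : Type*} [Fintype ι] [AddCommGroup E] [Module ℝ E] (O : Matrix ι ι ℝ) (g : ι → E) :
    ι → E := fun k => ∑ i, O k i • g i

section

variable {ι : Type*} [DecidableEq ι] {m : ℕ}

/-- The event that the vector `ℓ` is within `τ` of the span of the vectors in `T`. -/
def hit (T : Finset ι) (l : ι) (τ : ℝ) : Set (ι → EE m) := {g | |⟪nv T g, g l⟫| ≤ τ}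

/-- For `i ∈ T`: the unit vector of the span of the `g k`, `k ∈ T`, which is orthogonal to all
`g k` with `k ∈ T`, `k ≠ i`; it is obtained as the unit normal of the family in which `g i` is
replaced by the unit normal of `T`. -/
noncomputable def nu (T : Finset ι) (i : ι) (g : ι → EE m) : EE m :=
  nv T (Function.update g i (nv T g))

/-- The event that the coefficient of `g i` in the expansion of the projection of `g ℓ` to the span
of the `g k`, `k ∈ T`, is at most `x` in absolute value. -/
def cbad (T : Finset ι) (i l : ι) (x : ℝ) : Set (ι → EE m) :=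
  {g | |⟪nu T i g, g l⟫| ≤ x * |⟪nu T i g, g i⟫|}

open Classical in
/-- The event that at least half of the coefficients are at most `x`. -/
def few (T : Finset ι) (l : ι) (x : ℝ) : Set (ι → EE m) :=
  {g | (T.card : ℝ) ≤ 2 * ((T.filter (fun i => g ∈ cbad T i l x)).card : ℝ)}

end

end Pool.Agent.H90.EO
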