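import Pool.Agent.H90.EO.Base

/-!
# Central binomial coefficients

Both by induction with `Nat.succ_mul_centralBinom_succ : (n+1) * centralBinom (n+1) =
2 * (2n+1) * centralBinom n`; with `a_n = centralBinom n / 4^n` one has
`a_{n+1} = a_n (2n+1)/(2n+2)`, `(2n+1)(2n+3) ≤ (2n+2)²` and `4 n (n+1) ≤ (2n+1)²`.
`choose_half`: `C(2m+1, m+1) = centralBinom (m+1) / 2` (`Nat.succ_mul_centralBinom_succ`,
`Nat.centralBinom_eq_two_mul_choose`, `Nat.choose_symm_half`, Pascal).
-/

namespace Pool.Agent.H90.EO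

theorem centralBinom_le (n : ℕ) : (n.centralBinom : ℝ) * √(2 * n + 1) ≤ 4 ^ n := by
  induction n with
  | zero => simp
  | succ n ih =>
    have hc : ((n : ℝ) + 1) * ((n + 1).centralBinom : ℝ) = 2 * (2 * n + 1) * (n.centralBinom : ℝ) := by
      exact_mod_cast Nat.succ_mul_centralBinom_succ n
    have hn : (0 : ℝ) ≤ n := Nat.cast_nonneg n
    have hcn : (0 : ℝ) ≤ (n.centralBinom : ℝ) := Nat.cast_nonneg _
    obtain ⟨a, ha⟩ : ∃ a : ℝ, a = √(2 * (n : ℝ) + 1) := ⟨_, rfl⟩
    obtain ⟨b, hb⟩ : ∃ b : ℝ, b = √(2 * ((n : ℝ) + 1) + 1) := ⟨_, rfl⟩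
    have ha0 : 0 ≤ a := by rw [ha]; positivity
    have hb0 : 0 ≤ b := by rw [hb]; positivity
    have ha2 : a * a = 2 * n + 1 := by rw [ha]; exact Real.mul_self_sqrt (by positivity)
    have hb2 : b * b = 2 * (n + 1) + 1 := by rw [hb]; exact Real.mul_self_sqrt (by positivity)
    have hab : a * b ≤ 2 * (n + 1) := by
      by_contra hcon
      push Not at hcon
      have h1 : (a * b) * (a * b) = (2 * n + 1) * (2 * (n + 1) + 1) := by
        rw [← ha2, ← hb2]; ring
      nlinarith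
    rw [← ha] at ih
    have hpow : (4 : ℝ) ^ (n + 1) = 4 * 4 ^ n := pow_succ' _ _
    push_cast
    rw [← hb, hpow]
    have hkey : ((n : ℝ) + 1) * (((n + 1).centralBinom : ℝ) * b) ≤ ((n : ℝ) + 1) * (4 * 4 ^ n) := by
      calc ((n : ℝ) + 1) * (((n + 1).centralBinom : ℝ) * b)
          = 2 * ((n.centralBinom : ℝ) * a) * (a * b) := by
            rw [← mul_assoc, hc, ← ha2]; ring
        _ ≤ 2 * (4 ^ n) * (2 * (n + 1)) := by
            apply mul_le_mul _ hab (by positivity) (by positivity)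
            linarith
        _ = ((n : ℝ) + 1) * (4 * 4 ^ n) := by ring
    exact le_of_mul_le_mul_left hkey (by positivity)

theorem le_centralBinom (n : ℕ) (hn : 1 ≤ n) : (4 : ℝ) ^ n ≤ 2 * √n * n.centralBinom := by
  induction n, hn using Nat.le_induction with
  | base => simp [Nat.centralBinom]; norm_num
  | succ n hn ih =>
    have hc : ((n : ℝ) + 1) * ((n + 1).centralBinom : ℝ) = 2 * (2 * n + 1) * (n.centralBinom : ℝ) := by
      exact_mod_cast Nat.succ_mul_centralBinom_succ n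
    have hn' : (0 : ℝ) ≤ n := Nat.cast_nonneg n
    have hcn : (0 : ℝ) ≤ (n.centralBinom : ℝ) := Nat.cast_nonneg _
    obtain ⟨a, ha⟩ : ∃ a : ℝ, a = √(n : ℝ) := ⟨_, rfl⟩
    obtain ⟨b, hb⟩ : ∃ b : ℝ, b = √((n : ℝ) + 1) := ⟨_, rfl⟩
    have ha0 : 0 ≤ a := by rw [ha]; positivity
    have hb0 : 0 ≤ b := by rw [hb]; positivity
    have ha2 : a * a = n := by rw [ha]; exact Real.mul_self_sqrt (by positivity)
    have hb2 : b * b = n + 1 := by rw [hb]; exact Real.mul_self_sqrt (by positivity)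
    have hab : 2 * (a * b) ≤ 2 * n + 1 := by
      by_contra hcon
      push Not at hcon
      have h1 : (2 * (a * b)) * (2 * (a * b)) = 4 * (n * (n + 1)) := by
        rw [← hb2, ← ha2]; ring
      nlinarith
    rw [← ha] at ih
    have hpow : (4 : ℝ) ^ (n + 1) = 4 * 4 ^ n := pow_succ' _ _
    push_cast
    rw [← hb, hpow]
    have hkey : ((n : ℝ) + 1) * (4 * 4 ^ n) ≤ ((n : ℝ) + 1) * (2 * b * ((n + 1).centralBinom : ℝ)) := by
      calc ((n : ℝ) + 1) * (4 * 4 ^ n) ≤ ((n : ℝ) + 1) * (4 * (2 * a * (n.centralBinom : ℝ))) := by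
            apply mul_le_mul_of_nonneg_left _ (by positivity)
            linarith
        _ = 4 * b * (2 * (a * b)) * (n.centralBinom : ℝ) := by rw [← hb2]; ring
        _ ≤ 4 * b * (2 * n + 1) * (n.centralBinom : ℝ) := by
            apply mul_le_mul_of_nonneg_right _ hcn
            exact mul_le_mul_of_nonneg_left hab (by positivity)
        _ = ((n : ℝ) + 1) * (2 * b * ((n + 1).centralBinom : ℝ)) := by
            have h3 : ((n : ℝ) + 1) * (2 * b * ((n + 1).centralBinom : ℝ)) =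
                2 * b * (((n : ℝ) + 1) * ((n + 1).centralBinom : ℝ)) := by ring
            rw [h3, hc]; ring
    exact le_of_mul_le_mul_left hkey (by positivity)

theorem choose_half (m : ℕ) : 2 * (2 * m + 1).choose (m + 1) = (m + 1).centralBinom := by
  have h1 : (2 * (m + 1)).choose (m + 1) = (2 * m + 1).choose m + (2 * m + 1).choose (m + 1) :=
    Nat.choose_succ_succ (2 * m + 1) m
  rw [Nat.centralBinom_eq_two_mul_choose, h1, ← Nat.choose_symm_half m]
  ring

end Pool.Agent.H90.EO
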