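import Pool.Agent.H90.EO.Base

/-!
# Orthogonal matrices and isometries

* `exists_orth`: a unit vector `v` is the row `i₀` of some orthogonal matrix (Householder reflection
  or `Orthonormal.exists_orthonormalBasis_extension_of_card_eq` in `EuclideanSpace ℝ ι`; for
  `v = e_{i₀}` take `1`, otherwise `O = 1 - 2 w wᵀ / ‖w‖²` with `w = v - e_{i₀}`).
* `exists_swap`: for orthonormal `a, b` there is a linear isometry of `E` which exchanges `a` and
  `b` and fixes everything orthogonal to both (the reflection in the hyperplane orthogonal to `a - b`,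
  `Submodule.reflection`; `x ↦ x - ⟪a - b, x⟫ (a - b)`).
-/

open Matrix
open scoped RealInnerProductSpace

namespace Pool.Agent.H90.EO

theorem exists_orth {ι : Type*} [Fintype ι] [DecidableEq ι] (i₀ : ι) (v : ι → ℝ)
    (hv : ∑ i, v i ^ 2 = 1) : ∃ O : Matrix ι ι ℝ, O * Oᵀ = 1 ∧ ∀ i, O i₀ i = v i := by
  obtain ⟨e, he⟩ : ∃ e : ι → ℝ, e = fun i => if i = i₀ then 1 else 0 := ⟨_, rfl⟩
  have hee : ∀ i, e i = if i = i₀ then 1 else 0 := fun i => by rw [he]
  by_cases hve : v = e
  · refine ⟨1, by rw [transpose_one, one_mul], fun i => ?_⟩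
    rw [hve, hee, one_apply]
    by_cases h : i = i₀
    · rw [if_pos h, if_pos h.symm]
    · rw [if_neg h, if_neg (fun h' => h h'.symm)]
  · obtain ⟨w, hw⟩ : ∃ w : ι → ℝ, w = fun i => v i - e i := ⟨_, rfl⟩
    have hwi : ∀ i, w i = v i - e i := fun i => by rw [hw]
    obtain ⟨c, hc⟩ : ∃ c : ℝ, c = ∑ i, w i ^ 2 := ⟨_, rfl⟩
    have hc0 : c ≠ 0 := by
      intro h0
      apply hve
      funext i
      have h1 : ∑ i, w i ^ 2 = 0 := by rw [← hc, h0]
      have h2 := (Finset.sum_eq_zero_iff_of_nonneg fun j _ => sq_nonneg (w j)).1 h1 i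
        (Finset.mem_univ i)
      have h3 : w i = 0 := pow_eq_zero_iff (two_ne_zero) |>.1 h2
      rw [hwi] at h3
      linarith
    have hcv : c = 2 - 2 * v i₀ := by
      have h1 : ∀ i, w i ^ 2 = v i ^ 2 - 2 * (if i = i₀ then v i else 0) +
          (if i = i₀ then 1 else 0) := by
        intro i
        rw [hwi, hee]
        by_cases h : i = i₀
        · rw [if_pos h, if_pos h]; ring
        · rw [if_neg h, if_neg h]; ring
      rw [hc, Finset.sum_congr rfl fun i _ => h1 i, Finset.sum_add_distrib,
        Finset.sum_sub_distrib, ← Finset.mul_sum, hv, Finset.sum_ite_eq' Finset.univ i₀,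
        Finset.sum_ite_eq' Finset.univ i₀]
      simp
      ring
    obtain ⟨t, ht⟩ : ∃ t : ℝ, t = 2 / c := ⟨_, rfl⟩
    have htc : t * c = 2 := by rw [ht]; field_simp
    refine ⟨Matrix.of fun i j => (if i = j then 1 else 0) - t * (w i * w j), ?_, fun i => ?_⟩
    · ext i j
      rw [mul_apply, one_apply]
      simp only [transpose_apply, of_apply]
      have h1 : ∀ k, ((if i = k then (1 : ℝ) else 0) - t * (w i * w k)) *
          ((if j = k then 1 else 0) - t * (w j * w k)) =
          (if k = i then (if j = k then (1 : ℝ) else 0) else 0) -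
            (if k = i then t * (w j * w k) else 0) - (if k = j then t * (w i * w k) else 0) +
            t * t * (w i * w j) * w k ^ 2 := by
        intro k
        by_cases hi : i = k
        · by_cases hj : j = k
          · rw [if_pos hi, if_pos hj, if_pos hi.symm, if_pos hi.symm, if_pos hj.symm]; ring
          · rw [if_pos hi, if_neg hj, if_pos hi.symm, if_pos hi.symm,
              if_neg (fun h => hj h.symm)]; ring
        · by_cases hj : j = k
          · rw [if_neg hi, if_pos hj, if_neg (fun h => hi h.symm), if_neg (fun h => hi h.symm),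
              if_pos hj.symm]; ring
          · rw [if_neg hi, if_neg hj, if_neg (fun h => hi h.symm), if_neg (fun h => hi h.symm),
              if_neg (fun h => hj h.symm)]; ring
      rw [Finset.sum_congr rfl fun k _ => h1 k, Finset.sum_add_distrib, Finset.sum_sub_distrib,
        Finset.sum_sub_distrib, Finset.sum_ite_eq' Finset.univ i, Finset.sum_ite_eq' Finset.univ i,
        Finset.sum_ite_eq' Finset.univ j, ← Finset.mul_sum, ← hc]
      simp only [Finset.mem_univ, if_true]
      have h2 : t * t * (w i * w j) * c = t * (w i * w j) * (t * c) := by ring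
      rw [h2, htc]
      by_cases h : i = j
      · rw [if_pos h, if_pos h.symm]; ring
      · rw [if_neg h, if_neg (fun h' => h h'.symm)]; ring
    · simp only [of_apply]
      have h1 : w i₀ = -(c / 2) := by
        rw [hwi, hee, if_pos rfl, hcv]; ring
      have h2 : t * (w i₀ * w i) = -(w i) := by
        rw [h1]
        have h3 : t * (-(c / 2) * w i) = -(t * c / 2 * w i) := by ring
        rw [h3, htc]; ring
      rw [h2, hwi, hee]
      by_cases h : i = i₀
      · rw [if_pos h, if_pos h.symm]; ring
      · rw [if_neg h, if_neg (fun h' => h h'.symm)]; ring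

theorem exists_swap {E : Type*} [NormedAddCommGroup E] [InnerProductSpace ℝ E]
    [FiniteDimensional ℝ E] (a b : E) (ha : ‖a‖ = 1) (hb : ‖b‖ = 1) (hab : ⟪a, b⟫ = (0 : ℝ)) :
    ∃ R : E ≃ₗᵢ[ℝ] E, R a = b ∧ R b = a ∧ ∀ x : E, ⟪a, x⟫ = (0 : ℝ) → ⟪b, x⟫ = (0 : ℝ) → R x = x := by
  have h1 : (Submodule.span ℝ {a - b})ᗮ.reflection a = b :=
    Submodule.reflection_sub (by rw [ha, hb])
  refine ⟨(Submodule.span ℝ {a - b})ᗮ.reflection, h1, ?_, fun x hx hy => ?_⟩
  · have h2 := Submodule.reflection_reflection (Submodule.span ℝ {a - b})ᗮ a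
    rw [h1] at h2
    exact h2
  · refine Submodule.reflection_mem_subspace_eq_self ?_
    rw [Submodule.mem_orthogonal_singleton_iff_inner_right, inner_sub_left, hx, hy, sub_zero]

end Pool.Agent.H90.EO
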