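import Pool.Agent.H90.EO.Base

/-!
# Resampling some members of an independent family

* `lintegral_resample`: `T.piecewise u y` (equal to `u` on `T` and to `y` off `T`) has the law of `g` if
  `u`, `y` are independent with the law of `g`. Proof: `measurePreserving_piEquivPiSubtypeProd`
  with the predicate `(· ∈ T)` splits the product measure; or: the map
  `p ↦ T.piecewise p.1 p.2` maps `(Measure.pi μ).prod (Measure.pi μ)` to `Measure.pi μ` by
  `Measure.pi_eq` (the preimage of a box is a product of two boxes), then `lintegral_map` and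
  `lintegral_prod`.
* `lintegral_eval`: if `F g a` does not depend on `g l`, then `g l` can be replaced by an independent
  copy. It follows from `lintegral_resample` with `T = univ.erase l`, applied to `g ↦ F g (g l)`: for
  fixed `u` the integrand is `F u (y l)`, and `y l` has law `γ` (`measurePreserving_eval`).
* `real_eval`: the same for the probability of a measurable set.
-/

open MeasureTheory ProbabilityTheory Filter Topology
open scoped ENNReal NNReal

namespace Pool.Agent.H90.EO

variable {ι : Type*} [Fintype ι] [DecidableEq ι] {E : Type*} [MeasurableSpace E]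

omit [Fintype ι] in
private theorem Resample_measurable_piecewise (T : Finset ι) :
    Measurable (fun p : (ι → E) × (ι → E) => T.piecewise p.1 p.2) := by
  refine measurable_pi_lambda _ fun i => ?_
  by_cases hi : i ∈ T
  · have : (fun p : (ι → E) × (ι → E) => T.piecewise p.1 p.2 i) = fun p => p.1 i := by
      funext p
      exact Finset.piecewise_eq_of_mem T p.1 p.2 hi
    rw [this]
    exact (measurable_pi_apply i).comp measurable_fst
  · have : (fun p : (ι → E) × (ι → E) => T.piecewise p.1 p.2 i) = fun p => p.2 i := by
      funext p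
      exact Finset.piecewise_eq_of_notMem T p.1 p.2 hi
    rw [this]
    exact (measurable_pi_apply i).comp measurable_snd

private theorem Resample_map_piecewise (γ : Measure E) [IsProbabilityMeasure γ] (T : Finset ι) :
    Measure.map (fun p : (ι → E) × (ι → E) => T.piecewise p.1 p.2)
      ((Measure.pi fun _ : ι => γ).prod (Measure.pi fun _ : ι => γ)) =
      Measure.pi fun _ : ι => γ := by
  symm
  refine Measure.pi_eq fun s hs => ?_
  have hmeas := Resample_measurable_piecewise (E := E) T
  rw [Measure.map_apply hmeas (MeasurableSet.univ_pi hs)]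
  have hpre : (fun p : (ι → E) × (ι → E) => T.piecewise p.1 p.2) ⁻¹' (Set.univ.pi s) =
      (Set.univ.pi fun i => if i ∈ T then s i else Set.univ) ×ˢ
        (Set.univ.pi fun i => if i ∈ T then Set.univ else s i) := by
    ext p
    simp only [Set.mem_preimage, Set.mem_pi, Set.mem_univ, true_implies, Set.mem_prod]
    constructor
    · intro h
      constructor
      · intro i
        by_cases hi : i ∈ T
        · have := h i
          rw [Finset.piecewise_eq_of_mem T p.1 p.2 hi] at this
          simpa [hi] using this
        · simp [hi]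
      · intro i
        by_cases hi : i ∈ T
        · simp [hi]
        · have := h i
          rw [Finset.piecewise_eq_of_notMem T p.1 p.2 hi] at this
          simpa [hi] using this
    · rintro ⟨h1, h2⟩ i
      by_cases hi : i ∈ T
      · have := h1 i
        rw [Finset.piecewise_eq_of_mem T p.1 p.2 hi]
        simpa [hi] using this
      · have := h2 i
        rw [Finset.piecewise_eq_of_notMem T p.1 p.2 hi]
        simpa [hi] using this
  rw [hpre, Measure.prod_prod, Measure.pi_pi, Measure.pi_pi, ← Finset.prod_mul_distrib]
  refine Finset.prod_congr rfl fun i _ => ?_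
  by_cases hi : i ∈ T
  · simp [hi]
  · simp [hi]

theorem lintegral_resample (γ : Measure E) [IsProbabilityMeasure γ] (T : Finset ι)
    (F : (ι → E) → ℝ≥0∞) (hF : Measurable F) :
    ∫⁻ g, F g ∂(Measure.pi fun _ : ι => γ) =
      ∫⁻ u, ∫⁻ y, F (T.piecewise u y) ∂(Measure.pi fun _ : ι => γ) ∂(Measure.pi fun _ : ι => γ) := by
  have hmeas := Resample_measurable_piecewise (E := E) T
  rw [← Resample_map_piecewise γ T, lintegral_map hF hmeas, Resample_map_piecewise γ T]
  exact lintegral_prod _ (hF.comp hmeas).aemeasurable

theorem lintegral_eval (γ : Measure E) [IsProbabilityMeasure γ] (l : ι)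
    (F : (ι → E) → E → ℝ≥0∞) (hF : Measurable (Function.uncurry F))
    (hdep : ∀ g g' : ι → E, (∀ i, i ≠ l → g i = g' i) → ∀ a, F g a = F g' a) :
    ∫⁻ g, F g (g l) ∂(Measure.pi fun _ : ι => γ) =
      ∫⁻ g, ∫⁻ a, F g a ∂γ ∂(Measure.pi fun _ : ι => γ) := by
  have hF' : Measurable fun g : ι → E => F g (g l) := by
    have h : Measurable fun g : ι → E => (g, g l) :=
      measurable_id.prodMk (measurable_pi_apply l)
    exact hF.comp h
  rw [lintegral_resample γ (Finset.univ.erase l) (fun g => F g (g l)) hF']
  refine lintegral_congr fun u => ?_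
  have hval : ∀ y : ι → E, F ((Finset.univ.erase l).piecewise u y)
      ((Finset.univ.erase l).piecewise u y l) = F u (y l) := by
    intro y
    rw [Finset.piecewise_eq_of_notMem _ u y (Finset.notMem_erase l Finset.univ)]
    refine hdep _ _ (fun i hi => ?_) (y l)
    exact Finset.piecewise_eq_of_mem _ u y (Finset.mem_erase.2 ⟨hi, Finset.mem_univ i⟩)
  simp only [hval]
  have hFu : Measurable (F u) := hF.comp (measurable_const.prodMk measurable_id)
  exact (measurePreserving_eval (fun _ : ι => γ) l).lintegral_comp hFu

theorem measure_eval (γ : Measure E) [IsProbabilityMeasure γ] (l : ι)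
    (S : Set ((ι → E) × E)) (hS : MeasurableSet S)
    (hdep : ∀ g g' : ι → E, (∀ i, i ≠ l → g i = g' i) → ∀ a, ((g, a) ∈ S ↔ (g', a) ∈ S)) :
    (Measure.pi fun _ : ι => γ) {g | (g, g l) ∈ S} =
      ∫⁻ g, γ {a | (g, a) ∈ S} ∂(Measure.pi fun _ : ι => γ) := by
  have hmap : Measurable fun g : ι → E => (g, g l) :=
    measurable_id.prodMk (measurable_pi_apply l)
  have h1 : MeasurableSet {g : ι → E | (g, g l) ∈ S} := hmap hS
  have hF : Measurable (Function.uncurry fun (g : ι → E) (a : E) =>
      S.indicator (fun _ => (1 : ℝ≥0∞)) (g, a)) :=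
    measurable_const.indicator hS
  have key := lintegral_eval γ l (fun g a => S.indicator (fun _ => (1 : ℝ≥0∞)) (g, a)) hF
    (by
      intro g g' hg a
      by_cases hm : (g, a) ∈ S
      · rw [Set.indicator_of_mem hm, Set.indicator_of_mem ((hdep g g' hg a).1 hm)]
      · rw [Set.indicator_of_notMem hm,
          Set.indicator_of_notMem (fun h => hm ((hdep g g' hg a).2 h))])
  have hl : ∫⁻ g : ι → E, S.indicator (fun _ => (1 : ℝ≥0∞)) (g, g l)
      ∂(Measure.pi fun _ : ι => γ) =
      (Measure.pi fun _ : ι => γ) {g | (g, g l) ∈ S} := by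
    rw [← lintegral_indicator_one h1]
    refine lintegral_congr fun g => ?_
    by_cases hm : (g, g l) ∈ S
    · rw [Set.indicator_of_mem hm, Set.indicator_of_mem (show g ∈ {g | (g, g l) ∈ S} from hm)]
      rfl
    · rw [Set.indicator_of_notMem hm,
        Set.indicator_of_notMem (show g ∉ {g | (g, g l) ∈ S} from hm)]
  have hr : ∀ g : ι → E, ∫⁻ a, S.indicator (fun _ => (1 : ℝ≥0∞)) (g, a) ∂γ =
      γ {a | (g, a) ∈ S} := by
    intro g
    have h2 : MeasurableSet {a : E | (g, a) ∈ S} := (measurable_const.prodMk measurable_id) hS
    rw [← lintegral_indicator_one h2]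
    refine lintegral_congr fun a => ?_
    by_cases hm : (g, a) ∈ S
    · rw [Set.indicator_of_mem hm, Set.indicator_of_mem (show a ∈ {a | (g, a) ∈ S} from hm)]
      rfl
    · rw [Set.indicator_of_notMem hm,
        Set.indicator_of_notMem (show a ∉ {a | (g, a) ∈ S} from hm)]
  rw [← hl, key]
  exact lintegral_congr hr

end Pool.Agent.H90.EO
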