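import Pool.Agent.H90.EO.NvU
import Pool.Agent.H90.EO.Orth
import Pool.Agent.H90.EO.Resample

/-!
# Second moment of the scalar product of two normals

`inner_corr`: let `u` be independent on `T`, `x = nv T u`, and let `y` be a family of independent
standard Gaussian vectors. Then the mean of `⟪x, nv T' (T.piecewise u y)⟫²` is at most `1/(k+1)`, where
`k = (T' \ T).card`.

Proof. Let `W` be the orthogonal complement of the span of the `u i`, `i ∈ T ∩ T'`; its dimension is
`m + 1 - (T ∩ T').card = k + 1`, and `x ∈ W`. Choose an orthonormal basis `e_0, …, e_k` of `W` with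
`e_0 = x` (or: any orthonormal basis `e` of the orthogonal complement of `x` in `W`, with `k` elements;
together with `x` these are `k + 1` orthonormal vectors). For `j ≥ 1` let `R` be the isometry of
`exists_swap x e_j`; it fixes `u i` for `i ∈ T ∩ T'` and `R x = e_j`, `R e_j = x`. The law of
`y` is invariant under `y ↦ R ∘ y` (`stdGaussian_map`, `Measure.pi_map_pi`). For almost every `y` the
family `G = T.piecewise u y` is independent on `T'` (almost every `y` is such that adding the `y i`,
`i ∈ T' \ T`, to the independent `u i`, `i ∈ T ∩ T'`, keeps independence; see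
`PR.Generic.ae_linearIndepOn` and `stdGaussian_submodule_eq_zero`; or avoid this: if `G` is
not independent on `T'`, then `nv T' G = 0` because the cofactor vector vanishes), and on `T'` the family
`T.piecewise u (R ∘ y)` equals `R ∘ G`, so by `nv_isometry`
`⟪x, nv T' (T.piecewise u (R ∘ y))⟫² = ⟪x, R (nv T' G)⟫² = ⟪e_j, nv T' G⟫²`. So the mean of
`⟪x, nv T' G⟫²` equals the mean of `⟪e_j, nv T' G⟫²` for every `j`, and the sum over
`j = 0, …, k` is at most the mean of `‖nv T' G‖² ≤ 1` (Bessel).

`lintegral_corr_sq` follows by `lintegral_resample` (as `nv T (T.piecewise u y) = nv T u` by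
`nv_congr`) and `ae_linearIndepOn`.
-/

open MeasureTheory ProbabilityTheory Filter Topology
open scoped ENNReal NNReal RealInnerProductSpace

namespace Pool.Agent.H90.EO

open Pool.Agent.H90.PR

variable {ι : Type*} [Fintype ι] [DecidableEq ι] {m : ℕ}

omit [Fintype ι] [DecidableEq ι] in
/-- the normal of a dependent family is zero -/
private theorem Corr_nv_eq_zero (T : Finset ι) (hT : T.card = m) (g : ι → EE m)
    (hg : ¬ LinearIndepOn ℝ g (T : Set ι)) : nv T g = 0 := by
  unfold nv
  rw [dif_pos hT]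
  set u : Fin m → EE m := fun i => g ((T.equivFinOfCardEq hT).symm i) with hu
  have hu' : ¬ LinearIndependent ℝ u := by
    intro h
    apply hg
    have h1 := h.comp _ (T.equivFinOfCardEq hT).injective
    have h2 : (u ∘ (T.equivFinOfCardEq hT)) = fun i : T => g i := by
      funext i
      simp [hu]
    rw [h2] at h1
    exact h1
  have hc : cof u = 0 := by
    by_contra hne
    apply hu'
    have h1 : (⟪cof u, cof u⟫ : ℝ) ≠ 0 := by
      rw [real_inner_self_eq_norm_sq]
      exact pow_ne_zero _ (norm_ne_zero_iff.2 hne)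
    rw [inner_cof] at h1
    have h2 : LinearIndependent ℝ ((WithLp.linearEquiv 2 ℝ (Fin (m + 1) → ℝ)).toLinearMap ∘
        (Fin.cons (cof u) u : Fin (m + 1) → EE m)) :=
      Matrix.linearIndependent_rows_of_det_ne_zero h1
    have h3 : LinearIndependent ℝ (Fin.cons (cof u) u : Fin (m + 1) → EE m) := h2.of_comp _
    have h5 := h3.comp Fin.succ (Fin.succ_injective _)
    have h6 : (Fin.cons (cof u) u : Fin (m + 1) → EE m) ∘ Fin.succ = u := by
      funext i
      simp
    rwa [h6] at h5
  unfold nrm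
  rw [hc]
  simp

omit [Fintype ι] in
/-- the square of the scalar product with a reflected vector -/
private theorem Corr_refl (T T' : Finset ι) (hT' : T'.card = m) (u : ι → EE m) (x e : EE m)
    (R : EE m ≃ₗᵢ[ℝ] EE m) (hRe : R e = x) (hRu : ∀ i ∈ T ∩ T', R (u i) = u i) (y : ι → EE m) :
    (⟪x, nv T' (T.piecewise u fun i => R (y i))⟫ : ℝ) ^ 2 =
      ⟪e, nv T' (T.piecewise u y)⟫ ^ 2 := by
  have h1 : nv T' (T.piecewise u fun i => R (y i)) =
      nv T' (fun i => R (T.piecewise u y i)) := by
    apply nv_congr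
    intro i hi
    by_cases h : i ∈ T
    · simp [h, hRu i (Finset.mem_inter.2 ⟨h, hi⟩)]
    · simp [h]
  rw [h1]
  by_cases hg : LinearIndepOn ℝ (T.piecewise u y) (T' : Set ι)
  · rcases nv_isometry T' hT' _ hg R with h2 | h2
    · rw [h2, ← hRe, LinearIsometryEquiv.inner_map_map]
    · rw [h2, ← hRe, inner_neg_right, LinearIsometryEquiv.inner_map_map, neg_sq]
  · have hg' : ¬ LinearIndepOn ℝ (fun i => R (T.piecewise u y i)) (T' : Set ι) := by
      intro h2
      apply hg
      have h3 : (fun i => R (T.piecewise u y i)) =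
          R.toLinearEquiv.toLinearMap ∘ (T.piecewise u y) := rfl
      rw [h3] at h2
      exact h2.of_comp _
    rw [Corr_nv_eq_zero T' hT' _ hg, Corr_nv_eq_zero T' hT' _ hg']
    simp

omit [DecidableEq ι] in
/-- invariance under isometries of the members of the family -/
private theorem Corr_inv (R : EE m ≃ₗᵢ[ℝ] EE m) (F : (ι → EE m) → ℝ≥0∞) (hF : Measurable F) :
    ∫⁻ y, F (fun i => R (y i)) ∂(gm ι m) = ∫⁻ y, F y ∂(gm ι m) := by
  have h1 : MeasurePreserving (fun a : EE m => R a) (stdGaussian (EE m)) (stdGaussian (EE m)) :=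
    ⟨R.continuous.measurable, stdGaussian_map R⟩
  have h2 : MeasurePreserving (fun (y : ι → EE m) i => R (y i)) (gm ι m) (gm ι m) :=
    measurePreserving_pi (fun _ : ι => stdGaussian (EE m)) (fun _ : ι => stdGaussian (EE m))
      (fun _ => h1)
  exact h2.lintegral_comp hF

omit [Fintype ι] in
private theorem Corr_meas (T T' : Finset ι) (u : ι → EE m) (x : EE m) :
    Measurable fun y : ι → EE m => ENNReal.ofReal (⟪x, nv T' (T.piecewise u y)⟫ ^ 2) := by
  have h1 : Measurable fun y : ι → EE m => T.piecewise u y := by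
    apply measurable_pi_lambda
    intro i
    by_cases h : i ∈ T
    · simp only [Finset.piecewise, h, if_true]
      exact measurable_const
    · simp only [Finset.piecewise, h, if_false]
      exact measurable_pi_apply i
  have h2 := (measurable_nv (m := m) T').comp h1
  exact ((measurable_const.inner h2).pow_const 2).ennreal_ofReal

theorem inner_corr (T T' : Finset ι) (hT : T.card = m) (hT' : T'.card = m) (u : ι → EE m)
    (hu : LinearIndepOn ℝ u (T : Set ι)) :
    ∫⁻ y, ENNReal.ofReal (⟪nv T u, nv T' (T.piecewise u y)⟫ ^ 2) ∂(gm ι m) ≤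
      ENNReal.ofReal (1 / ((T' \ T).card + 1)) := by
  set k := (T' \ T).card with hk
  have hkm : (T ∩ T').card + k = m := by
    rw [hk, Finset.inter_comm, Finset.card_inter_add_card_sdiff, hT']
  set K : Submodule ℝ (EE m) :=
    Submodule.span ℝ (Set.range fun i : {i // i ∈ T ∩ T'} => u i) with hK
  have hKr : Module.finrank ℝ K = (T ∩ T').card := by
    have h1 : LinearIndependent ℝ (fun i : {i // i ∈ T ∩ T'} => u i) := by
      have h2 : LinearIndepOn ℝ u ((T ∩ T' : Finset ι) : Set ι) :=
        hu.mono (by simp)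
      exact h2
    rw [hK, finrank_span_eq_card h1, Fintype.card_coe]
  have hW : Module.finrank ℝ Kᗮ = k + 1 := by
    have h1 := Submodule.finrank_add_finrank_orthogonal K
    rw [hKr, finrank_euclideanSpace_fin] at h1
    omega
  have hxn : ‖nv T u‖ = 1 := norm_nv T hT u hu
  have hxW : nv T u ∈ Kᗮ := by
    rw [hK, Submodule.mem_orthogonal']
    intro v hv
    induction hv using Submodule.span_induction with
    | mem v hv =>
      obtain ⟨i, rfl⟩ := hv
      exact inner_nv T hT u i (Finset.mem_inter.1 i.2).1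
    | zero => simp
    | add a b _ _ ha hb => rw [inner_add_right, ha, hb, add_zero]
    | smul c a _ ha => rw [inner_smul_right, ha, mul_zero]
  set x := nv T u with hx
  have hort : Orthonormal ℝ (({0} : Set (Fin (k + 1))).domRestrict
      (fun _ : Fin (k + 1) => (⟨x, hxW⟩ : Kᗮ))) := by
    constructor
    · intro i
      exact hxn
    · intro i j hij
      exact absurd (Subsingleton.elim i j) hij
  obtain ⟨b, hb⟩ := Orthonormal.exists_orthonormalBasis_extension_of_card_eq
    (E := Kᗮ) (ι := Fin (k + 1)) (by rw [hW, Fintype.card_fin]) hort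
  have hb0 : (b 0 : EE m) = x := by
    rw [hb 0 rfl]
  have hbo : Orthonormal ℝ (fun j => (b j : EE m)) :=
    b.orthonormal.comp_linearIsometry Kᗮ.subtypeₗᵢ
  have hbu : ∀ j, ∀ i ∈ T ∩ T', (⟪(b j : EE m), u i⟫ : ℝ) = 0 := by
    intro j i hi
    have h1 := (b j).2
    rw [Submodule.mem_orthogonal'] at h1
    exact h1 _ (Submodule.subset_span ⟨⟨i, hi⟩, rfl⟩)
  -- all members of the basis give the same mean
  have hsame : ∀ j, ∫⁻ y, ENNReal.ofReal (⟪(b j : EE m), nv T' (T.piecewise u y)⟫ ^ 2) ∂(gm ι m) =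
      ∫⁻ y, ENNReal.ofReal (⟪x, nv T' (T.piecewise u y)⟫ ^ 2) ∂(gm ι m) := by
    intro j
    by_cases hj : j = 0
    · rw [hj, hb0]
    · have hxe : (⟪x, (b j : EE m)⟫ : ℝ) = 0 := by
        rw [← hb0]
        exact hbo.2 (Ne.symm hj)
      obtain ⟨R, -, hR2, hR3⟩ := exists_swap x (b j : EE m) hxn (hbo.1 j) hxe
      have hRu : ∀ i ∈ T ∩ T', R (u i) = u i := by
        intro i hi
        apply hR3
        · rw [← hb0]
          exact hbu 0 i hi
        · exact hbu j i hi
      rw [← Corr_inv R _ (Corr_meas T T' u x)]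
      refine lintegral_congr fun y => ?_
      rw [Corr_refl T T' hT' u x (b j) R hR2 hRu y]
  have hsum : ((k : ℝ≥0∞) + 1) *
      ∫⁻ y, ENNReal.ofReal (⟪x, nv T' (T.piecewise u y)⟫ ^ 2) ∂(gm ι m) ≤ 1 := by
    have h1 : ((k : ℝ≥0∞) + 1) *
        ∫⁻ y, ENNReal.ofReal (⟪x, nv T' (T.piecewise u y)⟫ ^ 2) ∂(gm ι m) =
        ∑ j : Fin (k + 1),
          ∫⁻ y, ENNReal.ofReal (⟪(b j : EE m), nv T' (T.piecewise u y)⟫ ^ 2) ∂(gm ι m) := by
      rw [Finset.sum_congr rfl fun j _ => hsame j]
      simp
    rw [h1, ← lintegral_finsetSum _ fun j _ => Corr_meas T T' u (b j)]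
    calc ∫⁻ y, ∑ j : Fin (k + 1),
          ENNReal.ofReal (⟪(b j : EE m), nv T' (T.piecewise u y)⟫ ^ 2) ∂(gm ι m)
        ≤ ∫⁻ _, 1 ∂(gm ι m) := by
          refine lintegral_mono fun y => ?_
          rw [← ENNReal.ofReal_sum_of_nonneg fun j _ => sq_nonneg _, ← ENNReal.ofReal_one]
          refine ENNReal.ofReal_le_ofReal ?_
          have h2 := hbo.sum_inner_products_le (nv T' (T.piecewise u y)) (s := Finset.univ)
          have h3 := norm_nv_le_one T' (T.piecewise u y)
          have h4 : ‖nv T' (T.piecewise u y)‖ ^ 2 ≤ 1 := pow_le_one₀ (norm_nonneg _) h3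
          refine le_trans (le_of_eq ?_) (h2.trans h4)
          refine Finset.sum_congr rfl fun j _ => ?_
          rw [Real.norm_eq_abs, sq_abs]
      _ = 1 := by simp
  have hk0 : ((k : ℝ≥0∞) + 1) ≠ 0 := by simp
  have hk1 : ((k : ℝ≥0∞) + 1) ≠ ⊤ := by simp
  have h1 : ENNReal.ofReal (1 / ((k : ℝ) + 1)) = ((k : ℝ≥0∞) + 1)⁻¹ := by
    rw [one_div, ENNReal.ofReal_inv_of_pos (by positivity)]
    congr 1
    rw [ENNReal.ofReal_add (by positivity) zero_le_one, ENNReal.ofReal_natCast, ENNReal.ofReal_one]
  rw [h1]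
  rw [ENNReal.le_inv_iff_mul_le, mul_comm]
  exact hsum

theorem lintegral_corr_sq (T T' : Finset ι) (hT : T.card = m) (hT' : T'.card = m) :
    ∫⁻ g, ENNReal.ofReal (⟪nv T g, nv T' g⟫ ^ 2) ∂(gm ι m) ≤
      ENNReal.ofReal (1 / ((T' \ T).card + 1)) := by
  have hF : Measurable fun g : ι → EE m => ENNReal.ofReal (⟪nv T g, nv T' g⟫ ^ 2) :=
    (((measurable_nv T).inner (measurable_nv T')).pow_const 2).ennreal_ofReal
  rw [lintegral_resample (stdGaussian (EE m)) T _ hF]
  calc ∫⁻ u, ∫⁻ y, ENNReal.ofReal (⟪nv T (T.piecewise u y), nv T' (T.piecewise u y)⟫ ^ 2)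
        ∂(gm ι m) ∂(gm ι m)
      ≤ ∫⁻ _, ENNReal.ofReal (1 / ((T' \ T).card + 1)) ∂(gm ι m) := by
        refine lintegral_mono_ae ?_
        have h1 := ae_linearIndepOn (E := EE m) T (by rw [hT, finrank_euclideanSpace_fin]; omega)
        filter_upwards [h1] with u hu
        refine le_trans (le_of_eq ?_) (inner_corr T T' hT hT' u hu)
        refine lintegral_congr fun y => ?_
        have h2 : nv T (T.piecewise u y) = nv T u := by
          apply nv_congr
          intro i hi
          simp [hi]
        rw [h2]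
    _ = ENNReal.ofReal (1 / ((T' \ T).card + 1)) := by simp

end Pool.Agent.H90.EO
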