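import Pool.Agent.H90.EO.Slab
import Pool.Agent.H90.EO.Corr

/-!
# Probability that one vector is close to two hyperplanes

`l ∉ T`, `l ∉ T'`, both of size `m`; `ρ = ⟪nv T g, nv T' g⟫`; `k = (T' \ T).card`.

By `measure_eval` the probability of `hit T l τ ∩ hit T' l τ` is the mean over `g` of
`stdGaussian {a | |⟪nv T g, a⟫| ≤ τ ∧ |⟪nv T' g, a⟫| ≤ τ}`, and almost surely both normals are unit
vectors (`ae_linearIndepOn`, `norm_nv`).

* `hit_eq`: the probability of `hit T l τ` is `Phi τ` (`slab_eq`).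
* `far_le` (from `close_normals` and `multi_bound`, see `PR.Pairs.not_good_le`): the probability of
  `1 - ρ² < s²` is at most `η^k`.
* `corr_le`: the probability of `δ < ρ²` is at most `1/(δ (k+1))` (Markov and `lintegral_corr_sq`).
* `pair_le`: split according to `s² ≤ 1 - ρ²` (conditional probability `≤ (2/π) τ²/s` by
  `two_slabs_sharp`) or not (`≤ Phi τ ≤ τ` by `slab_eq`, `Phi_le`, `√(2/π) ≤ 1`).
* `pair_le_typ`: split according to `ρ² ≤ δ` (`≤ (2/π) τ²/√(1-δ)`), `δ < ρ² ≤ 1 - s²`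
  (`≤ (2/π) τ²/s`), `1 - s² < ρ²` (`≤ τ`).
-/

open MeasureTheory ProbabilityTheory Filter Topology
open scoped ENNReal NNReal RealInnerProductSpace

namespace Pool.Agent.H90.EO

open Pool.Agent.H90.PR

variable {ι : Type*} [Fintype ι] [DecidableEq ι] {m : ℕ}

theorem measurableSet_hit (T : Finset ι) (l : ι) (τ : ℝ) :
    MeasurableSet (hit (m := m) T l τ) := by
  have h := measurable_nv (m := m) T
  unfold hit
  exact measurableSet_le (by fun_prop) (by fun_prop)

private lemma Pair_ae (T : Finset ι) (hT : T.card = m) :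
    ∀ᵐ g ∂(gm ι m), ‖nv T g‖ = 1 := by
  have h1 := ae_linearIndepOn (E := EE m) T (by simp [hT])
  filter_upwards [h1] with g hg
  exact norm_nv T hT g hg

theorem hit_eq (T : Finset ι) (hT : T.card = m) (l : ι) (hl : l ∉ T) (τ : ℝ) :
    (gm ι m).real (hit T l τ) = Phi τ := by
  have hm : Measurable (fun p : (ι → EE m) × EE m => nv T p.1) :=
    (measurable_nv T).comp measurable_fst
  have h := measure_eval (stdGaussian (EE m)) l
    {p : (ι → EE m) × EE m | |⟪nv T p.1, p.2⟫| ≤ τ}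
    (measurableSet_le (by fun_prop) (by fun_prop)) (by
      intro g g' hgg a
      have : nv T g = nv T g' := nv_congr T g g' (fun i hi => hgg i (by rintro rfl; exact hl hi))
      simp only [Set.mem_ofPred_eq, this])
  have h2 : ∫⁻ g, (stdGaussian (EE m)) {a | (g, a) ∈
      {p : (ι → EE m) × EE m | |⟪nv T p.1, p.2⟫| ≤ τ}} ∂(gm ι m) =
      ∫⁻ _g, ENNReal.ofReal (Phi τ) ∂(gm ι m) := by
    apply lintegral_congr_ae
    filter_upwards [Pair_ae (m := m) T hT] with g hg
    have h3 := slab_eq (nv T g) hg τ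
    rw [← h3, measureReal_def, ENNReal.ofReal_toReal (measure_ne_top _ _)]
  rw [h2] at h
  rw [measureReal_def]
  have h4 : (gm ι m) (hit T l τ) = ENNReal.ofReal (Phi τ) := by
    refine Eq.trans h ?_
    rw [lintegral_const, measure_univ, mul_one]
  rw [h4, ENNReal.toReal_ofReal (Phi_nonneg τ)]

theorem far_le (T T' : Finset ι) (hT : T.card = m) (hT' : T'.card = m) (s K η : ℝ) (hs : 0 ≤ s)
    (hK : 0 < K) (hη : s * K + ((m : ℝ) + 1) / K ^ 2 ≤ η) :
    (gm ι m).real {g | 1 - ⟪nv T g, nv T' g⟫ ^ 2 < s ^ 2} ≤ η ^ (T' \ T).card := by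
  have hb := multi_bound (m := m) T (T' \ T) Finset.disjoint_sdiff s K hs hK
  have h0 : 0 ≤ s * K + ((m : ℝ) + 1) / K ^ 2 := by positivity
  have h1 : (gm ι m) {g | 1 - ⟪nv T g, nv T' g⟫ ^ 2 < s ^ 2} ≤
      (gm ι m) {g | ‖nv T g‖ = 1 ∧ ∀ j ∈ T' \ T, |⟪nv T g, g j⟫| ≤ s * ‖g j‖} := by
    apply measure_mono_ae
    filter_upwards [Pair_ae (m := m) T hT, Pair_ae (m := m) T' hT'] with g hg hg' h3
    exact ⟨hg, fun j hj => close_normals T T' hT' g hg hg' s hs (le_of_lt h3) j hj⟩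
  apply ENNReal.toReal_le_of_le_ofReal (by positivity [h0.trans hη])
  refine (h1.trans hb).trans ?_
  rw [← ENNReal.ofReal_pow h0]
  exact ENNReal.ofReal_le_ofReal (by gcongr)

theorem corr_le (T T' : Finset ι) (hT : T.card = m) (hT' : T'.card = m) (δ : ℝ) (hδ : 0 < δ) :
    (gm ι m).real {g | δ < ⟪nv T g, nv T' g⟫ ^ 2} ≤ 1 / (δ * ((T' \ T).card + 1)) := by
  have a1 := measurable_nv (m := m) T
  have a2 := measurable_nv (m := m) T'
  have h1 : {g : ι → EE m | δ < ⟪nv T g, nv T' g⟫ ^ 2} ⊆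
      {g | ENNReal.ofReal δ ≤ ENNReal.ofReal (⟪nv T g, nv T' g⟫ ^ 2)} := by
    intro g hg
    exact ENNReal.ofReal_le_ofReal (le_of_lt hg)
  have h2 := meas_ge_le_lintegral_div (μ := gm ι m)
    (f := fun g => ENNReal.ofReal (⟪nv T g, nv T' g⟫ ^ 2)) (by fun_prop) (ε := ENNReal.ofReal δ)
    (by simpa using hδ) ENNReal.ofReal_ne_top
  apply ENNReal.toReal_le_of_le_ofReal (by positivity)
  refine (measure_mono h1).trans (h2.trans ?_)
  have h3 := lintegral_corr_sq T T' hT hT'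
  calc _ ≤ ENNReal.ofReal (1 / ((T' \ T).card + 1)) / ENNReal.ofReal δ := by gcongr
    _ = ENNReal.ofReal (1 / ((T' \ T).card + 1) / δ) := by
        rw [ENNReal.ofReal_div_of_pos hδ]
    _ = _ := by
        congr 1
        rw [div_div, mul_comm]

private lemma Pair_meas (T T' : Finset ι) (l : ι) (hl : l ∉ T)
    (hl' : l ∉ T') (τ : ℝ) :
    (gm ι m) (hit T l τ ∩ hit T' l τ) =
      ∫⁻ g, (stdGaussian (EE m)) {a | |⟪nv T g, a⟫| ≤ τ ∧ |⟪nv T' g, a⟫| ≤ τ} ∂(gm ι m) := by
  have hm : Measurable (fun p : (ι → EE m) × EE m => nv T p.1) :=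
    (measurable_nv T).comp measurable_fst
  have hm' : Measurable (fun p : (ι → EE m) × EE m => nv T' p.1) :=
    (measurable_nv T').comp measurable_fst
  have h := measure_eval (stdGaussian (EE m)) l
    ({p : (ι → EE m) × EE m | |⟪nv T p.1, p.2⟫| ≤ τ} ∩
      {p : (ι → EE m) × EE m | |⟪nv T' p.1, p.2⟫| ≤ τ})
    ((measurableSet_le (by fun_prop) (by fun_prop)).inter
      (measurableSet_le (by fun_prop) (by fun_prop))) (by
      intro g g' hgg a
      have e1 : nv T g = nv T g' := nv_congr T g g' (fun i hi => hgg i (by rintro rfl; exact hl hi))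
      have e2 : nv T' g = nv T' g' :=
        nv_congr T' g g' (fun i hi => hgg i (by rintro rfl; exact hl' hi))
      simp only [Set.mem_inter_iff, Set.mem_ofPred_eq, e1, e2])
  exact h

private lemma Pair_sqrt_two_pi : √(2 / Real.pi) ≤ 1 := by
  rw [show (1 : ℝ) = √1 by simp]
  apply Real.sqrt_le_sqrt
  rw [div_le_one Real.pi_pos]
  linarith [Real.pi_gt_three]

private lemma Pair_slab_le (x : EE m) (hx : ‖x‖ = 1) (x' : EE m) (τ : ℝ) (hτ : 0 ≤ τ) :
    (stdGaussian (EE m)) {a | |⟪x, a⟫| ≤ τ ∧ |⟪x', a⟫| ≤ τ} ≤ ENNReal.ofReal τ := by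
  have h1 : (stdGaussian (EE m)).real {a | |⟪x, a⟫| ≤ τ} ≤ τ := by
    rw [slab_eq x hx τ]
    refine (Phi_le τ hτ).trans ?_
    have := Pair_sqrt_two_pi
    nlinarith
  have h2 : (stdGaussian (EE m)) {a | |⟪x, a⟫| ≤ τ ∧ |⟪x', a⟫| ≤ τ} ≤
      (stdGaussian (EE m)) {a | |⟪x, a⟫| ≤ τ} := measure_mono (fun a ha => ha.1)
  refine h2.trans ?_
  rw [← ENNReal.ofReal_toReal (measure_ne_top (stdGaussian (EE m)) {a | |⟪x, a⟫| ≤ τ})]
  exact ENNReal.ofReal_le_ofReal h1

private lemma Pair_two_le (x x' : EE m) (hx : ‖x‖ = 1) (hx' : ‖x'‖ = 1) (τ d : ℝ) (hτ : 0 ≤ τ)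
    (hd : 0 < d) (h : d ^ 2 ≤ 1 - ⟪x, x'⟫ ^ 2) :
    (stdGaussian (EE m)) {a | |⟪x, a⟫| ≤ τ ∧ |⟪x', a⟫| ≤ τ} ≤
      ENNReal.ofReal (2 / Real.pi * τ ^ 2 / d) := by
  have hd2 : 0 < d ^ 2 := by positivity
  have h1 := two_slabs_sharp x x' hx hx' (by linarith) τ hτ
  have h2 : d ≤ √(1 - ⟪x, x'⟫ ^ 2) := Real.le_sqrt_of_sq_le h
  have h3 : 2 / Real.pi * τ ^ 2 / √(1 - ⟪x, x'⟫ ^ 2) ≤ 2 / Real.pi * τ ^ 2 / d := by
    have := Real.pi_pos
    gcongr
  rw [← ENNReal.ofReal_toReal (measure_ne_top (stdGaussian (EE m)) _)]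
  exact ENNReal.ofReal_le_ofReal (h1.trans h3)

private lemma Pair_measurableSet (T T' : Finset ι) (c : ℝ) :
    MeasurableSet {g : ι → EE m | 1 - ⟪nv T g, nv T' g⟫ ^ 2 < c} ∧
    MeasurableSet {g : ι → EE m | c < ⟪nv T g, nv T' g⟫ ^ 2} := by
  have a1 := measurable_nv (m := m) T
  have a2 := measurable_nv (m := m) T'
  exact ⟨measurableSet_lt (by fun_prop) (by fun_prop), measurableSet_lt (by fun_prop) (by fun_prop)⟩

theorem pair_le (T T' : Finset ι) (hT : T.card = m) (hT' : T'.card = m) (l : ι) (hl : l ∉ T)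
    (hl' : l ∉ T') (τ s K η : ℝ) (hτ : 0 ≤ τ) (hs : 0 < s) (hK : 0 < K)
    (hη : s * K + ((m : ℝ) + 1) / K ^ 2 ≤ η) :
    (gm ι m).real (hit T l τ ∩ hit T' l τ) ≤
      2 / Real.pi * τ ^ 2 / s + τ * η ^ (T' \ T).card := by
  have hπ := Real.pi_pos
  set A : Set (ι → EE m) := {g | 1 - ⟪nv T g, nv T' g⟫ ^ 2 < s ^ 2} with hA
  have hAm : MeasurableSet A := (Pair_measurableSet T T' (s ^ 2)).1
  have hfar := far_le T T' hT hT' s K η hs.le hK hη
  have h0 : 0 ≤ 2 / Real.pi * τ ^ 2 / s := by positivity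
  have hη0 : 0 ≤ η := le_trans (by positivity) hη
  have h1 : (gm ι m) (hit T l τ ∩ hit T' l τ) ≤
      ENNReal.ofReal (2 / Real.pi * τ ^ 2 / s) + ENNReal.ofReal τ * (gm ι m) A := by
    rw [Pair_meas T T' l hl hl' τ]
    calc _ ≤ ∫⁻ g, (ENNReal.ofReal (2 / Real.pi * τ ^ 2 / s) +
          A.indicator (fun _ => ENNReal.ofReal τ) g) ∂(gm ι m) := by
          apply lintegral_mono_ae
          filter_upwards [Pair_ae (m := m) T hT, Pair_ae (m := m) T' hT'] with g hg hg'
          by_cases hgA : g ∈ A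
          · rw [Set.indicator_of_mem hgA]
            exact (Pair_slab_le (nv T g) hg (nv T' g) τ hτ).trans le_add_self
          · refine le_trans ?_ le_self_add
            apply Pair_two_le _ _ hg hg' τ s hτ hs
            simpa [hA] using hgA
      _ = _ := by
          rw [lintegral_add_left measurable_const]
          simp [lintegral_indicator_const hAm]
  have h2 : (gm ι m).real (hit T l τ ∩ hit T' l τ) ≤
      2 / Real.pi * τ ^ 2 / s + τ * (gm ι m).real A := by
    rw [measureReal_def]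
    refine (ENNReal.toReal_mono ?_ h1).trans ?_
    · finiteness
    · rw [ENNReal.toReal_add (by finiteness) (by finiteness), ENNReal.toReal_mul,
        ENNReal.toReal_ofReal h0, ENNReal.toReal_ofReal hτ, measureReal_def]
  refine h2.trans ?_
  gcongr

theorem pair_le_typ (T T' : Finset ι) (hT : T.card = m) (hT' : T'.card = m) (l : ι) (hl : l ∉ T)
    (hl' : l ∉ T') (τ s K η δ : ℝ) (hτ : 0 ≤ τ) (hs : 0 < s) (hK : 0 < K)
    (hη : s * K + ((m : ℝ) + 1) / K ^ 2 ≤ η) (hδ : 0 < δ) (hδ1 : δ < 1) :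
    (gm ι m).real (hit T l τ ∩ hit T' l τ) ≤
      2 / Real.pi * τ ^ 2 * (1 / √(1 - δ) + 1 / (s * δ * ((T' \ T).card + 1))) +
        τ * η ^ (T' \ T).card := by
  have hπ := Real.pi_pos
  set A : Set (ι → EE m) := {g | 1 - ⟪nv T g, nv T' g⟫ ^ 2 < s ^ 2} with hA
  set B : Set (ι → EE m) := {g | δ < ⟪nv T g, nv T' g⟫ ^ 2} with hB
  have hAm : MeasurableSet A := (Pair_measurableSet T T' (s ^ 2)).1
  have hBm : MeasurableSet B := (Pair_measurableSet T T' δ).2
  have hfar := far_le T T' hT hT' s K η hs.le hK hη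
  have hcorr := corr_le T T' hT hT' δ hδ
  have hd : 0 < √(1 - δ) := Real.sqrt_pos.mpr (by linarith)
  have h0 : 0 ≤ 2 / Real.pi * τ ^ 2 / s := by positivity
  have h0' : 0 ≤ 2 / Real.pi * τ ^ 2 / √(1 - δ) := by positivity
  have hη0 : 0 ≤ η := le_trans (by positivity) hη
  have h1 : (gm ι m) (hit T l τ ∩ hit T' l τ) ≤
      ENNReal.ofReal (2 / Real.pi * τ ^ 2 / √(1 - δ)) +
      (ENNReal.ofReal (2 / Real.pi * τ ^ 2 / s) * (gm ι m) B +
        ENNReal.ofReal τ * (gm ι m) A) := by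
    rw [Pair_meas T T' l hl hl' τ]
    calc _ ≤ ∫⁻ g, (ENNReal.ofReal (2 / Real.pi * τ ^ 2 / √(1 - δ)) +
          (B.indicator (fun _ => ENNReal.ofReal (2 / Real.pi * τ ^ 2 / s)) g +
          A.indicator (fun _ => ENNReal.ofReal τ) g)) ∂(gm ι m) := by
          apply lintegral_mono_ae
          filter_upwards [Pair_ae (m := m) T hT, Pair_ae (m := m) T' hT'] with g hg hg'
          by_cases hgA : g ∈ A
          · rw [Set.indicator_of_mem hgA]
            exact (Pair_slab_le (nv T g) hg (nv T' g) τ hτ).trans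
              (le_add_self.trans le_add_self)
          · by_cases hgB : g ∈ B
            · rw [Set.indicator_of_mem hgB]
              refine le_trans ?_ (le_self_add.trans le_add_self)
              apply Pair_two_le _ _ hg hg' τ s hτ hs
              simpa [hA] using hgA
            · refine le_trans ?_ le_self_add
              apply Pair_two_le _ _ hg hg' τ _ hτ hd
              rw [Real.sq_sqrt (by linarith)]
              have : ¬ (δ < ⟪nv T g, nv T' g⟫ ^ 2) := hgB
              linarith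
      _ = _ := by
          rw [lintegral_add_left measurable_const]
          rw [lintegral_add_left (measurable_const.indicator hBm)]
          simp [lintegral_indicator_const hAm, lintegral_indicator_const hBm]
  have h2 : (gm ι m).real (hit T l τ ∩ hit T' l τ) ≤
      2 / Real.pi * τ ^ 2 / √(1 - δ) +
        (2 / Real.pi * τ ^ 2 / s * (gm ι m).real B + τ * (gm ι m).real A) := by
    rw [measureReal_def]
    refine (ENNReal.toReal_mono ?_ h1).trans ?_
    · finiteness
    · rw [ENNReal.toReal_add (by finiteness) (by finiteness),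
        ENNReal.toReal_add (by finiteness) (by finiteness), ENNReal.toReal_mul, ENNReal.toReal_mul,
        ENNReal.toReal_ofReal h0, ENNReal.toReal_ofReal hτ, ENNReal.toReal_ofReal h0',
        measureReal_def, measureReal_def]
  refine h2.trans ?_
  calc 2 / Real.pi * τ ^ 2 / √(1 - δ) +
        (2 / Real.pi * τ ^ 2 / s * (gm ι m).real B + τ * (gm ι m).real A)
      ≤ 2 / Real.pi * τ ^ 2 / √(1 - δ) +
        (2 / Real.pi * τ ^ 2 / s * (1 / (δ * ((T' \ T).card + 1))) +
          τ * η ^ (T' \ T).card) := by gcongr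
    _ = _ := by
        have : ((T' \ T).card : ℝ) + 1 ≠ 0 := by positivity
        field_simp
        ring

end Pool.Agent.H90.EO
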