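import Pool.Agent.H90.EO.Base

/-!
# Sharp slab estimates

The density of `gaussianReal 0 1` is at most `1/√(2π)` (`gaussianPDFReal_def`), and at least
`(1/√(2π)) (1 - t²/2)` on `[-t, t]` (`exp (-x²/2) ≥ 1 - x²/2`). `2 t / √(2π) = √(2/π) t`.

* `two_slabs_sharp`: as in `PR.Gauss.two_slabs_le`, with the sharp constant: write
  `x' = ρ x + s y`, `s = √(1 - ρ²)`, `y ⟂ x` a unit vector; the pair `(⟪x,a⟫, ⟪y,a⟫)` has law
  `gaussianReal 0 1 ⊗ gaussianReal 0 1`; for fixed `⟪x,a⟫ = u` the second condition says that `⟪y,a⟫` lies in an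
  interval of length `2t/s`, which has measure at most `2t/(s √(2π))`; and
  `gaussianReal 0 1 [-t,t] ≤ 2t/√(2π)`; the product is `4t²/(2π s) = (2/π) t²/s`.
* `orth_slabs`: `indepFun_inner`.
-/

open MeasureTheory ProbabilityTheory Filter Topology
open scoped ENNReal NNReal RealInnerProductSpace

namespace Pool.Agent.H90.EO

open Pool.Agent.H90.PR

variable {E : Type*} [NormedAddCommGroup E] [InnerProductSpace ℝ E] [FiniteDimensional ℝ E]
  [MeasurableSpace E] [BorelSpace E]

private lemma Slab_c0 : (√(2 * Real.pi))⁻¹ * 2 = √(2 / Real.pi) := by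
  have hpi := Real.pi_pos
  have h1 : √(2 / Real.pi) = 2 / √(2 * Real.pi) := by
    rw [Real.sqrt_eq_iff_mul_self_eq_of_pos (by positivity)]
    have h2 : √(2 * Real.pi) * √(2 * Real.pi) = 2 * Real.pi := Real.mul_self_sqrt (by positivity)
    rw [div_mul_div_comm, h2]
    field_simp
  rw [h1]
  ring

private lemma Slab_Icc_le (c l : ℝ) :
    gaussianReal 0 1 (Set.Icc c (c + l)) ≤ ENNReal.ofReal ((√(2 * Real.pi))⁻¹ * l) := by
  rw [gaussianReal_apply 0 one_ne_zero]
  calc ∫⁻ x in Set.Icc c (c + l), gaussianPDF 0 1 x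
      ≤ ∫⁻ _x in Set.Icc c (c + l), ENNReal.ofReal ((√(2 * Real.pi))⁻¹) := by
        apply lintegral_mono
        intro x
        simp only [gaussianPDF_def]
        apply ENNReal.ofReal_le_ofReal
        rw [gaussianPDFReal_def]
        simp only [NNReal.coe_one, mul_one, sub_zero]
        have h1 : Real.exp (-x ^ 2 / 2) ≤ 1 := by
          rw [Real.exp_le_one_iff]; nlinarith [sq_nonneg x]
        have h3 : 0 ≤ (√(2 * Real.pi))⁻¹ := by positivity
        calc (√(2 * Real.pi))⁻¹ * Real.exp (-x ^ 2 / 2) ≤ (√(2 * Real.pi))⁻¹ * 1 := by gcongr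
          _ = (√(2 * Real.pi))⁻¹ := mul_one _
    _ = ENNReal.ofReal ((√(2 * Real.pi))⁻¹) * volume (Set.Icc c (c + l)) := by
        rw [setLIntegral_const]
    _ = ENNReal.ofReal ((√(2 * Real.pi))⁻¹ * l) := by
        rw [Real.volume_Icc, ← ENNReal.ofReal_mul (by positivity)]
        congr 1; ring

theorem Phi_nonneg (t : ℝ) : 0 ≤ Phi t := measureReal_nonneg

theorem Phi_le (t : ℝ) (ht : 0 ≤ t) : Phi t ≤ √(2 / Real.pi) * t := by
  have h1 := Slab_Icc_le (-t) (2 * t)
  have h2 : -t + 2 * t = t := by ring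
  rw [h2] at h1
  have h3 : (√(2 * Real.pi))⁻¹ * (2 * t) = √(2 / Real.pi) * t := by
    rw [← mul_assoc, Slab_c0]
  rw [h3] at h1
  unfold Phi Measure.real
  exact ENNReal.toReal_le_of_le_ofReal (by positivity) h1

theorem le_Phi (t : ℝ) (ht : 0 ≤ t) : √(2 / Real.pi) * t * (1 - t ^ 2 / 2) ≤ Phi t := by
  rcases le_or_gt (1 - t ^ 2 / 2) 0 with h0 | h0
  · refine le_trans ?_ (Phi_nonneg t)
    exact mul_nonpos_of_nonneg_of_nonpos (by positivity) h0
  · have h1 : ENNReal.ofReal (√(2 / Real.pi) * t * (1 - t ^ 2 / 2)) ≤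
        gaussianReal 0 1 (Set.Icc (-t) t) := by
      rw [gaussianReal_apply 0 one_ne_zero]
      calc ENNReal.ofReal (√(2 / Real.pi) * t * (1 - t ^ 2 / 2))
          = ENNReal.ofReal ((√(2 * Real.pi))⁻¹ * (1 - t ^ 2 / 2)) * volume (Set.Icc (-t) t) := by
            rw [Real.volume_Icc, ← ENNReal.ofReal_mul (by positivity), ← Slab_c0]
            congr 1
            ring
        _ = ∫⁻ _x in Set.Icc (-t) t, ENNReal.ofReal ((√(2 * Real.pi))⁻¹ * (1 - t ^ 2 / 2)) := by
            rw [setLIntegral_const]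
        _ ≤ ∫⁻ x in Set.Icc (-t) t, gaussianPDF 0 1 x := by
            apply setLIntegral_mono (by fun_prop)
            intro x hx
            simp only [gaussianPDF_def]
            apply ENNReal.ofReal_le_ofReal
            rw [gaussianPDFReal_def]
            simp only [NNReal.coe_one, mul_one, sub_zero]
            have hx2 : x ^ 2 ≤ t ^ 2 := by
              have := hx.1; have := hx.2
              nlinarith
            have h1 : 1 - t ^ 2 / 2 ≤ Real.exp (-x ^ 2 / 2) := by
              have := Real.add_one_le_exp (-x ^ 2 / 2)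
              linarith
            have h3 : 0 ≤ (√(2 * Real.pi))⁻¹ := by positivity
            gcongr
    unfold Phi Measure.real
    exact (ENNReal.ofReal_le_iff_le_toReal (measure_ne_top _ _)).mp h1

private lemma Slab_set (x : E) (t : ℝ) :
    {a : E | |⟪x, a⟫| ≤ t} = (fun a => ⟪x, a⟫) ⁻¹' (Set.Icc (-t) t) := by
  ext a
  simp only [Set.mem_ofPred_eq, Set.mem_preimage, Set.mem_Icc, abs_le]

theorem slab_eq (x : E) (hx : ‖x‖ = 1) (t : ℝ) :
    (stdGaussian E).real {a | |⟪x, a⟫| ≤ t} = Phi t := by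
  unfold Phi Measure.real
  rw [Slab_set, ← Measure.map_apply (by fun_prop) measurableSet_Icc, map_inner_stdGaussian x hx]

theorem two_slabs_sharp (x x' : E) (hx : ‖x‖ = 1) (hx' : ‖x'‖ = 1) (hρ : ⟪x, x'⟫ ^ 2 < (1 : ℝ))
    (t : ℝ) (ht : 0 ≤ t) :
    (stdGaussian E).real {a | |⟪x, a⟫| ≤ t ∧ |⟪x', a⟫| ≤ t} ≤
      2 / Real.pi * t ^ 2 / √(1 - ⟪x, x'⟫ ^ 2) := by
  set ρ : ℝ := ⟪x, x'⟫ with hρdef
  set s : ℝ := √(1 - ρ ^ 2) with hs
  have hs2 : s ^ 2 = 1 - ρ ^ 2 := Real.sq_sqrt (by linarith)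
  have hs0 : 0 < s := by rw [hs]; exact Real.sqrt_pos.mpr (by linarith)
  set y : E := (1 / s) • (x' - ρ • x) with hy
  have hxx : ⟪x, x⟫ = (1:ℝ) := by rw [real_inner_self_eq_norm_sq, hx]; norm_num
  have hx'x' : ⟪x', x'⟫ = (1:ℝ) := by rw [real_inner_self_eq_norm_sq, hx']; norm_num
  have hxy : ⟪x, y⟫ = (0:ℝ) := by
    rw [hy, inner_smul_right, inner_sub_right, inner_smul_right, hxx, ← hρdef]
    ring
  have hyn : ‖y‖ = 1 := by
    have h1 : ‖y‖ ^ 2 = 1 := by
      rw [← real_inner_self_eq_norm_sq, hy, inner_smul_left, inner_smul_right, inner_sub_left,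
        inner_sub_right, inner_sub_right, inner_smul_left, inner_smul_left, inner_smul_right,
        inner_smul_right, hxx, hx'x', real_inner_comm x' x, real_inner_comm x x', ← hρdef]
      simp only [conj_trivial]
      have hsne : s ≠ 0 := hs0.ne'
      field_simp
      linarith
    nlinarith [norm_nonneg y]
  have hx'eq : x' = ρ • x + s • y := by
    rw [hy, smul_smul]
    field_simp
    simp
  have hind := indepFun_inner x y hxy
  have hmap : (stdGaussian E).map (fun a => ((⟪x, a⟫ : ℝ), (⟪y, a⟫ : ℝ))) =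
      (gaussianReal 0 1).prod (gaussianReal 0 1) := by
    rw [(indepFun_iff_map_prod_eq_prod_map_map (by fun_prop) (by fun_prop)).mp hind,
      map_inner_stdGaussian x hx, map_inner_stdGaussian y hyn]
  set S : Set (ℝ × ℝ) := {p | |p.1| ≤ t ∧ |ρ * p.1 + s * p.2| ≤ t} with hS
  have hSm : MeasurableSet S := by
    have : S = {p : ℝ × ℝ | |p.1| ≤ t} ∩ {p : ℝ × ℝ | |ρ * p.1 + s * p.2| ≤ t} := rfl
    rw [this]
    exact (measurableSet_le (by fun_prop) (by fun_prop)).inter
      (measurableSet_le (by fun_prop) (by fun_prop))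
  have hset : {a : E | |⟪x, a⟫| ≤ t ∧ |⟪x', a⟫| ≤ t} =
      (fun a : E => ((⟪x, a⟫ : ℝ), (⟪y, a⟫ : ℝ))) ⁻¹' S := by
    ext a
    simp only [hS, Set.mem_ofPred_eq, Set.mem_preimage]
    have : ⟪x', a⟫ = ρ * ⟪x, a⟫ + s * ⟪y, a⟫ := by
      conv_lhs => rw [hx'eq]
      rw [inner_add_left, inner_smul_left, inner_smul_left]
      simp
    rw [this]
  set k : ℝ := (√(2 * Real.pi))⁻¹ with hk
  have hk0 : 0 ≤ k := by positivity
  have hk2 : k * k = 1 / (2 * Real.pi) := by
    rw [hk, ← mul_inv, Real.mul_self_sqrt (by positivity), one_div]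
  have hmain : stdGaussian E {a | |⟪x, a⟫| ≤ t ∧ |⟪x', a⟫| ≤ t} ≤
      ENNReal.ofReal (2 / Real.pi * t ^ 2 / s) := by
    rw [hset, ← Measure.map_apply (by fun_prop) hSm, hmap, Measure.prod_apply hSm]
    calc ∫⁻ u, gaussianReal 0 1 (Prod.mk u ⁻¹' S) ∂gaussianReal 0 1
        ≤ ∫⁻ u, (Set.Icc (-t) (-t + 2 * t)).indicator (fun _ => ENNReal.ofReal (k * (2 * t / s))) u
            ∂gaussianReal 0 1 := by
          apply lintegral_mono
          intro u
          by_cases hu : u ∈ Set.Icc (-t) (-t + 2 * t)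
          · rw [Set.indicator_of_mem hu]
            have h1 : Prod.mk u ⁻¹' S ⊆
                Set.Icc ((-t - ρ * u) / s) ((-t - ρ * u) / s + 2 * t / s) := by
              intro v hv
              simp only [hS, Set.mem_preimage, Set.mem_ofPred_eq, abs_le] at hv
              rw [Set.mem_Icc, div_le_iff₀ hs0, ← add_div, le_div_iff₀ hs0]
              constructor <;> nlinarith [hv.2.1, hv.2.2]
            exact (measure_mono h1).trans (Slab_Icc_le _ _)
          · rw [Set.indicator_of_notMem hu]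
            have h1 : Prod.mk u ⁻¹' S = ∅ := by
              ext v
              simp only [hS, Set.mem_preimage, Set.mem_ofPred_eq, Set.mem_empty_iff_false,
                iff_false, not_and]
              intro hv
              exfalso
              apply hu
              rw [abs_le] at hv
              rw [Set.mem_Icc]
              constructor <;> linarith [hv.1, hv.2]
            change gaussianReal 0 1 (Prod.mk u ⁻¹' S) ≤ 0
            rw [h1]; simp
      _ = ENNReal.ofReal (k * (2 * t / s)) * gaussianReal 0 1 (Set.Icc (-t) (-t + 2 * t)) := by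
          rw [lintegral_indicator_const measurableSet_Icc]
      _ ≤ ENNReal.ofReal (k * (2 * t / s)) * ENNReal.ofReal (k * (2 * t)) := by
          gcongr
          exact Slab_Icc_le _ _
      _ = ENNReal.ofReal (2 / Real.pi * t ^ 2 / s) := by
          rw [← ENNReal.ofReal_mul (by positivity)]
          congr 1
          calc k * (2 * t / s) * (k * (2 * t)) = (k * k) * (4 * t ^ 2 / s) := by ring
            _ = 2 / Real.pi * t ^ 2 / s := by
              rw [hk2]
              have := Real.pi_pos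
              field_simp
              ring
  exact ENNReal.toReal_le_of_le_ofReal (by positivity) hmain

theorem orth_slabs (x y : E) (hx : ‖x‖ = 1) (hy : ‖y‖ = 1) (hxy : ⟪x, y⟫ = (0 : ℝ)) (s t : ℝ) :
    (stdGaussian E).real {a | |⟪x, a⟫| ≤ s ∧ |⟪y, a⟫| ≤ t} = Phi s * Phi t := by
  have hind := indepFun_inner x y hxy
  have h1 := hind.measure_inter_preimage_eq_mul (Set.Icc (-s) s) (Set.Icc (-t) t)
    measurableSet_Icc measurableSet_Icc
  rw [← Slab_set, ← Slab_set] at h1
  rw [← slab_eq x hx s, ← slab_eq y hy t]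
  unfold Measure.real
  rw [← ENNReal.toReal_mul, ← h1]
  rfl

end Pool.Agent.H90.EO
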