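import Pool.Agent.H90.EO.CoefTail
import Pool.Agent.H90.EO.Slab
import Pool.Agent.H90.EO.Pair

/-!
# Small coefficients are rare, even when the vector `l` is close to the span of `T`

* `cbad_le`: for `i ∈ T`, `l ∉ T` the probability of `hit T l τ ∩ cbad T i l x` is at most
  `Phi τ (x L + 2 / L²)`. Proof: by `measure_eval` for the index `l` the probability is the mean over
  `g` of the Gaussian measure of `{a | |⟪nv T g, a⟫| ≤ τ ∧ |⟪nu T i g, a⟫| ≤ x |⟪nu T i g, g i⟫|}`, where
  `nv T g`, `nu T i g` are orthonormal almost surely (`ae_linearIndepOn`, `norm_nv`, `norm_nu`,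
  `nu_inner_nv`), so it equals `Phi τ * Phi (x |⟪nu T i g, g i⟫|)` (`orth_slabs`), and
  `Phi (x q) ≤ x L` if `q ≤ L` (`Phi_le`, `√(2/π) ≤ 1`) and `≤ 1` otherwise; conclude by `nu_tail`.
* `few_le`: Markov's inequality for the number of `i ∈ T` with `g ∈ cbad T i l x`, on the event
  `hit T l τ`: `(m/2) P(hit ∩ few) ≤ ∑_{i ∈ T} P(hit ∩ cbad i) ≤ m Phi τ (x L + 2/L²)`.
-/

open MeasureTheory ProbabilityTheory Filter Topology
open scoped ENNReal NNReal RealInnerProductSpace

namespace Pool.Agent.H90.EO

open Pool.Agent.H90.PR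

variable {ι : Type*} [Fintype ι] [DecidableEq ι] {m : ℕ}

omit [Fintype ι] in
open Classical in
private theorem Coef_card (T : Finset ι) (l : ι) (x : ℝ) (g : ι → EE m) :
    ((T.filter (fun i => g ∈ cbad T i l x)).card : ℝ) =
      ∑ i ∈ T, (cbad (m := m) T i l x).indicator (1 : (ι → EE m) → ℝ) g := by
  rw [Finset.card_filter, Nat.cast_sum]
  refine Finset.sum_congr rfl fun i _ => ?_
  by_cases hi : g ∈ cbad T i l x
  · rw [if_pos hi, Set.indicator_of_mem hi]
    simp
  · rw [if_neg hi, Set.indicator_of_notMem hi]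
    simp

theorem measurableSet_cbad (T : Finset ι) (i l : ι) (x : ℝ) :
    MeasurableSet (cbad (m := m) T i l x) := by
  have h1 : Measurable fun g : ι → EE m => ⟪nu T i g, g l⟫ :=
    (measurable_nu T i).inner (measurable_pi_apply l)
  have h2 : Measurable fun g : ι → EE m => ⟪nu T i g, g i⟫ :=
    (measurable_nu T i).inner (measurable_pi_apply i)
  exact measurableSet_le (continuous_abs.measurable.comp h1)
    ((continuous_abs.measurable.comp h2).const_mul x)

theorem measurableSet_few (T : Finset ι) (l : ι) (x : ℝ) :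
    MeasurableSet (few (m := m) T l x) := by
  classical
  have h1 : few (m := m) T l x = {g | (T.card : ℝ) ≤ 2 * ∑ i ∈ T,
      (cbad (m := m) T i l x).indicator (1 : (ι → EE m) → ℝ) g} := by
    ext g
    simp only [few, Set.mem_ofPred_eq]
    rw [Coef_card]
  rw [h1]
  refine measurableSet_le measurable_const (Measurable.const_mul ?_ 2)
  refine Finset.measurable_sum _ fun i _ => ?_
  exact measurable_one.indicator (measurableSet_cbad T i l x)

theorem cbad_le (T : Finset ι) (hT : T.card = m) (i l : ι) (hi : i ∈ T) (hl : l ∉ T)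
    (τ x L : ℝ) (hτ : 0 ≤ τ) (hx : 0 ≤ x) (hL : 0 < L) :
    (gm ι m).real (hit T l τ ∩ cbad T i l x) ≤ Phi τ * (x * L + 2 / L ^ 2) := by
  set S : Set ((ι → EE m) × EE m) := {p | |⟪nv T p.1, p.2⟫| ≤ τ ∧
    |⟪nu T i p.1, p.2⟫| ≤ x * |⟪nu T i p.1, p.1 i⟫|} with hS
  have mnv : Measurable fun p : (ι → EE m) × EE m => ⟪nv T p.1, p.2⟫ :=
    ((measurable_nv T).comp measurable_fst).inner measurable_snd
  have mnu : Measurable fun p : (ι → EE m) × EE m => ⟪nu T i p.1, p.2⟫ :=
    ((measurable_nu T i).comp measurable_fst).inner measurable_snd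
  have mq : Measurable fun g : ι → EE m => ⟪nu T i g, g i⟫ :=
    (measurable_nu T i).inner (measurable_pi_apply i)
  have hSm : MeasurableSet S := by
    have h1 : S = {p : (ι → EE m) × EE m | |⟪nv T p.1, p.2⟫| ≤ τ} ∩
        {p : (ι → EE m) × EE m | |⟪nu T i p.1, p.2⟫| ≤ x * |⟪nu T i p.1, p.1 i⟫|} := rfl
    rw [h1]
    refine (measurableSet_le (continuous_abs.measurable.comp mnv) measurable_const).inter
      (measurableSet_le (continuous_abs.measurable.comp mnu) ?_)
    exact ((continuous_abs.measurable.comp (mq.comp measurable_fst))).const_mul x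
  have hil : i ≠ l := fun h => hl (h ▸ hi)
  have hev := measure_eval (stdGaussian (EE m)) l S hSm (by
    intro g g' hgg a
    have e1 : ∀ k ∈ T, g k = g' k := fun k hk => hgg k fun h => hl (h ▸ hk)
    simp only [hS, Set.mem_ofPred_eq]
    rw [nv_congr T g g' e1, nu_congr T i g g' e1, hgg i hil])
  have hset : hit T l τ ∩ cbad T i l x = {g : ι → EE m | (g, g l) ∈ S} := rfl
  set A : Set (ι → EE m) := {g | L < |⟪nu T i g, g i⟫|} with hA
  have hAm : MeasurableSet A := measurableSet_lt measurable_const (continuous_abs.measurable.comp mq)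
  have htail : gm ι m A ≤ ENNReal.ofReal (2 / L ^ 2) := by
    rw [← ofReal_measureReal (μ := gm ι m) (s := A)]
    exact ENNReal.ofReal_le_ofReal (nu_tail T hT i hi L hL)
  have hxL : 0 ≤ x * L := mul_nonneg hx hL.le
  have hbound : gm ι m (hit T l τ ∩ cbad T i l x) ≤
      ENNReal.ofReal (Phi τ) * (ENNReal.ofReal (x * L) + ENNReal.ofReal (2 / L ^ 2)) := by
    rw [hset]
    refine hev.le.trans ?_
    calc ∫⁻ g, stdGaussian (EE m) {a | (g, a) ∈ S} ∂(gm ι m)
        ≤ ∫⁻ g, ENNReal.ofReal (Phi τ) * (ENNReal.ofReal (x * L) + A.indicator 1 g) ∂(gm ι m) := by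
          apply lintegral_mono_ae
          have hae := ae_linearIndepOn (E := EE m) T (ι := ι) (by
            rw [hT]
            simp)
          filter_upwards [hae] with g hg
          have h1 := orth_slabs (nv T g) (nu T i g) (norm_nv T hT g hg) (norm_nu T hT i hi g hg)
            (nu_inner_nv T hT i hi g) τ (x * |⟪nu T i g, g i⟫|)
          have h2 : stdGaussian (EE m) {a | (g, a) ∈ S} =
              ENNReal.ofReal (Phi τ * Phi (x * |⟪nu T i g, g i⟫|)) := by
            rw [← h1, ofReal_measureReal]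
            rfl
          rw [h2, ENNReal.ofReal_mul (Phi_nonneg τ)]
          refine mul_le_mul_right ?_ _
          by_cases hgA : g ∈ A
          · rw [Set.indicator_of_mem hgA, Pi.one_apply]
            refine le_add_left ?_
            rw [← ENNReal.ofReal_one]
            apply ENNReal.ofReal_le_ofReal
            exact measureReal_le_one
          · rw [Set.indicator_of_notMem hgA, add_zero]
            apply ENNReal.ofReal_le_ofReal
            have hq : |⟪nu T i g, g i⟫| ≤ L := not_lt.mp hgA
            have hxq : 0 ≤ x * |⟪nu T i g, g i⟫| := mul_nonneg hx (abs_nonneg _)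
            have h3 := Phi_le _ hxq
            have h4 : √(2 / Real.pi) ≤ 1 := by
              rw [Real.sqrt_le_one, div_le_one Real.pi_pos]
              exact Real.two_le_pi
            calc Phi (x * |⟪nu T i g, g i⟫|) ≤ √(2 / Real.pi) * (x * |⟪nu T i g, g i⟫|) := h3
              _ ≤ 1 * (x * |⟪nu T i g, g i⟫|) := mul_le_mul_of_nonneg_right h4 hxq
              _ = x * |⟪nu T i g, g i⟫| := one_mul _
              _ ≤ x * L := mul_le_mul_of_nonneg_left hq hx
      _ = ENNReal.ofReal (Phi τ) * (ENNReal.ofReal (x * L) + gm ι m A) := by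
          have hmi : Measurable fun g => ENNReal.ofReal (x * L) +
              A.indicator (1 : (ι → EE m) → ℝ≥0∞) g := by
            have hm1 : Measurable (A.indicator (1 : (ι → EE m) → ℝ≥0∞)) :=
              measurable_one.indicator hAm
            exact hm1.const_add _
          rw [lintegral_const_mul _ hmi, lintegral_add_left measurable_const, lintegral_const,
            measure_univ, mul_one, lintegral_indicator_one hAm]
      _ ≤ ENNReal.ofReal (Phi τ) * (ENNReal.ofReal (x * L) + ENNReal.ofReal (2 / L ^ 2)) := by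
          gcongr
  have h5 : ENNReal.ofReal (Phi τ) * (ENNReal.ofReal (x * L) + ENNReal.ofReal (2 / L ^ 2)) =
      ENNReal.ofReal (Phi τ * (x * L + 2 / L ^ 2)) := by
    rw [ENNReal.ofReal_mul (Phi_nonneg τ), ENNReal.ofReal_add hxL (by positivity)]
  rw [h5] at hbound
  exact ENNReal.toReal_le_of_le_ofReal
    (mul_nonneg (Phi_nonneg τ) (add_nonneg hxL (by positivity))) hbound

theorem few_le (hm : 0 < m) (T : Finset ι) (hT : T.card = m) (l : ι) (hl : l ∉ T)
    (τ x L : ℝ) (hτ : 0 ≤ τ) (hx : 0 ≤ x) (hL : 0 < L) :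
    (gm ι m).real (hit T l τ ∩ few T l x) ≤ 2 * (Phi τ * (x * L + 2 / L ^ 2)) := by
  classical
  have hm' : (0 : ℝ) < m := by exact_mod_cast hm
  set Fw : Set (ι → EE m) := hit T l τ ∩ few T l x with hFw
  set Cb : ι → Set (ι → EE m) := fun i => hit T l τ ∩ cbad T i l x with hCb
  have hFm : MeasurableSet Fw := (measurableSet_hit T l τ).inter (measurableSet_few T l x)
  have hCm : ∀ i, MeasurableSet (Cb i) := fun i =>
    (measurableSet_hit T l τ).inter (measurableSet_cbad T i l x)
  have hint : ∀ s : Set (ι → EE m), MeasurableSet s →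
      Integrable (s.indicator (1 : (ι → EE m) → ℝ)) (gm ι m) := by
    intro s hs
    exact (integrable_const (1 : ℝ)).indicator hs
  have hpt : ∀ g : ι → EE m, (m : ℝ) * Fw.indicator (1 : (ι → EE m) → ℝ) g ≤
      2 * ∑ i ∈ T, (Cb i).indicator (1 : (ι → EE m) → ℝ) g := by
    intro g
    by_cases hg : g ∈ Fw
    · rw [Set.indicator_of_mem hg, Pi.one_apply, mul_one]
      have h1 : ((T.card : ℕ) : ℝ) ≤ 2 * ((T.filter (fun i => g ∈ cbad T i l x)).card : ℝ) := by
        have h2 := hg.2
        simp only [few, Set.mem_ofPred_eq] at h2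
        rw [Coef_card] at h2 ⊢
        exact h2
      rw [hT, Coef_card] at h1
      refine h1.trans (le_of_eq ?_)
      congr 1
      refine Finset.sum_congr rfl fun i _ => ?_
      by_cases hi : g ∈ cbad T i l x
      · rw [Set.indicator_of_mem hi, Set.indicator_of_mem (show g ∈ Cb i from ⟨hg.1, hi⟩)]
      · rw [Set.indicator_of_notMem hi, Set.indicator_of_notMem (fun h => hi h.2)]
    · rw [Set.indicator_of_notMem hg, mul_zero]
      refine mul_nonneg (by norm_num) (Finset.sum_nonneg fun i _ => ?_)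
      exact Set.indicator_nonneg (fun _ _ => zero_le_one) g
  have h1 : (m : ℝ) * (gm ι m).real Fw ≤ 2 * ∑ i ∈ T, (gm ι m).real (Cb i) := by
    have h2 := integral_mono ((hint Fw hFm).const_mul (m : ℝ))
      ((integrable_finsetSum T fun i _ => hint (Cb i) (hCm i)).const_mul 2) hpt
    rw [integral_const_mul, integral_const_mul, integral_indicator_one hFm,
      integral_finsetSum _ fun i _ => hint (Cb i) (hCm i)] at h2
    simp only [integral_indicator_one (hCm _)] at h2
    exact h2
  have h3 : ∑ i ∈ T, (gm ι m).real (Cb i) ≤ (m : ℝ) * (Phi τ * (x * L + 2 / L ^ 2)) := by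
    calc ∑ i ∈ T, (gm ι m).real (Cb i) ≤ ∑ _i ∈ T, Phi τ * (x * L + 2 / L ^ 2) :=
          Finset.sum_le_sum fun i hi => cbad_le T hT i l hi hl τ x L hτ hx hL
      _ = (m : ℝ) * (Phi τ * (x * L + 2 / L ^ 2)) := by
          rw [Finset.sum_const, hT, nsmul_eq_mul]
  have h4 : (m : ℝ) * (gm ι m).real Fw ≤ (m : ℝ) * (2 * (Phi τ * (x * L + 2 / L ^ 2))) := by
    linarith
  exact le_of_mul_le_mul_left h4 hm'

end Pool.Agent.H90.EO
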