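import Pool.Agent.H90.EO.NvU
import Pool.Agent.H90.EO.Resample

/-!
# The distance of a vector to a subspace of codimension two

`nu_tail`: for `i ∈ T` the probability of `L < |⟪nu T i g, g i⟫|` is at most `2 / L²`.

Proof. Apply `lintegral_resample` (or `measure_eval`) to replace `g i` by an independent copy `a`: for a
fixed family `u` (independent on `T.erase i`, almost surely) let `V` be the orthogonal complement of the
span of the `u k`, `k ∈ T.erase i`; it has dimension `m + 1 - (m - 1) = 2`. The vector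
`ν = nu T i (update u i a)` is orthogonal to the `u k` (`nu_inner`), so it lies in `V`, and `‖ν‖ ≤ 1`; with an
orthonormal basis `b₁, b₂` of `V` (`stdOrthonormalBasis ℝ V`) Cauchy-Schwarz gives
`⟪ν, a⟫² ≤ ⟪b₁, a⟫² + ⟪b₂, a⟫²`. The mean of the right side is `2` (`map_inner_stdGaussian` and the second
moment of `gaussianReal 0 1`, see `PR.Gauss.lintegral_norm_sq`), so Markov's inequality gives `2/L²`.
-/

open MeasureTheory ProbabilityTheory Filter Topology
open scoped ENNReal NNReal RealInnerProductSpace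

namespace Pool.Agent.H90.EO

open Pool.Agent.H90.PR

variable {ι : Type*} [Fintype ι] [DecidableEq ι] {m : ℕ}

private theorem CoefTail_sq (x : EE m) (hx : ‖x‖ = 1) :
    ∫⁻ a, ENNReal.ofReal (⟪x, a⟫ ^ 2) ∂(stdGaussian (EE m)) = 1 := by
  have h3 := map_inner_stdGaussian x hx
  have h4 : ∫⁻ a, ENNReal.ofReal (⟪x, a⟫ ^ 2) ∂(stdGaussian (EE m)) =
      ∫⁻ x, ENNReal.ofReal (x ^ 2) ∂(gaussianReal 0 1) := by
    rw [← h3, lintegral_map (by fun_prop) (by fun_prop)]
  rw [h4, ← ofReal_integral_eq_lintegral_ofReal]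
  · have h5 : ∫ x, x ^ 2 ∂(gaussianReal 0 1) = 1 := by
      have h6 := variance_id_gaussianReal (μ := 0) (v := 1)
      rw [variance_eq_integral (by fun_prop)] at h6
      simpa using h6
    rw [h5]; simp
  · exact (memLp_id_gaussianReal' 2 (by norm_num)).integrable_sq
  · filter_upwards with x
    positivity

omit [Fintype ι] in
private theorem CoefTail_fix (T : Finset ι) (hT : T.card = m) (i : ι) (hi : i ∈ T) (L : ℝ)
    (hL : 0 < L) (g : ι → EE m) (hg : LinearIndepOn ℝ g ((T.erase i : Finset ι) : Set ι)) :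
    stdGaussian (EE m) {a | L < |⟪nu T i (Function.update g i a), a⟫|} ≤
      ENNReal.ofReal (2 / L ^ 2) := by
  set U : Submodule ℝ (EE m) :=
    Submodule.span ℝ (Set.range fun x : ((T.erase i : Finset ι) : Set ι) => g x) with hU
  have hm : 1 ≤ m := by
    rw [← hT]
    exact Finset.card_pos.2 ⟨i, hi⟩
  have hfU : Module.finrank ℝ U = m - 1 := by
    rw [hU, finrank_span_eq_card hg, ← Nat.card_eq_fintype_card, Nat.card_coe_set_eq,
      Set.ncard_coe_finset, Finset.card_erase_of_mem hi, hT]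
  have hfV : Module.finrank ℝ Uᗮ = 2 := by
    have h := Submodule.finrank_add_finrank_orthogonal U
    rw [hfU, finrank_euclideanSpace_fin] at h
    omega
  set b := stdOrthonormalBasis ℝ Uᗮ with hb
  have key : ∀ a : EE m, ⟪nu T i (Function.update g i a), a⟫ ^ 2 ≤
      ∑ j, ⟪((b j : Uᗮ) : EE m), a⟫ ^ 2 := by
    intro a
    set ν := nu T i (Function.update g i a) with hν
    have hν1 : ‖ν‖ ≤ 1 := norm_nv_le_one _ _
    have hνV : ν ∈ Uᗮ := by
      rw [Submodule.mem_orthogonal]
      intro u hu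
      rw [hU] at hu
      induction hu using Submodule.span_induction with
      | mem x hx =>
        obtain ⟨⟨k, hk⟩, rfl⟩ := hx
        have hk' := Finset.mem_erase.1 (Finset.mem_coe.1 hk)
        have h := nu_inner T hT i (Function.update g i a) k hk'.2 hk'.1
        rw [Function.update_of_ne hk'.1] at h
        rw [real_inner_comm]
        exact h
      | zero => simp
      | add x y _ _ hx hy => rw [inner_add_left, hx, hy, add_zero]
      | smul c x _ hx => rw [inner_smul_left, hx, mul_zero]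
    have e1 : ⟪ν, a⟫ = ∑ j, ⟪((b j : Uᗮ) : EE m), ν⟫ * ⟪((b j : Uᗮ) : EE m), a⟫ := by
      have h := b.sum_repr' ⟨ν, hνV⟩
      have h2 : ∑ j, ⟪((b j : Uᗮ) : EE m), ν⟫ • ((b j : Uᗮ) : EE m) = ν := by
        have h3 := congrArg (Subtype.val) h
        simpa using h3
      conv_lhs => rw [← h2]
      rw [sum_inner]
      refine Finset.sum_congr rfl fun j _ => ?_
      rw [inner_smul_left]
      rfl
    have e2 : ∑ j, ⟪((b j : Uᗮ) : EE m), ν⟫ ^ 2 = ‖ν‖ ^ 2 := b.sum_sq_inner_right ⟨ν, hνV⟩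
    rw [e1]
    calc (∑ j, ⟪((b j : Uᗮ) : EE m), ν⟫ * ⟪((b j : Uᗮ) : EE m), a⟫) ^ 2 ≤
        (∑ j, ⟪((b j : Uᗮ) : EE m), ν⟫ ^ 2) * ∑ j, ⟪((b j : Uᗮ) : EE m), a⟫ ^ 2 :=
          Finset.sum_mul_sq_le_sq_mul_sq _ _ _
      _ ≤ 1 * ∑ j, ⟪((b j : Uᗮ) : EE m), a⟫ ^ 2 := by
          have h4 : ‖ν‖ ^ 2 ≤ 1 := pow_le_one₀ (norm_nonneg ν) hν1
          rw [e2]
          exact mul_le_mul_of_nonneg_right h4 (Finset.sum_nonneg fun j _ => sq_nonneg _)
      _ = _ := one_mul _
  have hsub : {a | L < |⟪nu T i (Function.update g i a), a⟫|} ⊆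
      {a | ENNReal.ofReal (L ^ 2) ≤ ENNReal.ofReal (∑ j, ⟪((b j : Uᗮ) : EE m), a⟫ ^ 2)} := by
    intro a ha
    have ha' : L < |⟪nu T i (Function.update g i a), a⟫| := ha
    apply ENNReal.ofReal_le_ofReal
    refine le_trans ?_ (key a)
    rw [← sq_abs (⟪nu T i (Function.update g i a), a⟫ : ℝ)]
    exact pow_le_pow_left₀ hL.le ha'.le 2
  refine (measure_mono hsub).trans ?_
  refine (meas_ge_le_lintegral_div (by fun_prop) (by simp; positivity)
    ENNReal.ofReal_ne_top).trans ?_
  have e3 : ∫⁻ a, ENNReal.ofReal (∑ j, ⟪((b j : Uᗮ) : EE m), a⟫ ^ 2) ∂(stdGaussian (EE m)) =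
      2 := by
    calc ∫⁻ a, ENNReal.ofReal (∑ j, ⟪((b j : Uᗮ) : EE m), a⟫ ^ 2) ∂(stdGaussian (EE m))
        = ∫⁻ a, ∑ j, ENNReal.ofReal (⟪((b j : Uᗮ) : EE m), a⟫ ^ 2) ∂(stdGaussian (EE m)) := by
          congr 1
          ext a
          rw [ENNReal.ofReal_sum_of_nonneg (fun i _ => sq_nonneg _)]
      _ = ∑ j, ∫⁻ a, ENNReal.ofReal (⟪((b j : Uᗮ) : EE m), a⟫ ^ 2) ∂(stdGaussian (EE m)) := by
          rw [lintegral_finsetSum]
          intro i _
          fun_prop
      _ = 2 := by
          have h5 : ∀ j, ∫⁻ a, ENNReal.ofReal (⟪((b j : Uᗮ) : EE m), a⟫ ^ 2)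
              ∂(stdGaussian (EE m)) = 1 := fun j =>
            CoefTail_sq _ (b.orthonormal.1 j)
          simp_rw [h5]
          simp [hfV]
  rw [e3, ENNReal.ofReal_div_of_pos (by positivity)]
  simp

theorem nu_tail (T : Finset ι) (hT : T.card = m) (i : ι) (hi : i ∈ T) (L : ℝ) (hL : 0 < L) :
    (gm ι m).real {g | L < |⟪nu T i g, g i⟫|} ≤ 2 / L ^ 2 := by
  set Sx : Set ((ι → EE m) × EE m) :=
    {p | L < |⟪nu T i (Function.update p.1 i p.2), p.2⟫|} with hSx
  have hSm : MeasurableSet Sx := by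
    have h1 : Measurable fun p : (ι → EE m) × EE m => nu T i (Function.update p.1 i p.2) :=
      (measurable_nu T i).comp measurable_update'
    have h2 : Measurable fun p : (ι → EE m) × EE m =>
        (⟪nu T i (Function.update p.1 i p.2), p.2⟫ : ℝ) := h1.inner measurable_snd
    exact measurableSet_lt measurable_const (by simpa only [Real.norm_eq_abs] using h2.norm)
  have h1 := measure_eval (stdGaussian (EE m)) i Sx hSm (by
    intro g g' h a
    have he : Function.update g i a = Function.update g' i a := by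
      funext k
      by_cases hk : k = i
      · subst hk
        simp
      · rw [Function.update_of_ne hk, Function.update_of_ne hk, h k hk]
    simp only [hSx, Set.mem_ofPred_eq, he])
  have h2 : {g : ι → EE m | (g, g i) ∈ Sx} = {g | L < |⟪nu T i g, g i⟫|} := by
    ext g
    simp only [hSx, Set.mem_ofPred_eq, Function.update_eq_self]
  rw [h2] at h1
  have h3 : (gm ι m) {g | L < |⟪nu T i g, g i⟫|} ≤ ENNReal.ofReal (2 / L ^ 2) := by
    rw [h1]
    have hae := ae_linearIndepOn (E := EE m) (T.erase i) (by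
      rw [Finset.card_erase_of_mem hi, hT, finrank_euclideanSpace_fin]
      omega)
    calc ∫⁻ g, stdGaussian (EE m) {a | (g, a) ∈ Sx} ∂(Measure.pi fun _ : ι => stdGaussian (EE m))
        ≤ ∫⁻ _g, ENNReal.ofReal (2 / L ^ 2) ∂(Measure.pi fun _ : ι => stdGaussian (EE m)) :=
          lintegral_mono_ae (hae.mono fun g hg => CoefTail_fix T hT i hi L hL g hg)
      _ = _ := by rw [lintegral_const, measure_univ, mul_one]
  exact ENNReal.toReal_le_of_le_ofReal (by positivity) h3

end Pool.Agent.H90.EO
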