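import Pool.Agent.H90.EO.Base

/-!
# Counting pairs of sets by the size of their difference

Let `P` have `2 m` elements and `T ⊆ P`, `T.card = m`.

* `sum_eta_le`: `∑_{T' ≠ T} η^{|T' \ T|} ≤ 2 m² η` over the `m`-subsets `T'` of `P`, if `m² η ≤ 1/2`.
  Proof: `T' = (T \ A) ∪ B` with `A = T \ T' ⊆ T`, `B = T' \ T ⊆ P \ T` of the same size `k`, so the
  number of `T'` with `|T' \ T| = k` is at most `C(m,k)² ≤ m^(2k)` (`Nat.choose_le_pow`; `T'` is
  determined by the pair `(A, B)`, see `PR.Moment.card_close`), and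
  `∑_{k ≥ 1} (m² η)^k ≤ 2 m² η`.
* `card_close_le`: for `10 i₀ ≤ m + 10` the number of `T'` with `|T' \ T| < i₀` is at most `C 3^m`, for an
  absolute constant: `PR.Moment.card_close` with `x = 1/19` gives
  `≤ (1 + 1/19)^(4m) 19^(2 i₀) ≤ (20/19)^(4m) · 19^(m/5 + 2)`, and `(20/19)^20 · 19 < 3^5`, i.e.
  `((20/19)^4)^5 · 19 ≤ 243` so that `(20/19)^(4m) 19^(m/5) ≤ 3^m` (compare fifth powers).
-/

namespace Pool.Agent.H90.EO

open Pool.Agent.H90.PR

variable {ι : Type*} [DecidableEq ι]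

private theorem Count_fiber (P : Finset ι) (m : ℕ) (hP : P.card = 2 * m) (T : Finset ι)
    (hT : T ∈ P.powersetCard m) (k : ℕ) :
    (((P.powersetCard m).erase T).filter (fun T' => (T' \ T).card = k)).card ≤
      m ^ k * m ^ k := by
  rw [Finset.mem_powersetCard] at hT
  have h1 : (((P.powersetCard m).erase T).filter (fun T' => (T' \ T).card = k)).card ≤
      ((T.powersetCard k) ×ˢ ((P \ T).powersetCard k)).card := by
    apply Finset.card_le_card_of_injOn (fun T' => (T \ T', T' \ T))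
    · intro T' hT'
      rw [Finset.mem_coe, Finset.mem_filter, Finset.mem_erase, Finset.mem_powersetCard] at hT'
      simp only [Finset.coe_product, Set.mem_prod, Finset.mem_coe, Finset.mem_powersetCard]
      have h3 : (T \ T').card = (T' \ T).card := by
        have a1 := Finset.card_sdiff_add_card_inter T T'
        have a2 := Finset.card_sdiff_add_card_inter T' T
        rw [Finset.inter_comm] at a2
        omega
      exact ⟨⟨Finset.sdiff_subset, h3.trans hT'.2⟩,
        ⟨Finset.sdiff_subset_sdiff hT'.1.2.1 (Finset.Subset.refl _), hT'.2⟩⟩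
    · intro T' _ T'' _ h
      simp only [Prod.mk.injEq] at h
      have h4 : ∀ S : Finset ι, S = (T \ (T \ S)) ∪ (S \ T) := by
        intro S
        ext i
        simp only [Finset.mem_union, Finset.mem_sdiff]
        tauto
      rw [h4 T', h4 T'', h.1, h.2]
  have h2 : (P \ T).card = m := by
    have := Finset.card_sdiff_add_card_inter P T
    rw [Finset.inter_eq_right.mpr hT.1, hP, hT.2] at this
    omega
  rw [Finset.card_product, Finset.card_powersetCard, Finset.card_powersetCard, hT.2, h2] at h1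
  exact h1.trans (Nat.mul_le_mul (Nat.choose_le_pow m k) (Nat.choose_le_pow m k))

theorem sum_eta_le (P : Finset ι) (m : ℕ) (hP : P.card = 2 * m) (T : Finset ι)
    (hT : T ∈ P.powersetCard m) (η : ℝ) (hη : 0 ≤ η) (hη2 : (m : ℝ) ^ 2 * η ≤ 1 / 2) :
    ∑ T' ∈ (P.powersetCard m).erase T, η ^ (T' \ T).card ≤ 2 * ((m : ℝ) ^ 2 * η) := by
  have hTm := Finset.mem_powersetCard.mp hT
  have hmaps : ∀ T' ∈ (P.powersetCard m).erase T, (T' \ T).card ∈ Finset.Icc 1 m := by
    intro T' hT'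
    rw [Finset.mem_erase, Finset.mem_powersetCard] at hT'
    rw [Finset.mem_Icc]
    constructor
    · rw [Nat.one_le_iff_ne_zero]
      intro h0
      rw [Finset.card_eq_zero, Finset.sdiff_eq_empty_iff_subset] at h0
      exact hT'.1 (Finset.eq_of_subset_of_card_le h0 (by rw [hT'.2.2, hTm.2]))
    · calc (T' \ T).card ≤ T'.card := Finset.card_le_card Finset.sdiff_subset
        _ = m := hT'.2.2
  rw [← Finset.sum_fiberwise_of_maps_to hmaps]
  obtain ⟨q, hq⟩ : ∃ q : ℝ, q = (m : ℝ) ^ 2 * η := ⟨_, rfl⟩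
  have hq0 : 0 ≤ q := by rw [hq]; positivity
  rw [← hq] at hη2 ⊢
  have hfib : ∀ k ∈ Finset.Icc 1 m,
      ∑ T' ∈ ((P.powersetCard m).erase T).filter (fun T' => (T' \ T).card = k),
        η ^ (T' \ T).card ≤ q ^ k := by
    intro k _
    have h1 : ∑ T' ∈ ((P.powersetCard m).erase T).filter (fun T' => (T' \ T).card = k),
        η ^ (T' \ T).card =
        ((((P.powersetCard m).erase T).filter (fun T' => (T' \ T).card = k)).card : ℝ) *
          η ^ k := by
      rw [← nsmul_eq_mul, ← Finset.sum_const]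
      refine Finset.sum_congr rfl fun T' hT' => ?_
      rw [(Finset.mem_filter.mp hT').2]
    rw [h1]
    have h2 : ((((P.powersetCard m).erase T).filter
        (fun T' => (T' \ T).card = k)).card : ℝ) ≤ (m : ℝ) ^ k * (m : ℝ) ^ k := by
      exact_mod_cast Count_fiber P m hP T hT k
    calc ((((P.powersetCard m).erase T).filter
        (fun T' => (T' \ T).card = k)).card : ℝ) * η ^ k ≤
          ((m : ℝ) ^ k * (m : ℝ) ^ k) * η ^ k := mul_le_mul_of_nonneg_right h2 (by positivity)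
      _ = q ^ k := by
          rw [hq, mul_pow, ← pow_mul, two_mul, pow_add]
  refine (Finset.sum_le_sum hfib).trans ?_
  have h3 : ∑ k ∈ Finset.Icc 1 m, q ^ k = q * ∑ k ∈ Finset.range m, q ^ k := by
    have h8 : Finset.Icc 1 m = (Finset.range m).image (fun k => k + 1) := by
      ext k
      simp only [Finset.mem_Icc, Finset.mem_image, Finset.mem_range]
      constructor
      · rintro ⟨ha, hb⟩
        exact ⟨k - 1, by omega, by omega⟩
      · rintro ⟨a, ha, rfl⟩
        omega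
    rw [h8, Finset.sum_image (fun a _ b _ h => by simpa using h), Finset.mul_sum]
    refine Finset.sum_congr rfl fun k _ => ?_
    rw [pow_succ']
  rw [h3]
  have h4 := geom_sum_mul_neg q m
  have h5 : 0 ≤ ∑ k ∈ Finset.range m, q ^ k := Finset.sum_nonneg fun k _ => by positivity
  have h6 : 0 ≤ q ^ m := by positivity
  have h7 : ∑ k ∈ Finset.range m, q ^ k ≤ 2 := by nlinarith
  nlinarith

theorem card_close_le (P : Finset ι) (m : ℕ) (hP : P.card = 2 * m) (T : Finset ι)
    (hT : T ∈ P.powersetCard m) (i₀ : ℕ) (hi₀ : 10 * i₀ ≤ m + 10) :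
    (((P.powersetCard m).filter (fun T' => (T' \ T).card < i₀)).card : ℝ) ≤ 361 * 3 ^ m := by
  rcases Nat.eq_zero_or_pos i₀ with h0 | h0
  · subst h0
    simp
  obtain ⟨j, rfl⟩ : ∃ j, i₀ = j + 1 := ⟨i₀ - 1, by omega⟩
  obtain ⟨r, hr⟩ : ∃ r, m = 10 * j + r := ⟨m - 10 * j, by omega⟩
  have h1 := card_close P m (j + 1) T hT (x := 1 / 19) (by norm_num) (by norm_num)
  rw [hP] at h1
  obtain ⟨c, hc⟩ : ∃ c : ℝ, c =
      (((P.powersetCard m).filter (fun T' => (T' \ T).card < j + 1)).card : ℝ) := ⟨_, rfl⟩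
  rw [← hc] at h1 ⊢
  have h2 : (1 + (1 : ℝ) / 19) ^ (2 * (2 * m)) =
      (((20 : ℝ) / 19) ^ 40) ^ j * (((20 : ℝ) / 19) ^ 4) ^ r := by
    rw [← pow_mul, ← pow_mul, ← pow_add]
    congr 1
    · norm_num
    · omega
  have h3 : ((1 : ℝ) / 19) ^ (2 * (j + 1)) * ((361 : ℝ) * 361 ^ j) = 1 := by
    rw [pow_mul, ← pow_succ', ← mul_pow]
    norm_num
  have h4 : c = (c * ((1 : ℝ) / 19) ^ (2 * (j + 1))) * ((361 : ℝ) * 361 ^ j) := by
    rw [mul_assoc, h3, mul_one]
  have h5 : (((20 : ℝ) / 19) ^ 40) * 361 ≤ 3 ^ 10 := by norm_num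
  have h6 : ((20 : ℝ) / 19) ^ 4 ≤ 3 := by norm_num
  have h7 : ((3 : ℝ) ^ m) = (3 ^ 10) ^ j * 3 ^ r := by
    rw [hr, pow_add, pow_mul]
  rw [h4, h7]
  calc (c * ((1 : ℝ) / 19) ^ (2 * (j + 1))) * ((361 : ℝ) * 361 ^ j)
      ≤ ((((20 : ℝ) / 19) ^ 40) ^ j * (((20 : ℝ) / 19) ^ 4) ^ r) * ((361 : ℝ) * 361 ^ j) := by
        apply mul_le_mul_of_nonneg_right _ (by positivity)
        rw [← h2]
        exact h1
    _ = 361 * (((((20 : ℝ) / 19) ^ 40) * 361) ^ j * (((20 : ℝ) / 19) ^ 4) ^ r) := by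
        rw [mul_pow (((20 : ℝ) / 19) ^ 40) 361 j]
        ring
    _ ≤ 361 * ((3 ^ 10) ^ j * 3 ^ r) := by
        apply mul_le_mul_of_nonneg_left _ (by norm_num)
        exact mul_le_mul (pow_le_pow_left₀ (by positivity) h5 j)
          (pow_le_pow_left₀ (by positivity) h6 r) (by positivity) (by positivity)

end Pool.Agent.H90.EO
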