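import Pool.Agent.H90.EO.Small
import Pool.Agent.H90.EO.Binom

/-!
# Lower estimate for `omega`, for every dimension

`gl_lower`: the (outer) probability of `omega A ≤ c 4^(-(m+1))` is at most `6 c`.

Proof. `exists_omega A` gives `S` with `rank A_{Sᶜ} < m + 1` and `sigma (rowsIn A S) = omega A`. Almost
surely all families of `m + 1` rows are independent (`ae_generic`), and then `Sᶜ.card ≤ m`, so
`m + 1 ≤ S.card` (this is proved inside `PR.Det.exists_close_of_omega_le`; copy that part). By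
`exists_sigma` there is a unit `x` with `√(∑_{i ∈ S} ⟪row i, x⟫²) = omega A ≤ t`; choose `S' ⊆ S` with
`S'.card = m + 1`; then `∑_{i ∈ S'} ⟪row i, x⟫² ≤ t²`. Union bound over the
`C(2m+1, m+1)` sets `S'` and `small_sv_sub`: the probability is at most
`C(2m+1, m+1) · 12 √(2 (m+1)) t`, and `2 C(2m+1, m+1) √(2(m+1)) ≤ centralBinom (m+1) √(2(m+1)+1) ≤
4^(m+1)`. Transfer from `gl m` to `mu m` by `gl_preimage_le` (as in `PR.Main.tendsto_lower`; `rowVec A i
= WithLp.toLp 2 (A i)`).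
-/

open MeasureTheory ProbabilityTheory Filter Topology Matrix
open scoped ENNReal NNReal RealInnerProductSpace

namespace Pool.Agent.H90.EO

open Pool.Agent.H90.PR

/-- a small `omega` gives a unit vector which is almost orthogonal to `m + 1` rows -/
private theorem LowFin_exists {m : ℕ} (A : Matrix (Fin (2 * m + 1)) (Fin (m + 1)) ℝ)
    (hgen : ∀ T : Finset (Fin (2 * m + 1)), T.card = m + 1 →
      LinearIndepOn ℝ (rowVec A) (T : Set (Fin (2 * m + 1)))) (t : ℝ) (ht : omega A ≤ t) :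
    ∃ T : Finset (Fin (2 * m + 1)), T.card = m + 1 ∧ ∃ x : EE m, ‖x‖ = 1 ∧
      ∑ i ∈ T, ⟪rowVec A i, x⟫ ^ 2 ≤ t ^ 2 := by
  obtain ⟨S, hS, hSo⟩ := exists_omega A
  have hcard : Sᶜ.card ≤ m := by
    by_contra hcon
    push Not at hcon
    obtain ⟨T, hTS, hTc⟩ := Finset.exists_subset_card_eq (s := Sᶜ) (n := m + 1) (by omega)
    have hli := hgen T hTc
    have h1 : (rowsIn A T).rank ≤ (rowsIn A Sᶜ).rank := by
      have h2 : rowsIn A T = (rowsIn A Sᶜ).submatrix (fun i : T => (⟨i.1, hTS i.2⟩ : (Sᶜ : Finset _)))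
          (Equiv.refl (Fin (m + 1))) := by
        ext i j
        rfl
      rw [h2]
      exact Matrix.rank_submatrix_le _ _ _
    have h3 : (rowsIn A T).rank = m + 1 := by
      have h4 : LinearIndependent ℝ (fun i : T => rowVec A i) := hli
      have h5 : LinearIndependent ℝ (rowsIn A T).row := by
        have h6 := h4.map' (WithLp.linearEquiv 2 ℝ (Fin (m + 1) → ℝ)).toLinearMap
          (LinearEquiv.ker _)
        exact h6
      have h7 := h5.rank_matrix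
      rw [h7, Fintype.card_coe, hTc]
    omega
  have hScard : m + 1 ≤ S.card := by
    have := Finset.card_compl S
    rw [Fintype.card_fin] at this
    omega
  obtain ⟨x, hx, hxs⟩ := exists_sigma A S
  obtain ⟨S', hS'S, hS'c⟩ := Finset.exists_subset_card_eq hScard
  refine ⟨S', hS'c, x, hx, ?_⟩
  have h0 : (0 : ℝ) ≤ ∑ i ∈ S, ⟪rowVec A i, x⟫ ^ 2 := Finset.sum_nonneg fun i _ => sq_nonneg _
  have h1 : ∑ i ∈ S', ⟪rowVec A i, x⟫ ^ 2 ≤ ∑ i ∈ S, ⟪rowVec A i, x⟫ ^ 2 :=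
    Finset.sum_le_sum_of_subset_of_nonneg hS'S fun i _ _ => sq_nonneg _
  refine h1.trans ?_
  rw [← Real.sq_sqrt h0, hxs, hSo]
  exact pow_le_pow_left₀ (by rw [← hSo]; exact sigma_nonneg A S) ht 2

private theorem LowFin_num (m : ℕ) (c : ℝ) (hc : 0 ≤ c) :
    ((2 * m + 1).choose (m + 1) : ℝ) * (12 * (√(2 * ((m : ℝ) + 1)) * (c * (1 / 4) ^ (m + 1)))) ≤
      6 * c := by
  have h1 : (2 : ℝ) * ((2 * m + 1).choose (m + 1) : ℝ) = ((m + 1).centralBinom : ℝ) := by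
    exact_mod_cast choose_half m
  have h2 := centralBinom_le (m + 1)
  push_cast at h2
  have h3 : √(2 * ((m : ℝ) + 1)) ≤ √(2 * ((m : ℝ) + 1) + 1) := Real.sqrt_le_sqrt (by linarith)
  have h4 : (0 : ℝ) ≤ ((m + 1).centralBinom : ℝ) := Nat.cast_nonneg _
  have h5 : ((m + 1).centralBinom : ℝ) * √(2 * ((m : ℝ) + 1)) ≤ 4 ^ (m + 1) :=
    (mul_le_mul_of_nonneg_left h3 h4).trans h2
  have h6 : (4 : ℝ) ^ (m + 1) * (1 / 4) ^ (m + 1) = 1 := by
    rw [← mul_pow]
    norm_num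
  calc ((2 * m + 1).choose (m + 1) : ℝ) * (12 * (√(2 * ((m : ℝ) + 1)) * (c * (1 / 4) ^ (m + 1))))
      = (2 * ((2 * m + 1).choose (m + 1) : ℝ)) * √(2 * ((m : ℝ) + 1)) *
          (6 * c * (1 / 4) ^ (m + 1)) := by ring
    _ = ((m + 1).centralBinom : ℝ) * √(2 * ((m : ℝ) + 1)) * (6 * c * (1 / 4) ^ (m + 1)) := by
        rw [h1]
    _ ≤ 4 ^ (m + 1) * (6 * c * (1 / 4) ^ (m + 1)) :=
        mul_le_mul_of_nonneg_right h5 (by positivity)
    _ = 6 * c * (4 ^ (m + 1) * (1 / 4) ^ (m + 1)) := by ring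
    _ = 6 * c := by rw [h6, mul_one]

theorem gl_lower (m : ℕ) (c : ℝ) (hc : 0 ≤ c) :
    gl m {A | omega (Matrix.of A) ≤ c * (1 / 4) ^ (m + 1)} ≤ ENNReal.ofReal (6 * c) := by
  set t : ℝ := c * (1 / 4) ^ (m + 1) with htdef
  have ht : 0 ≤ t := by positivity
  set F : Finset (Finset (Fin (2 * m + 1))) := Finset.powersetCard (m + 1) Finset.univ with hF
  set B2 : Set (Fin (2 * m + 1) → EE m) := ⋃ T ∈ F,
    {g | ∃ x : EE m, ‖x‖ = 1 ∧ ∑ i ∈ T, ⟪g i, x⟫ ^ 2 ≤ t ^ 2} with hB2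
  set B3 : Set (Fin (2 * m + 1) → EE m) := {g | ¬ ∀ T : Finset (Fin (2 * m + 1)),
    T.card = m + 1 → LinearIndepOn ℝ g (T : Set (Fin (2 * m + 1)))} with hB3
  have hsub : {A : Fin (2 * m + 1) → Fin (m + 1) → ℝ | omega (Matrix.of A) ≤ t} ⊆
      {A | (fun i => WithLp.toLp 2 (A i)) ∈ B2 ∪ B3} := by
    intro A hA
    by_contra hcon
    simp only [Set.mem_ofPred_eq, Set.mem_union, not_or] at hcon
    obtain ⟨h2, h3⟩ := hcon
    apply h2
    simp only [hB3, Set.mem_ofPred_eq, not_not] at h3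
    obtain ⟨T, hT, x, hx, h⟩ := LowFin_exists (Matrix.of A) h3 t hA
    rw [hB2]
    simp only [Set.mem_iUnion]
    exact ⟨T, by rw [hF, Finset.mem_powersetCard]; exact ⟨Finset.subset_univ _, hT⟩, x, hx, h⟩
  refine (measure_mono hsub).trans ((gl_preimage_le m _).trans ?_)
  refine (measure_union_le _ _).trans ?_
  rw [ae_generic m, add_zero]
  refine (measure_biUnion_finset_le _ _).trans ?_
  have h2 : ∀ T ∈ F, mu m {g | ∃ x : EE m, ‖x‖ = 1 ∧ ∑ i ∈ T, ⟪g i, x⟫ ^ 2 ≤ t ^ 2} ≤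
      ENNReal.ofReal (12 * (√(2 * ((m : ℝ) + 1)) * t)) := by
    intro T hT
    rw [hF, Finset.mem_powersetCard] at hT
    exact small_sv_sub T hT.2 t ht
  refine (Finset.sum_le_sum h2).trans ?_
  rw [Finset.sum_const, hF, Finset.card_powersetCard, Finset.card_univ, Fintype.card_fin,
    nsmul_eq_mul, ← ENNReal.ofReal_natCast, ← ENNReal.ofReal_mul (Nat.cast_nonneg _)]
  exact ENNReal.ofReal_le_ofReal (LowFin_num m c hc)

end Pool.Agent.H90.EO
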