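import Pool.Agent.H90.EO.Base

/-!
# The norm of a Gaussian vector tends to infinity with the dimension
-/

open MeasureTheory ProbabilityTheory Filter Topology
open scoped ENNReal NNReal RealInnerProductSpace

namespace Pool.Agent.H90.EO

open Pool.Agent.H90.PR

lemma gauss_Icc_lt_one (K : ℝ) : gaussianReal 0 1 (Set.Icc (-K) K) < 1 := by
  have h1 : 0 < gaussianReal 0 1 (Set.Ioi K) := by
    rw [pos_iff_ne_zero]
    intro h
    have h2 := gaussianReal_absolutelyContinuous' 0 (v := 1) one_ne_zero h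
    simp at h2
  have h3 : gaussianReal 0 1 (Set.Icc (-K) K) + gaussianReal 0 1 (Set.Ioi K) ≤ 1 := by
    rw [← measure_union _ measurableSet_Ioi]
    · exact prob_le_one
    · rw [Set.disjoint_left]
      intro a ha hb
      exact absurd ha.2 (not_le.mpr hb)
  have h4 : gaussianReal 0 1 (Set.Icc (-K) K) ≠ ∞ := measure_ne_top _ _
  calc gaussianReal 0 1 (Set.Icc (-K) K) < gaussianReal 0 1 (Set.Icc (-K) K) +
        gaussianReal 0 1 (Set.Ioi K) := ENNReal.lt_add_right h4 h1.ne'
    _ ≤ 1 := h3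

lemma norm_small_le (m : ℕ) (K : ℝ) :
    stdGaussian (EE m) {a | ‖a‖ ≤ K} ≤ gaussianReal 0 1 (Set.Icc (-K) K) ^ (m + 1) := by
  rw [← map_pi_eq_stdGaussian]
  have hm : MeasurableSet {a : EE m | ‖a‖ ≤ K} := measurableSet_le measurable_norm measurable_const
  rw [Measure.map_apply (WithLp.measurable_toLp 2 _) hm]
  have hsub : (WithLp.toLp 2 : (Fin (m + 1) → ℝ) → EE m) ⁻¹' {a | ‖a‖ ≤ K} ⊆
      Set.pi Set.univ (fun _ : Fin (m + 1) => Set.Icc (-K) K) := by
    intro a ha i _
    have h1 : ‖(WithLp.toLp 2 a : EE m)‖ ≤ K := ha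
    have h2 : ‖(WithLp.toLp 2 a : EE m) i‖ ≤ ‖(WithLp.toLp 2 a : EE m)‖ := PiLp.norm_apply_le _ i
    have h3 : |a i| ≤ K := by
      have : ‖(WithLp.toLp 2 a : EE m) i‖ = |a i| := rfl
      rw [← this]
      exact h2.trans h1
    exact abs_le.mp h3
  refine (measure_mono hsub).trans ?_
  rw [Measure.pi_pi]
  simp

/-- The norm of the first row is at most `K` with probability tending to zero. -/
theorem tendsto_norm_small (K : ℝ) :
    Tendsto (fun m : ℕ => mu m {g | ‖g 0‖ ≤ K}) atTop (𝓝 0) := by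
  have h1 : Tendsto (fun m : ℕ => gaussianReal 0 1 (Set.Icc (-K) K) ^ (m + 1)) atTop (𝓝 0) :=
    (tendsto_add_atTop_iff_nat 1).mpr
      (ENNReal.tendsto_pow_atTop_nhds_zero_of_lt_one (gauss_Icc_lt_one K))
  refine tendsto_of_tendsto_of_tendsto_of_le_of_le tendsto_const_nhds h1
    (fun _ => zero_le) (fun m => ?_)
  have h2 := mu_eval m 0 {a : EE m | ‖a‖ ≤ K} (measurableSet_le measurable_norm measurable_const)
  exact h2.le.trans (norm_small_le m K)

end Pool.Agent.H90.EO
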