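import Pool.Agent.H90.EO.UpFin
import Pool.Agent.H90.EO.LowFin
import Pool.Agent.H90.EO.NormT

/-!
# The exact order of `omega`
-/

open MeasureTheory ProbabilityTheory Filter Topology
open scoped ENNReal NNReal RealInnerProductSpace

namespace Pool.Agent.H90.EO

open Pool.Agent.H90.PR

/-- Non-asymptotic lower estimate. -/
theorem gaussLaw_small (M : ℕ) (hM : 1 ≤ M) (c : ℝ) (hc : 0 ≤ c) :
    gaussLaw M {A | omega (Matrix.of A) ≤ c / 4 ^ M} ≤ ENNReal.ofReal (6 * c) := by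
  obtain ⟨m, rfl⟩ : ∃ m, M = m + 1 := ⟨M - 1, by omega⟩
  have h := gl_lower m c hc
  have e : c * (1 / 4) ^ (m + 1) = c / 4 ^ (m + 1) := by
    rw [div_pow, one_pow]
    ring
  rw [e] at h
  exact h

/-- Upper estimate. -/
theorem gaussLaw_large (ε : ℝ) (hε : 0 < ε) : ∃ C : ℝ, 0 < C ∧ ∀ᶠ M : ℕ in atTop,
    gaussLaw M {A | ¬ omega (Matrix.of A) ≤ C / 4 ^ M} ≤ ENNReal.ofReal ε := by
  obtain ⟨C, hC, h⟩ := gl_upper ε hε
  refine ⟨C, hC, ?_⟩
  rw [eventually_atTop] at h ⊢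
  obtain ⟨m₀, hm₀⟩ := h
  refine ⟨m₀ + 1, fun M hM => ?_⟩
  obtain ⟨m, rfl⟩ : ∃ m, M = m + 1 := ⟨M - 1, by omega⟩
  have hm := hm₀ m (by omega)
  have e : C * (1 / 4) ^ (m + 1) = C / 4 ^ (m + 1) := by
    rw [div_pow, one_pow]
    ring
  rw [e] at hm
  exact hm

/-- The exact order of `omega`. -/
theorem exact_order (ε : ℝ) (hε : 0 < ε) : ∃ c C : ℝ, 0 < c ∧ 0 < C ∧ ∀ᶠ M : ℕ in atTop,
    gaussLaw M {A | ¬ (c / 4 ^ M ≤ omega (Matrix.of A) ∧ omega (Matrix.of A) ≤ C / 4 ^ M)} ≤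
      ENNReal.ofReal ε := by
  obtain ⟨C, hC, h⟩ := gaussLaw_large (ε / 2) (by positivity)
  refine ⟨ε / 12, C, by positivity, hC, ?_⟩
  filter_upwards [h, eventually_ge_atTop 1] with M hM hM1
  have h1 := gaussLaw_small M hM1 (ε / 12) (by positivity)
  have hsub : {A : Fin (2 * M - 1) → Fin M → ℝ |
      ¬ (ε / 12 / 4 ^ M ≤ omega (Matrix.of A) ∧ omega (Matrix.of A) ≤ C / 4 ^ M)} ⊆
      {A | omega (Matrix.of A) ≤ ε / 12 / 4 ^ M} ∪ {A | ¬ omega (Matrix.of A) ≤ C / 4 ^ M} := by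
    intro A hA
    simp only [Set.mem_ofPred_eq, not_and_or, Set.mem_union] at hA ⊢
    rcases hA with hA | hA
    · exact Or.inl (not_le.mp hA).le
    · exact Or.inr hA
  refine (measure_mono hsub).trans ((measure_union_le _ _).trans ?_)
  refine (add_le_add h1 hM).trans (le_of_eq ?_)
  rw [← ENNReal.ofReal_add (by positivity) (by positivity)]
  congr 1
  ring

/-- Within any factor tending to infinity, with probability tending to one. -/
theorem exact_order_tendsto (h : ℕ → ℝ) (hh : Tendsto h atTop atTop) :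
    Tendsto (fun M : ℕ => gaussLaw M {A | ¬ (1 / (h M * 4 ^ M) ≤ omega (Matrix.of A) ∧
      omega (Matrix.of A) ≤ h M / 4 ^ M)}) atTop (𝓝 0) := by
  rw [ENNReal.tendsto_nhds_zero]
  intro ε hε
  rcases eq_or_ne ε ∞ with rfl | hεt
  · exact Eventually.of_forall fun _ => le_top
  have hε0 : 0 < ε.toReal := ENNReal.toReal_pos hε.ne' hεt
  obtain ⟨c, C, hc, hC, hev⟩ := exact_order ε.toReal hε0
  filter_upwards [hev, hh.eventually_ge_atTop C, hh.eventually_ge_atTop (1 / c)] with M h1 h2 h3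
  rw [ENNReal.ofReal_toReal hεt] at h1
  refine (measure_mono ?_).trans h1
  intro A hA
  simp only [Set.mem_ofPred_eq] at hA ⊢
  intro hcon
  apply hA
  have h4 : (0 : ℝ) < 4 ^ M := by positivity
  have hM0 : 0 < h M := lt_of_lt_of_le (by positivity) h3
  constructor
  · refine le_trans ?_ hcon.1
    rw [div_le_div_iff₀ (by positivity) h4]
    have h5 : 1 ≤ c * h M := by
      calc (1 : ℝ) = c * (1 / c) := by field_simp
        _ ≤ c * h M := by gcongr
    nlinarith
  · refine hcon.2.trans ?_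
    gcongr

/-- `β = 1/4` is admissible. -/
theorem admissible_quarter : Admissible (1 / 4) := by
  refine ⟨1, one_pos, ?_⟩
  apply tendsto_one_of_compl
  rw [← tendsto_add_atTop_iff_nat 1, ENNReal.tendsto_nhds_zero]
  intro ε hε
  rcases eq_or_ne ε ∞ with rfl | hεt
  · exact Eventually.of_forall fun _ => le_top
  have hε0 : 0 < ε.toReal := ENNReal.toReal_pos hε.ne' hεt
  obtain ⟨C, hC, hev⟩ := gl_upper (ε.toReal / 2) (by positivity)
  have hnorm := (ENNReal.tendsto_nhds_zero.mp (tendsto_norm_small C))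
    (ENNReal.ofReal (ε.toReal / 2)) (by simpa using hε0)
  filter_upwards [hev, hnorm] with m h1 h2
  set B : Set (Fin (2 * m + 1) → EE m) := {g | ‖g 0‖ ≤ C} with hB
  have hsub : {A : Fin (2 * m + 1) → Fin (m + 1) → ℝ |
      omega (Matrix.of A) ≤ 1 * maxRow (Matrix.of A) * (1 / 4) ^ (m + 1)}ᶜ ⊆
      {A | ¬ omega (Matrix.of A) ≤ C * (1 / 4) ^ (m + 1)} ∪
        {A | (fun i => WithLp.toLp 2 (A i)) ∈ B} := by
    intro A hA
    by_contra hcon
    simp only [Set.mem_union, Set.mem_ofPred_eq, not_or, hB] at hcon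
    have hcon1 := not_not.mp hcon.1
    have hcon2 := not_le.mp hcon.2
    apply hA
    have h3 := le_maxRow (Matrix.of A) 0
    have h4 : C ≤ maxRow (Matrix.of A) := hcon2.le.trans h3
    show omega (Matrix.of A) ≤ 1 * maxRow (Matrix.of A) * (1 / 4) ^ (m + 1)
    refine hcon1.trans ?_
    rw [one_mul]
    gcongr
  have h5 : gaussLaw (m + 1) {A | omega (Matrix.of A) ≤
      1 * maxRow (Matrix.of A) * (1 / 4) ^ (m + 1)}ᶜ ≤ ε := by
    rw [gaussLaw_succ]
    refine (measure_mono hsub).trans ((measure_union_le _ _).trans ?_)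
    refine (add_le_add h1 ((gl_preimage_le m _).trans h2)).trans (le_of_eq ?_)
    rw [← ENNReal.ofReal_add (by positivity) (by positivity), add_halves,
      ENNReal.ofReal_toReal hεt]
  exact h5

end Pool.Agent.H90.EO
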