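import Pool.Agent.H90.EO.Base

open MeasureTheory ProbabilityTheory Filter Topology Matrix
open scoped ENNReal NNReal RealInnerProductSpace

namespace Pool.Agent.H90.EO

open Pool.Agent.H90.PR

variable {ι : Type*} [Fintype ι] [DecidableEq ι] {m : ℕ}

theorem exists_left (hι : Fintype.card ι = m + 1) (g : ι → EE m) (hg : LinearIndependent ℝ g)
    (x : EE m) (hx : ‖x‖ = 1) (t : ℝ) (ht0 : 0 ≤ t) (ht : ∑ i, ⟪g i, x⟫ ^ 2 ≤ t ^ 2) :
    ∃ u : ι → ℝ, ∑ i, u i ^ 2 = 1 ∧ ‖∑ i, u i • g i‖ ≤ t := by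
  have hfr : Fintype.card ι = Module.finrank ℝ (EE m) := by
    rw [hι, finrank_euclideanSpace_fin]
  let b := basisOfLinearIndependentOfCardEqFinrank' g hg hfr
  have hb : ∀ i, b i = g i := fun i => by simp [b]
  set y : ι → ℝ := fun i => b.repr x i with hy
  have hxy : ∑ i, y i • g i = x := by
    have := b.sum_repr x
    simpa [hy, hb] using this
  have h1 : ∑ i, y i * ⟪g i, x⟫ = 1 := by
    have h2 : ⟪∑ i, y i • g i, x⟫ = (1 : ℝ) := by
      rw [hxy, real_inner_self_eq_norm_sq, hx]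
      norm_num
    rw [sum_inner] at h2
    simpa [inner_smul_left] using h2
  have hcs : (∑ i, y i * ⟪g i, x⟫) ^ 2 ≤ (∑ i, y i ^ 2) * ∑ i, ⟪g i, x⟫ ^ 2 :=
    Finset.sum_mul_sq_le_sq_mul_sq _ _ _
  rw [h1] at hcs
  set Y := ∑ i, y i ^ 2 with hY
  have hY0 : 0 ≤ Y := Finset.sum_nonneg fun i _ => sq_nonneg _
  have h3 : 1 ≤ Y * t ^ 2 := by
    calc (1 : ℝ) = 1 ^ 2 := by norm_num
      _ ≤ Y * ∑ i, ⟪g i, x⟫ ^ 2 := hcs
      _ ≤ Y * t ^ 2 := by gcongr
  have hYpos : 0 < Y := by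
    rcases hY0.eq_or_lt with h | h
    · rw [← h, zero_mul] at h3
      linarith
    · exact h
  have hs : 0 < √Y := Real.sqrt_pos.mpr hYpos
  have hsq : √Y ^ 2 = Y := Real.sq_sqrt hY0
  refine ⟨fun i => y i / √Y, ?_, ?_⟩
  · simp_rw [div_pow, hsq]
    rw [← Finset.sum_div, ← hY, div_self hYpos.ne']
  · have h4 : ∑ i, (y i / √Y) • g i = (√Y)⁻¹ • x := by
      rw [← hxy, Finset.smul_sum]
      refine Finset.sum_congr rfl fun i _ => ?_
      rw [smul_smul]
      congr 1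
      ring
    rw [h4, norm_smul, hx, mul_one, norm_inv, Real.norm_eq_abs, abs_of_pos hs]
    rw [inv_le_comm₀ hs (by
      rcases ht0.eq_or_lt with h | h
      · rw [← h] at h3
        norm_num at h3
      · exact h)]
    have htpos : 0 < t := by
      rcases ht0.eq_or_lt with h | h
      · rw [← h] at h3
        norm_num at h3
      · exact h
    apply Real.le_sqrt_of_sq_le
    rw [inv_pow, inv_le_iff_one_le_mul₀ (by positivity)]
    exact h3

theorem exists_right (g : ι → EE m) (S : Finset ι) (hS : S.card = m + 1)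
    (hg : LinearIndepOn ℝ g (S : Set ι)) (u : ι → ℝ) (hu : 0 < ∑ i ∈ S, u i ^ 2) (t : ℝ)
    (ht : ‖∑ i ∈ S, u i • g i‖ ≤ t * √(∑ i ∈ S, u i ^ 2)) :
    ∃ z : EE m, ‖z‖ = 1 ∧ √(∑ i ∈ S, ⟪g i, z⟫ ^ 2) ≤ t := by
  have hfr : Fintype.card S = Module.finrank ℝ (EE m) := by
    rw [Fintype.card_coe, hS, finrank_euclideanSpace_fin]
  have hg' : LinearIndependent ℝ (fun i : S => g i) := hg
  let b := basisOfLinearIndependentOfCardEqFinrank' (fun i : S => g i) hg' hfr
  have hb : ∀ i : S, b i = g i := fun i => by simp [b]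
  -- the functional with prescribed values
  let φ : EE m →ₗ[ℝ] ℝ := b.constr ℝ (fun i : S => u i)
  have hφ : ∀ i : S, φ (g i) = u i := by
    intro i
    have := b.constr_basis ℝ (fun i : S => u i) i
    rw [hb] at this
    exact this
  let x : EE m := (InnerProductSpace.toDual ℝ (EE m)).symm (LinearMap.toContinuousLinearMap φ)
  have hxin : ∀ v, ⟪x, v⟫ = φ v := by
    intro v
    have := InnerProductSpace.toDual_symm_apply (𝕜 := ℝ) (x := v)
      (y := LinearMap.toContinuousLinearMap φ)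
    simpa [x] using this
  have hxg : ∀ i ∈ S, ⟪g i, x⟫ = u i := by
    intro i hi
    rw [real_inner_comm, hxin]
    exact hφ ⟨i, hi⟩
  set V := ∑ i ∈ S, u i ^ 2 with hV
  have hs : 0 < √V := Real.sqrt_pos.mpr hu
  have hsq : √V * √V = V := Real.mul_self_sqrt hu.le
  have h1 : V = ⟪∑ i ∈ S, u i • g i, x⟫ := by
    rw [sum_inner]
    refine Finset.sum_congr rfl fun i hi => ?_
    rw [inner_smul_left, hxg i hi]
    simp [sq]
  have h2 : V ≤ t * √V * ‖x‖ := by
    calc V = ⟪∑ i ∈ S, u i • g i, x⟫ := h1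
      _ ≤ ‖∑ i ∈ S, u i • g i‖ * ‖x‖ := real_inner_le_norm _ _
      _ ≤ t * √V * ‖x‖ := by gcongr
  have h3 : √V ≤ t * ‖x‖ := by
    have h4 : √V * √V ≤ √V * (t * ‖x‖) := by
      rw [hsq]
      linarith
    exact le_of_mul_le_mul_left h4 hs
  have hx0 : 0 < ‖x‖ := by
    rcases (norm_nonneg x).eq_or_lt with h | h
    · rw [← h, mul_zero] at h3
      linarith
    · exact h
  refine ⟨(‖x‖)⁻¹ • x, ?_, ?_⟩
  · rw [norm_smul, norm_inv, norm_norm, inv_mul_cancel₀ hx0.ne']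
  · have h5 : ∑ i ∈ S, ⟪g i, (‖x‖)⁻¹ • x⟫ ^ 2 = V / ‖x‖ ^ 2 := by
      rw [hV, Finset.sum_div]
      refine Finset.sum_congr rfl fun i hi => ?_
      rw [inner_smul_right, hxg i hi, mul_pow, inv_pow]
      ring
    rw [h5, Real.sqrt_div' _ (by positivity), Real.sqrt_sq hx0.le, div_le_iff₀ hx0]
    exact h3

theorem left_mix (hι : Fintype.card ι = m + 1) (g : ι → EE m) (u : ι → ℝ) (t : ℝ)
    (ht : ‖∑ i, u i • g i‖ ≤ t) (O : Matrix ι ι ℝ) (hO : O * Oᵀ = 1) (i₀ : ι) :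
    |∑ i, O i₀ i * u i| * |⟪nv (Finset.univ.erase i₀) (mix O g), mix O g i₀⟫| ≤ t := by
  have hO' : Oᵀ * O = 1 := mul_eq_one_comm.mp hO
  set g' := mix O g with hg'
  set n := nv (Finset.univ.erase i₀) g' with hn
  have hcard : (Finset.univ.erase i₀).card = m := by
    rw [Finset.card_erase_of_mem (Finset.mem_univ _), Finset.card_univ, hι]
    rfl
  have hsum : ∑ i, u i • g i = ∑ k, (∑ i, O k i * u i) • g' k := by
    have e1 : ∀ k, (∑ i, O k i * u i) • g' k = ∑ j, (∑ i, O k i * u i * O k j) • g j := by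
      intro k
      simp only [hg', mix, Finset.smul_sum, smul_smul, Finset.sum_mul]
    simp_rw [e1]
    rw [Finset.sum_comm]
    refine Finset.sum_congr rfl fun j _ => ?_
    rw [← Finset.sum_smul]
    congr 1
    rw [Finset.sum_comm]
    have e2 : ∀ i, ∑ k, O k i * u i * O k j = (Oᵀ * O) i j * u i := by
      intro i
      rw [Matrix.mul_apply, Finset.sum_mul]
      refine Finset.sum_congr rfl fun k _ => ?_
      rw [Matrix.transpose_apply]
      ring
    simp_rw [e2, hO', Matrix.one_apply]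
    simp
  have hin : ⟪n, ∑ i, u i • g i⟫ = (∑ i, O i₀ i * u i) * ⟪n, g' i₀⟫ := by
    rw [hsum, inner_sum, Finset.sum_eq_single i₀]
    · rw [inner_smul_right]
    · intro k _ hk
      rw [inner_smul_right, hn, inner_nv _ hcard g' k (Finset.mem_erase.mpr ⟨hk, Finset.mem_univ _⟩),
        mul_zero]
    · intro h
      exact absurd (Finset.mem_univ _) h
  have hnorm : ‖n‖ ≤ 1 := by
    rw [hn]
    unfold nv
    rw [dif_pos hcard]
    rcases norm_nrm_or (fun i => g' (((Finset.univ.erase i₀).equivFinOfCardEq hcard).symm i)) with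
      h | h
    · exact h.le
    · rw [h, norm_zero]
      exact zero_le_one
  rw [← abs_mul, ← hin]
  calc |⟪n, ∑ i, u i • g i⟫| ≤ ‖n‖ * ‖∑ i, u i • g i‖ := abs_real_inner_le_norm _ _
    _ ≤ 1 * t := by gcongr
    _ = t := one_mul t

end Pool.Agent.H90.EO
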