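import Pool.Agent.H90.EO.Base

/-!
# Uniqueness and equivariance of the unit normal

* `nv_unique`: a unit vector orthogonal to the `m` independent vectors `g i`, `i ∈ T`, of `EE m` (dimension
  `m + 1`) is `± nv T g` (`norm_nv`, `inner_nv`; the orthogonal complement of the span has dimension 1).
* `nv_isometry`: for a linear isometry `R`, `nv T (R ∘ g) = ± R (nv T g)`; from `nv_unique`.
* `norm_nv_le_one`: always `‖nv T g‖ ≤ 1` (`norm_nrm_or`).
* `nu_*`: facts on `nu T i g = nv T (update g i (nv T g))` for `g` independent on `T`, `i ∈ T`: the family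
  `update g i (nv T g)` is independent on `T` (the `g k`, `k ∈ T`, `k ≠ i`, are independent and
  `nv T g` is a nonzero vector orthogonal to them), so `nu T i g` is a unit vector (`norm_nv`) orthogonal to
  all members of the updated family (`inner_nv`).
* `nu_inner_ne`: `⟪nu T i g, g i⟫ ≠ 0`: otherwise `nu T i g` is orthogonal to all `g k`, `k ∈ T`, and to
  `nv T g`, which together span `EE m`.
-/

open MeasureTheory ProbabilityTheory Filter Topology
open scoped ENNReal NNReal RealInnerProductSpace

namespace Pool.Agent.H90.EO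

open Pool.Agent.H90.PR

variable {ι : Type*} [DecidableEq ι] {m : ℕ}

theorem norm_nv_le_one (T : Finset ι) (g : ι → EE m) : ‖nv T g‖ ≤ 1 := by
  unfold nv
  split_ifs with h
  · rcases norm_nrm_or (fun i => g ((T.equivFinOfCardEq h).symm i)) with h1 | h1
    · exact h1.le
    · rw [h1, norm_zero]; exact zero_le_one
  · rw [norm_zero]; exact zero_le_one

private theorem NvU_orth (T : Finset ι) (g : ι → EE m) (y : EE m)
    (h : ∀ i ∈ T, ⟪y, g i⟫ = (0 : ℝ)) :
    y ∈ (Submodule.span ℝ (Set.range fun i : (T : Set ι) => g i))ᗮ := by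
  rw [Submodule.mem_orthogonal]
  intro u hu
  induction hu using Submodule.span_induction with
  | mem x hx =>
    obtain ⟨k, rfl⟩ := hx
    rw [real_inner_comm]
    exact h k k.2
  | zero => simp
  | add a b _ _ ha hb => rw [inner_add_left, ha, hb, add_zero]
  | smul c a _ ha => rw [inner_smul_left, ha, mul_zero]

theorem nv_unique (T : Finset ι) (hT : T.card = m) (g : ι → EE m)
    (hg : LinearIndepOn ℝ g (T : Set ι)) (y : EE m) (hy : ‖y‖ = 1)
    (h : ∀ i ∈ T, ⟪y, g i⟫ = (0 : ℝ)) : y = nv T g ∨ y = -nv T g := by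
  classical
  set V : Submodule ℝ (EE m) := Submodule.span ℝ (Set.range fun i : (T : Set ι) => g i) with hV
  have h1 : Module.finrank ℝ V = m := by
    rw [hV, finrank_span_eq_card (b := fun i : (T : Set ι) => g i) hg]
    rw [← hT]
    simp
  have h2 : Module.finrank ℝ Vᗮ = 1 := by
    have h3 := Submodule.finrank_add_finrank_orthogonal V
    have h4 : Module.finrank ℝ (EE m) = m + 1 := finrank_euclideanSpace_fin
    omega
  have hn : ‖nv T g‖ = 1 := norm_nv T hT g hg
  have hnV : nv T g ∈ Vᗮ := NvU_orth T g _ fun i hi => inner_nv T hT g i hi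
  have hyV : y ∈ Vᗮ := NvU_orth T g y h
  have hne : (⟨nv T g, hnV⟩ : Vᗮ) ≠ 0 := by
    intro h0
    have h5 : nv T g = 0 := congrArg Subtype.val h0
    rw [h5, norm_zero] at hn
    exact zero_ne_one hn
  obtain ⟨c, hc⟩ := (finrank_eq_one_iff_of_nonzero' _ hne).1 h2 ⟨y, hyV⟩
  have hc' : c • nv T g = y := congrArg Subtype.val hc
  have hcn : |c| = 1 := by
    have h6 := congrArg (fun z => ‖z‖) hc'
    simp only [norm_smul, hn, hy, mul_one, Real.norm_eq_abs] at h6
    exact h6
  rcases eq_or_eq_neg_of_abs_eq hcn with h7 | h7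
  · left; rw [← hc', h7, one_smul]
  · right; rw [← hc', h7, neg_smul, one_smul]

theorem nv_isometry (T : Finset ι) (hT : T.card = m) (g : ι → EE m)
    (hg : LinearIndepOn ℝ g (T : Set ι)) (R : EE m ≃ₗᵢ[ℝ] EE m) :
    nv T (fun i => R (g i)) = R (nv T g) ∨ nv T (fun i => R (g i)) = -R (nv T g) := by
  have h1 : LinearIndepOn ℝ (fun i => R (g i)) (T : Set ι) := by
    have h2 : LinearIndependent ℝ fun i : (T : Set ι) => g i := hg
    have h3 := h2.map' (R.toLinearEquiv : EE m →ₗ[ℝ] EE m) R.toLinearEquiv.ker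
    exact h3
  have h2 := nv_unique T hT (fun i => R (g i)) h1 (R (nv T g))
    (by rw [LinearIsometryEquiv.norm_map]; exact norm_nv T hT g hg)
    (fun i hi => by rw [LinearIsometryEquiv.inner_map_map]; exact inner_nv T hT g i hi)
  rcases h2 with h | h
  · left; exact h.symm
  · right; rw [h, neg_neg]

theorem measurable_nu [Fintype ι] (T : Finset ι) (i : ι) : Measurable (nu (m := m) T i) := by
  unfold nu
  refine (measurable_nv T).comp (measurable_pi_lambda _ fun k => ?_)
  by_cases hk : k = i
  · subst hk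
    simp only [Function.update_self]
    exact measurable_nv T
  · simp only [Function.update_of_ne hk]
    exact measurable_pi_apply k

theorem nu_congr (T : Finset ι) (i : ι) (g g' : ι → EE m) (h : ∀ k ∈ T, g k = g' k) :
    nu T i g = nu T i g' := by
  unfold nu
  have h1 : nv T g = nv T g' := nv_congr T g g' h
  refine nv_congr T _ _ fun k hk => ?_
  by_cases hki : k = i
  · subst hki
    rw [Function.update_self, Function.update_self, h1]
  · rw [Function.update_of_ne hki, Function.update_of_ne hki, h k hk]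

private theorem NvU_indep (T : Finset ι) (hT : T.card = m) (i : ι) (hi : i ∈ T) (g : ι → EE m)
    (hg : LinearIndepOn ℝ g (T : Set ι)) :
    LinearIndepOn ℝ (Function.update g i (nv T g)) (T : Set ι) := by
  have hT' : (T : Set ι) = insert i ((T.erase i : Finset ι) : Set ι) := by
    rw [← Finset.coe_insert, Finset.insert_erase hi]
  have hni : i ∉ ((T.erase i : Finset ι) : Set ι) := by simp
  have heq : Set.EqOn g (Function.update g i (nv T g)) ((T.erase i : Finset ι) : Set ι) := by
    intro k hk
    have hki : k ≠ i := (Finset.mem_erase.1 (Finset.mem_coe.1 hk)).1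
    rw [Function.update_of_ne hki]
  rw [hT', linearIndepOn_insert hni]
  refine ⟨?_, ?_⟩
  · refine LinearIndepOn.congr ?_ heq
    exact hg.mono (by rw [hT']; exact Set.subset_insert _ _)
  · rw [Function.update_self, ← heq.image_eq]
    intro hmem
    have h0 : ∀ u ∈ Submodule.span ℝ (g '' ((T.erase i : Finset ι) : Set ι)),
        ⟪nv T g, u⟫ = (0 : ℝ) := by
      intro u hu
      induction hu using Submodule.span_induction with
      | mem x hx =>
        obtain ⟨k, hk, rfl⟩ := hx
        exact inner_nv T hT g k (Finset.mem_erase.1 (Finset.mem_coe.1 hk)).2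
      | zero => simp
      | add a b _ _ ha hb => rw [inner_add_right, ha, hb, add_zero]
      | smul c a _ ha => rw [inner_smul_right, ha, mul_zero]
    have h1 := h0 _ hmem
    rw [real_inner_self_eq_norm_sq, norm_nv T hT g hg] at h1
    norm_num at h1

theorem norm_nu (T : Finset ι) (hT : T.card = m) (i : ι) (hi : i ∈ T) (g : ι → EE m)
    (hg : LinearIndepOn ℝ g (T : Set ι)) : ‖nu T i g‖ = 1 := by
  exact norm_nv T hT _ (NvU_indep T hT i hi g hg)

theorem nu_inner_nv (T : Finset ι) (hT : T.card = m) (i : ι) (hi : i ∈ T) (g : ι → EE m) :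
    ⟪nv T g, nu T i g⟫ = (0 : ℝ) := by
  have h := inner_nv T hT (Function.update g i (nv T g)) i hi
  rw [Function.update_self] at h
  rw [real_inner_comm]
  exact h

theorem nu_inner (T : Finset ι) (hT : T.card = m) (i : ι) (g : ι → EE m) (k : ι)
    (hk : k ∈ T) (hki : k ≠ i) : ⟪nu T i g, g k⟫ = (0 : ℝ) := by
  have h := inner_nv T hT (Function.update g i (nv T g)) k hk
  rw [Function.update_of_ne hki] at h
  exact h

theorem nu_inner_ne (T : Finset ι) (hT : T.card = m) (i : ι) (hi : i ∈ T) (g : ι → EE m)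
    (hg : LinearIndepOn ℝ g (T : Set ι)) : ⟪nu T i g, g i⟫ ≠ (0 : ℝ) := by
  intro h0
  have h1 : ∀ k ∈ T, ⟪nu T i g, g k⟫ = (0 : ℝ) := by
    intro k hk
    by_cases hki : k = i
    · rw [hki]; exact h0
    · exact nu_inner T hT i g k hk hki
  have h2 := nv_unique T hT g hg (nu T i g) (norm_nu T hT i hi g hg) h1
  have h3 := nu_inner_nv T hT i hi g
  have h4 : ⟪nv T g, nv T g⟫ = (1 : ℝ) := by
    rw [real_inner_self_eq_norm_sq, norm_nv T hT g hg]; norm_num
  rcases h2 with h | h
  · rw [h, h4] at h3
    exact one_ne_zero h3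
  · rw [h, inner_neg_right, h4] at h3
    norm_num at h3

end Pool.Agent.H90.EO
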