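import Pool.Agent.H90.EO.Base

/-!
# Rotation invariance of independent standard Gaussian vectors

`map_mix`: if `O` is an orthogonal matrix, then `(∑ i, O k i • g i)_k` has the law of `g`.

Proof. `(Measure.pi (fun _ => stdGaussian E)).map (WithLp.toLp 2) = stdGaussian (PiLp 2 (fun _ => E))`
by characteristic functions (`Measure.ext_of_charFun`, `charFun_pi`, `charFun_stdGaussian`,
`PiLp.norm_sq_eq_of_L2`); mixing by `O` is a linear isometry `L` of `PiLp 2 (fun _ : ι => E)`
(its inverse is mixing by `Oᵀ`, and `∑_k ‖∑_i O k i • g i‖² = ∑_i ‖g i‖²` by expanding the square and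
`Oᵀ * O = 1`), and `stdGaussian_map` says `(stdGaussian E').map L = stdGaussian F'`.
Alternatively compute the characteristic function of the image directly:
`⟪t, toLp (mix O g)⟫ = ⟪toLp (mix Oᵀ t), toLp g⟫`.
-/

open MeasureTheory ProbabilityTheory Filter Topology Matrix
open scoped ENNReal NNReal RealInnerProductSpace

namespace Pool.Agent.H90.EO

open Pool.Agent.H90.PR

variable {ι : Type*} [Fintype ι] [DecidableEq ι]
variable {E : Type*} [NormedAddCommGroup E] [InnerProductSpace ℝ E] [FiniteDimensional ℝ E]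
  [MeasurableSpace E] [BorelSpace E]

omit [FiniteDimensional ℝ E] [MeasurableSpace E] [BorelSpace E] in
private theorem Rot_norm (O : Matrix ι ι ℝ) (hO : O * Oᵀ = 1) (t : ι → E) :
    ∑ i, ‖∑ k, O k i • t k‖ ^ 2 = ∑ k, ‖t k‖ ^ 2 := by
  have h1 : ∀ i, ‖∑ k, O k i • t k‖ ^ 2 = ∑ k, ∑ l, O k i * O l i * ⟪t k, t l⟫ := by
    intro i
    rw [← real_inner_self_eq_norm_sq, sum_inner]
    refine Finset.sum_congr rfl fun k _ => ?_
    rw [inner_sum]
    refine Finset.sum_congr rfl fun l _ => ?_
    rw [real_inner_smul_left, real_inner_smul_right]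
    ring
  simp_rw [h1]
  rw [Finset.sum_comm]
  refine Finset.sum_congr rfl fun k _ => ?_
  rw [Finset.sum_comm]
  have h2 : ∀ l, ∑ i, O k i * O l i * ⟪t k, t l⟫ = if k = l then ⟪t k, t l⟫ else 0 := by
    intro l
    have h3 := congrFun (congrFun hO k) l
    rw [Matrix.mul_apply, Matrix.one_apply] at h3
    simp only [Matrix.transpose_apply] at h3
    rw [← Finset.sum_mul, h3]
    split_ifs <;> simp
  simp_rw [h2]
  rw [Finset.sum_ite_eq]
  simp

omit [DecidableEq ι] [FiniteDimensional ℝ E] [MeasurableSpace E] [BorelSpace E] in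
private theorem Rot_inner (O : Matrix ι ι ℝ) (g : ι → E) (t : PiLp 2 fun _ : ι => E) :
    ⟪(WithLp.toLp 2 (mix O g) : PiLp 2 fun _ : ι => E), t⟫ =
      ⟪(WithLp.toLp 2 g : PiLp 2 fun _ : ι => E),
        (WithLp.toLp 2 (fun i => ∑ k, O k i • t k) : PiLp 2 fun _ : ι => E)⟫ := by
  rw [PiLp.inner_apply, PiLp.inner_apply]
  simp only [mix, sum_inner, inner_sum, real_inner_smul_left, real_inner_smul_right]
  rw [Finset.sum_comm]

theorem map_mix (O : Matrix ι ι ℝ) (hO : O * Oᵀ = 1) :
    (Measure.pi fun _ : ι => stdGaussian E).map (mix O) =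
      Measure.pi fun _ : ι => stdGaussian E := by
  have hmeas : Measurable (mix O : (ι → E) → (ι → E)) := by
    unfold mix
    refine measurable_pi_lambda _ fun k => ?_
    exact Finset.measurable_sum _ fun i _ => (measurable_pi_apply i).const_smul (O k i)
  have : IsProbabilityMeasure ((Measure.pi fun _ : ι => stdGaussian E).map (mix O)) :=
    Measure.isProbabilityMeasure_map hmeas.aemeasurable
  refine charFun_eq_pi_iff.mp fun t => ?_
  have hlp : Measurable (WithLp.toLp 2 : (ι → E) → PiLp 2 fun _ : ι => E) :=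
    (MeasurableEquiv.toLp 2 (ι → E)).measurable
  have e1 : charFun (((Measure.pi fun _ : ι => stdGaussian E).map (mix O)).map
      (WithLp.toLp 2)) t = charFun ((Measure.pi fun _ : ι => stdGaussian E).map (WithLp.toLp 2))
        (WithLp.toLp 2 (fun i => ∑ k, O k i • t k) : PiLp 2 fun _ : ι => E) := by
    rw [Measure.map_map hlp hmeas, charFun_apply, charFun_apply,
      integral_map (hlp.comp hmeas).aemeasurable (by fun_prop),
      integral_map hlp.aemeasurable (by fun_prop)]
    refine integral_congr_ae (Eventually.of_forall fun g => ?_)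
    simp only [Function.comp_apply]
    rw [Rot_inner O g t]
  rw [e1, charFun_pi]
  simp only [charFun_stdGaussian]
  rw [← Complex.exp_sum, ← Complex.exp_sum]
  congr 1
  have h := Rot_norm O hO (fun k => t k)
  rw [← Finset.sum_div, ← Finset.sum_div, Finset.sum_neg_distrib, Finset.sum_neg_distrib]
  congr 2
  exact_mod_cast h

end Pool.Agent.H90.EO
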