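import Pool.Agent.H90.EO.Pair
import Pool.Agent.H90.EO.Count
import Pool.Agent.H90.EO.Binom

/-!
# Second moment of the number of hits
-/

open MeasureTheory ProbabilityTheory Filter Topology
open scoped ENNReal NNReal RealInnerProductSpace

namespace Pool.Agent.H90.EO

open Pool.Agent.H90.PR

/-- The first `2m` indices. -/
def first (m : ℕ) : Finset (Fin (2 * m + 1)) := Finset.univ.erase (Fin.last (2 * m))

lemma card_first (m : ℕ) : (first m).card = 2 * m := by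
  simp [first]

lemma last_notMem {m : ℕ} {T : Finset (Fin (2 * m + 1))} (hT : T ∈ (first m).powersetCard m) :
    Fin.last (2 * m) ∉ T := by
  intro h
  have := (Finset.mem_powersetCard.mp hT).1 h
  simp [first] at this

lemma card_sets (m : ℕ) : ((first m).powersetCard m).card = m.centralBinom := by
  rw [Finset.card_powersetCard, card_first, Nat.centralBinom]

/-- Parameters for close pairs. -/
lemma params1 (m : ℕ) (hm : 1 ≤ m) : ∃ K : ℝ, 0 < K ∧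
    1 / (6 * (m : ℝ) ^ 5) * K + ((m : ℝ) + 1) / K ^ 2 ≤ 1 / (m : ℝ) ^ 3 := by
  have hm1 : (1 : ℝ) ≤ m := by exact_mod_cast hm
  have hm0 : (0 : ℝ) < m := by linarith
  refine ⟨2 * (m : ℝ) ^ 2, by positivity, ?_⟩
  have h1 : 1 / (6 * (m : ℝ) ^ 5) * (2 * (m : ℝ) ^ 2) = 1 / (3 * (m : ℝ) ^ 3) := by
    field_simp
    norm_num
  have h2 : ((m : ℝ) + 1) / (2 * (m : ℝ) ^ 2) ^ 2 ≤ 1 / (2 * (m : ℝ) ^ 3) := by
    rw [div_le_div_iff₀ (by positivity) (by positivity)]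
    have h3 : (m : ℝ) + 1 ≤ 2 * m := by linarith
    have h4 : ((m : ℝ) + 1) * (2 * (m : ℝ) ^ 3) ≤ (2 * m) * (2 * (m : ℝ) ^ 3) := by gcongr
    calc ((m : ℝ) + 1) * (2 * (m : ℝ) ^ 3) ≤ (2 * m) * (2 * (m : ℝ) ^ 3) := h4
      _ = 1 * (2 * (m : ℝ) ^ 2) ^ 2 := by ring
  rw [h1]
  calc 1 / (3 * (m : ℝ) ^ 3) + ((m : ℝ) + 1) / (2 * (m : ℝ) ^ 2) ^ 2
      ≤ 1 / (3 * (m : ℝ) ^ 3) + 1 / (2 * (m : ℝ) ^ 3) := by gcongr
    _ = 5 / 6 * (1 / (m : ℝ) ^ 3) := by field_simp; norm_num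
    _ ≤ 1 * (1 / (m : ℝ) ^ 3) := by
        have : 0 ≤ 1 / (m : ℝ) ^ 3 := by positivity
        nlinarith
    _ = _ := one_mul _

/-- Parameters for typical pairs. -/
lemma params2 (m : ℕ) : ∃ K : ℝ, 0 < K ∧
    1 / (2 ^ 62 * √((m : ℝ) + 1)) * K + ((m : ℝ) + 1) / K ^ 2 ≤ 1 / 2 ^ 40 := by
  have hm0 : (0 : ℝ) < (m : ℝ) + 1 := by positivity
  refine ⟨2 ^ 21 * √((m : ℝ) + 1), by positivity, ?_⟩
  have h0 : √((m : ℝ) + 1) ^ 2 = (m : ℝ) + 1 := Real.sq_sqrt hm0.le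
  have h1 : 1 / (2 ^ 62 * √((m : ℝ) + 1)) * (2 ^ 21 * √((m : ℝ) + 1)) = 1 / 2 ^ 41 := by
    have : √((m : ℝ) + 1) ≠ 0 := (Real.sqrt_pos.mpr hm0).ne'
    field_simp
  have h2 : ((m : ℝ) + 1) / (2 ^ 21 * √((m : ℝ) + 1)) ^ 2 = 1 / 2 ^ 42 := by
    rw [mul_pow, h0]
    field_simp
  rw [h1, h2]
  norm_num

/-- The relative error of the second moment. -/
noncomputable def err (K₀ δ : ℝ) (m : ℕ) : ℝ :=
  1 / √(1 - δ) + 2 ^ 62 * √((m : ℝ) + 1) / (δ * (m / 10 + 1)) +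
    361 * 3 ^ m * (6 * (m : ℝ) ^ 5) / m.centralBinom +
    Real.pi / 2 * (2 / m) / K₀ + Real.pi / 2 * (1 / 16) ^ m * m.centralBinom / K₀

lemma row_bound (m : ℕ) (hm : 2 ≤ m) (K₀ δ : ℝ) (hK₀ : 0 < K₀) (hδ : 0 < δ) (hδ1 : δ < 1)
    (T : Finset (Fin (2 * m + 1))) (hT : T ∈ (first m).powersetCard m) :
    ∑ T' ∈ (first m).powersetCard m,
      (gm (Fin (2 * m + 1)) m).real (hit T (Fin.last (2 * m)) (K₀ / m.centralBinom) ∩
        hit T' (Fin.last (2 * m)) (K₀ / m.centralBinom)) ≤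
      Phi (K₀ / m.centralBinom) +
        m.centralBinom * (2 / Real.pi * (K₀ / m.centralBinom) ^ 2) * err K₀ δ m := by
  set l := Fin.last (2 * m) with hl
  set N : ℝ := (m.centralBinom : ℝ) with hN
  have hN0 : 0 < N := by rw [hN]; exact_mod_cast Nat.centralBinom_pos m
  set τ : ℝ := K₀ / N with hτ
  have hτ0 : 0 < τ := by positivity
  set μ := gm (Fin (2 * m + 1)) m with hμ
  set 𝒯 := (first m).powersetCard m with h𝒯
  have hTc : T.card = m := (Finset.mem_powersetCard.mp hT).2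
  have hlT := last_notMem hT
  have hm0 : (0 : ℝ) < m := by exact_mod_cast (by omega : 0 < m)
  have hm2 : (2 : ℝ) ≤ m := by exact_mod_cast hm
  have hpi := Real.pi_pos
  set i₀ : ℕ := m / 10 + 1 with hi₀
  have hi1 : 10 * i₀ ≤ m + 10 := by omega
  have hi2 : (m : ℝ) / 10 ≤ i₀ := by
    have : m ≤ 10 * i₀ := by omega
    have h : (m : ℝ) ≤ 10 * i₀ := by exact_mod_cast this
    linarith
  obtain ⟨K₁, hK₁, hη₁⟩ := params1 m (by omega)
  obtain ⟨K₂, hK₂, hη₂⟩ := params2 m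
  set η₁ : ℝ := 1 / (m : ℝ) ^ 3 with hη₁def
  set s₁ : ℝ := 1 / (6 * (m : ℝ) ^ 5) with hs₁
  set s₂ : ℝ := 1 / (2 ^ 62 * √((m : ℝ) + 1)) with hs₂
  have hs₁0 : 0 < s₁ := by positivity
  have hs₂0 : 0 < s₂ := by positivity
  set a₁ : ℝ := 2 / Real.pi * τ ^ 2 / s₁ with ha₁
  set a₂ : ℝ := 2 / Real.pi * τ ^ 2 * (1 / √(1 - δ) + 1 / (s₂ * δ * (m / 10 + 1))) with ha₂
  have ha₁0 : 0 ≤ a₁ := by positivity
  have h1δ : 0 < √(1 - δ) := Real.sqrt_pos.mpr (by linarith)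
  have ha₂0 : 0 ≤ a₂ := by positivity
  have hη₁0 : 0 ≤ η₁ := by positivity
  -- each term
  have hterm : ∀ T' ∈ 𝒯.erase T, μ.real (hit T l τ ∩ hit T' l τ) ≤
      ((if (T' \ T).card < i₀ then a₁ else 0) + τ * η₁ ^ (T' \ T).card) +
        (a₂ + τ * (1 / 16) ^ m) := by
    intro T' hT'
    have hT'2 := (Finset.mem_erase.mp hT').2
    have hT'c : T'.card = m := (Finset.mem_powersetCard.mp hT'2).2
    have hlT' := last_notMem hT'2
    have hb : 0 ≤ a₂ + τ * (1 / 16) ^ m := by positivity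
    split_ifs with hk
    · have := pair_le T T' hTc hT'c l hlT hlT' τ s₁ K₁ η₁ hτ0.le hs₁0 hK₁ hη₁
      linarith
    · have h := pair_le_typ T T' hTc hT'c l hlT hlT' τ s₂ K₂ (1 / 2 ^ 40) δ hτ0.le hs₂0 hK₂
        hη₂ hδ hδ1
      have hk' : i₀ ≤ (T' \ T).card := not_lt.mp hk
      have hkr : (m : ℝ) / 10 ≤ ((T' \ T).card : ℝ) := hi2.trans (by exact_mod_cast hk')
      have h3 : 1 / (s₂ * δ * (((T' \ T).card : ℝ) + 1)) ≤ 1 / (s₂ * δ * ((m : ℝ) / 10 + 1)) := by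
        gcongr
      have h4 : (1 / (2 : ℝ) ^ 40) ^ (T' \ T).card ≤ (1 / 16) ^ m := by
        have h5 : (1 / (2 : ℝ) ^ 40) ^ (T' \ T).card ≤ (1 / (2 : ℝ) ^ 40) ^ i₀ :=
          pow_le_pow_of_le_one (by positivity) (by norm_num) hk'
        have h6 : (1 / (2 : ℝ) ^ 40) ^ i₀ = (1 / 16) ^ (10 * i₀) := by
          rw [pow_mul]
          norm_num
        have h7 : (1 / 16 : ℝ) ^ (10 * i₀) ≤ (1 / 16) ^ m :=
          pow_le_pow_of_le_one (by norm_num) (by norm_num) (by omega)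
        rw [h6] at h5
        exact h5.trans h7
      have h8 : 2 / Real.pi * τ ^ 2 * (1 / √(1 - δ) + 1 / (s₂ * δ * (((T' \ T).card : ℝ) + 1)))
          ≤ a₂ := by
        rw [ha₂]
        gcongr
      have h9 : τ * (1 / (2 : ℝ) ^ 40) ^ (T' \ T).card ≤ τ * (1 / 16) ^ m := by gcongr
      have h10 : 0 ≤ τ * η₁ ^ (T' \ T).card := by positivity
      linarith
  -- the sum
  have hsum : ∑ T' ∈ 𝒯.erase T, μ.real (hit T l τ ∩ hit T' l τ) ≤
      361 * 3 ^ m * a₁ + τ * (2 * ((m : ℝ) ^ 2 * η₁)) + N * (a₂ + τ * (1 / 16) ^ m) := by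
    refine (Finset.sum_le_sum hterm).trans ?_
    rw [Finset.sum_add_distrib, Finset.sum_add_distrib]
    have e1 : ∑ T' ∈ 𝒯.erase T, (if (T' \ T).card < i₀ then a₁ else 0) ≤ 361 * 3 ^ m * a₁ := by
      calc ∑ T' ∈ 𝒯.erase T, (if (T' \ T).card < i₀ then a₁ else 0)
          ≤ ∑ T' ∈ 𝒯, (if (T' \ T).card < i₀ then a₁ else 0) := by
            apply Finset.sum_le_sum_of_subset_of_nonneg (Finset.erase_subset _ _)
            intro T' _ _
            split_ifs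
            · exact ha₁0
            · exact le_rfl
        _ = ((𝒯.filter (fun T' => (T' \ T).card < i₀)).card : ℝ) * a₁ := by
            rw [← Finset.sum_filter, Finset.sum_const, nsmul_eq_mul]
        _ ≤ 361 * 3 ^ m * a₁ := by
            have := card_close_le (first m) m (card_first m) T hT i₀ hi1
            gcongr
    have e2 : ∑ T' ∈ 𝒯.erase T, τ * η₁ ^ (T' \ T).card ≤ τ * (2 * ((m : ℝ) ^ 2 * η₁)) := by
      rw [← Finset.mul_sum]
      have hh : (m : ℝ) ^ 2 * η₁ ≤ 1 / 2 := by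
        rw [hη₁def, show (m : ℝ) ^ 2 * (1 / (m : ℝ) ^ 3) = 1 / m by field_simp]
        rw [div_le_div_iff₀ hm0 (by norm_num)]
        linarith
      have := sum_eta_le (first m) m (card_first m) T hT η₁ hη₁0 hh
      gcongr
    have e3 : ∑ _T' ∈ 𝒯.erase T, (a₂ + τ * (1 / 16) ^ m) ≤ N * (a₂ + τ * (1 / 16) ^ m) := by
      rw [Finset.sum_const, nsmul_eq_mul]
      have hc : ((𝒯.erase T).card : ℝ) ≤ N := by
        rw [hN, ← card_sets m]
        exact_mod_cast Finset.card_le_card (Finset.erase_subset _ _)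
      gcongr
    linarith
  have hdiag : μ.real (hit T l τ ∩ hit T l τ) = Phi τ := by
    rw [Set.inter_self]
    exact hit_eq T hTc l hlT τ
  rw [← Finset.add_sum_erase 𝒯 _ hT, hdiag]
  have hfin : 361 * 3 ^ m * a₁ + τ * (2 * ((m : ℝ) ^ 2 * η₁)) + N * (a₂ + τ * (1 / 16) ^ m) =
      N * (2 / Real.pi * τ ^ 2) * err K₀ δ m := by
    have hNτ : N * τ = K₀ := by rw [hτ]; field_simp
    have hsq : 0 < √((m : ℝ) + 1) := Real.sqrt_pos.mpr (by positivity)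
    rw [ha₁, ha₂, hη₁def, hs₁, hs₂, err, ← hN, hτ]
    field_simp
    ring
  linarith

end Pool.Agent.H90.EO
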