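import Pool.Agent.H90.EO.Base

/-!
# Random signs

`card_signs`: if `∑ u_i² = 1` then for at least `2^n / 12` of the `2^n` sign vectors `ε` one has
`(∑ ε_i u_i)² ≥ 1/2`.

Proof (Paley-Zygmund). Let `X ε = ∑ ε_i u_i`. The average of `X²` over all sign vectors is `∑ u_i² = 1`
and the average of `X⁴` is at most `3 (∑ u_i²)² = 3` (induction on the number of coordinates:
`E (X + ε u)⁴ = E X⁴ + 6 u² E X² + u⁴`). With `G = {X² ≥ 1/2}`:
`1 = E X² ≤ 1/2 + E (X² 1_G)`, so `1/4 ≤ (E (X² 1_G))² ≤ E X⁴ · P(G) ≤ 3 P(G)` by Cauchy-Schwarz.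
For the induction one may use any convenient form, e.g. sums over `Fintype.piFinset` or
`Fin n → Bool` with `Fin.consEquiv`, or prove the two moment identities for sums over
`s.powerset`-indexed signs by `Finset.induction_on`.
-/

open Finset

namespace Pool.Agent.H90.EO

variable {ι : Type*} [Fintype ι] [DecidableEq ι]

private theorem Signs_split (u : ι → ℝ) (a : ι) (s : Finset ι) (ha : a ∉ s) (k : ℕ) :
    ∑ t ∈ (insert a s).powerset, (∑ i ∈ insert a s, (if i ∈ t then u i else -u i)) ^ k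
      = ∑ t ∈ s.powerset, (((∑ i ∈ s, (if i ∈ t then u i else -u i)) - u a) ^ k
          + ((∑ i ∈ s, (if i ∈ t then u i else -u i)) + u a) ^ k) := by
  rw [Finset.sum_powerset_insert ha, ← Finset.sum_add_distrib]
  refine Finset.sum_congr rfl fun t ht => ?_
  have hat : a ∉ t := fun h => ha (Finset.mem_powerset.1 ht h)
  have h1 : ∑ i ∈ insert a s, (if i ∈ t then u i else -u i)
      = (∑ i ∈ s, (if i ∈ t then u i else -u i)) - u a := by
    rw [Finset.sum_insert ha, if_neg hat]; ring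
  have h2 : ∑ i ∈ insert a s, (if i ∈ insert a t then u i else -u i)
      = (∑ i ∈ s, (if i ∈ t then u i else -u i)) + u a := by
    rw [Finset.sum_insert ha, if_pos (Finset.mem_insert_self a t), add_comm]
    congr 1
    refine Finset.sum_congr rfl fun i hi => ?_
    have hia : i ≠ a := fun h => ha (h ▸ hi)
    simp [Finset.mem_insert, hia]
  rw [h1, h2]

private theorem Signs_two (u : ι → ℝ) (s : Finset ι) :
    ∑ t ∈ s.powerset, (∑ i ∈ s, (if i ∈ t then u i else -u i)) ^ 2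
      = 2 ^ s.card * ∑ i ∈ s, u i ^ 2 := by
  induction s using Finset.induction_on with
  | empty => simp
  | insert a s ha ih =>
    rw [Signs_split u a s ha 2]
    have h : ∀ X : ℝ, (X - u a) ^ 2 + (X + u a) ^ 2 = 2 * X ^ 2 + 2 * u a ^ 2 := fun X => by ring
    simp only [h]
    rw [Finset.sum_add_distrib, ← Finset.mul_sum, ih, Finset.sum_const, Finset.card_powerset,
      Finset.card_insert_of_notMem ha, Finset.sum_insert ha, nsmul_eq_mul]
    push_cast
    ring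

private theorem Signs_four (u : ι → ℝ) (s : Finset ι) :
    ∑ t ∈ s.powerset, (∑ i ∈ s, (if i ∈ t then u i else -u i)) ^ 4
      ≤ 3 * 2 ^ s.card * (∑ i ∈ s, u i ^ 2) ^ 2 := by
  induction s using Finset.induction_on with
  | empty => simp
  | insert a s ha ih =>
    rw [Signs_split u a s ha 4]
    have h : ∀ X : ℝ, (X - u a) ^ 4 + (X + u a) ^ 4
        = 2 * X ^ 4 + 12 * u a ^ 2 * X ^ 2 + 2 * u a ^ 4 := fun X => by ring
    simp only [h]
    rw [Finset.sum_add_distrib, Finset.sum_add_distrib, ← Finset.mul_sum, ← Finset.mul_sum,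
      Signs_two u s, Finset.sum_const, Finset.card_powerset,
      Finset.card_insert_of_notMem ha, Finset.sum_insert ha, nsmul_eq_mul]
    push_cast
    have h2 : (0 : ℝ) < 2 ^ s.card := by positivity
    have h3 : 0 ≤ (2 : ℝ) ^ s.card * u a ^ 4 := by positivity
    have hp : (2 : ℝ) ^ (s.card + 1) = 2 * 2 ^ s.card := by rw [pow_succ]; ring
    have h5 : 3 * (2 * (2 : ℝ) ^ s.card) * (u a ^ 2 + ∑ i ∈ s, u i ^ 2) ^ 2
        = 2 * (3 * 2 ^ s.card * (∑ i ∈ s, u i ^ 2) ^ 2)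
          + 12 * u a ^ 2 * (2 ^ s.card * ∑ i ∈ s, u i ^ 2) + 6 * (2 ^ s.card * u a ^ 4) := by ring
    rw [hp, h5]
    linarith [ih, h3]

private theorem Signs_sum (F : (ι → Bool) → ℝ) :
    ∑ ε : ι → Bool, F ε = ∑ t ∈ (univ : Finset ι).powerset, F (fun i => decide (i ∈ t)) := by
  refine Finset.sum_bij' (fun ε _ => univ.filter (fun i => ε i = true))
    (fun t _ => fun i => decide (i ∈ t)) ?_ ?_ ?_ ?_ ?_
  · intro ε _; simp
  · intro t _; simp
  · intro ε _; funext i; simp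
  · intro t _; ext i; simp
  · intro ε _
    congr 1
    funext i
    simp

private theorem Signs_m2 (u : ι → ℝ) :
    ∑ ε : ι → Bool, (∑ i, (if ε i then u i else -u i)) ^ 2
      = 2 ^ Fintype.card ι * ∑ i, u i ^ 2 := by
  rw [Signs_sum]
  have := Signs_two u univ
  simpa using this

private theorem Signs_m4 (u : ι → ℝ) :
    ∑ ε : ι → Bool, (∑ i, (if ε i then u i else -u i)) ^ 4
      ≤ 3 * 2 ^ Fintype.card ι * (∑ i, u i ^ 2) ^ 2 := by
  rw [Signs_sum]
  have := Signs_four u univ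
  simpa using this

theorem card_signs (u : ι → ℝ) (hu : ∑ i, u i ^ 2 = 1) :
    (2 : ℝ) ^ Fintype.card ι ≤ 12 * ((univ.filter (fun ε : ι → Bool =>
      1 / 2 ≤ (∑ i, (if ε i then u i else -u i)) ^ 2)).card : ℝ) := by
  classical
  set X : (ι → Bool) → ℝ := fun ε => ∑ i, (if ε i then u i else -u i) with hX
  have h2 : ∑ ε : ι → Bool, X ε ^ 2 = 2 ^ Fintype.card ι := by
    have := Signs_m2 u
    rw [hu, mul_one] at this
    exact this
  have h4 : ∑ ε : ι → Bool, X ε ^ 4 ≤ 3 * 2 ^ Fintype.card ι := by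
    have := Signs_m4 u
    rw [hu, one_pow, mul_one] at this
    exact this
  set G := univ.filter (fun ε : ι → Bool => 1 / 2 ≤ X ε ^ 2) with hG
  have hcard : ((univ : Finset (ι → Bool)).card : ℝ) = 2 ^ Fintype.card ι := by
    rw [Finset.card_univ, Fintype.card_fun, Fintype.card_bool]
    push_cast
    rfl
  have hsplit : ∑ ε : ι → Bool, X ε ^ 2 = ∑ ε ∈ G, X ε ^ 2
      + ∑ ε ∈ univ.filter (fun ε : ι → Bool => ¬ (1 / 2 ≤ X ε ^ 2)), X ε ^ 2 :=
    (Finset.sum_filter_add_sum_filter_not univ _ _).symm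
  have hbad : ∑ ε ∈ univ.filter (fun ε : ι → Bool => ¬ (1 / 2 ≤ X ε ^ 2)), X ε ^ 2
      ≤ 1 / 2 * 2 ^ Fintype.card ι := by
    calc ∑ ε ∈ univ.filter (fun ε : ι → Bool => ¬ (1 / 2 ≤ X ε ^ 2)), X ε ^ 2
        ≤ ∑ ε ∈ univ.filter (fun ε : ι → Bool => ¬ (1 / 2 ≤ X ε ^ 2)), (1 / 2 : ℝ) := by
          refine Finset.sum_le_sum fun ε hε => ?_
          have := (Finset.mem_filter.1 hε).2
          linarith
      _ ≤ ∑ ε : ι → Bool, (1 / 2 : ℝ) :=
          Finset.sum_le_sum_of_subset_of_nonneg (Finset.filter_subset _ _)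
            (fun _ _ _ => by norm_num)
      _ = 1 / 2 * 2 ^ Fintype.card ι := by
          rw [Finset.sum_const, nsmul_eq_mul, hcard]; ring
  have hgood : 1 / 2 * (2 : ℝ) ^ Fintype.card ι ≤ ∑ ε ∈ G, X ε ^ 2 := by linarith
  have hcs : (∑ ε ∈ G, X ε ^ 2) ^ 2 ≤ (G.card : ℝ) * ∑ ε ∈ G, X ε ^ 4 := by
    have := sq_sum_le_card_mul_sum_sq (s := G) (f := fun ε => X ε ^ 2)
    refine this.trans (le_of_eq ?_)
    congr 1
    refine Finset.sum_congr rfl fun ε _ => ?_
    ring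
  have hG4 : ∑ ε ∈ G, X ε ^ 4 ≤ 3 * 2 ^ Fintype.card ι :=
    (Finset.sum_le_sum_of_subset_of_nonneg (Finset.filter_subset _ _)
      (fun _ _ _ => by positivity)).trans h4
  have hP : (0 : ℝ) < 2 ^ Fintype.card ι := by positivity
  have h5 : (1 / 2 * (2 : ℝ) ^ Fintype.card ι) ^ 2 ≤ (G.card : ℝ) * (3 * 2 ^ Fintype.card ι) := by
    calc (1 / 2 * (2 : ℝ) ^ Fintype.card ι) ^ 2 ≤ (∑ ε ∈ G, X ε ^ 2) ^ 2 :=
          pow_le_pow_left₀ (by positivity) hgood 2
      _ ≤ _ := hcs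
      _ ≤ _ := mul_le_mul_of_nonneg_left hG4 (Nat.cast_nonneg _)
  have h6 : (2 : ℝ) ^ Fintype.card ι * 2 ^ Fintype.card ι
      ≤ (12 * (G.card : ℝ)) * 2 ^ Fintype.card ι := by nlinarith [h5]
  exact le_of_mul_le_mul_right h6 hP

end Pool.Agent.H90.EO
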