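import Pool.Agent.H90.EO.Rot
import Pool.Agent.H90.EO.Signs
import Pool.Agent.H90.EO.Orth
import Pool.Agent.H90.EO.LowDet

/-!
# The smallest singular value of a square Gaussian matrix

`small_sv`: for `card ι = m + 1` the probability that some unit vector `x` has `∑ ⟪g i, x⟫² ≤ t²` is at
most `12 √(2 (m + 1)) t` (outer measure).
`small_sv_sub`: the same for a subset `S` of the indices with `S.card = m + 1`.

Proof of `small_sv`. `n = m + 1`, `ι` is nonempty; fix `i₀ : ι`. For a sign vector `ε : ι → Bool` let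
`v_ε i = ± 1/√n`, a unit vector; choose `O_ε` orthogonal with row `i₀` equal to `v_ε` (`exists_orth`).
Let `E_ε = {g | |⟪nv (univ.erase i₀) (mix O_ε g), mix O_ε g i₀⟫| ≤ √(2 n) t}`, a measurable set
(`measurable_nv`). By `map_mix` and `single_bound` (`‖nv T g‖ = 1` almost surely, `ae_linearIndepOn`,
`norm_nv`) its measure is at most `√(2 n) t`.
Let `g` be linearly independent (almost sure, `ae_linearIndepOn` with `T = univ`) and `x` a unit vector
with `∑ ⟪g i, x⟫² ≤ t²`. By `exists_left` there is a unit `u` with `‖∑ u_i g_i‖ ≤ t`. By `card_signs`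
at least `2^n / 12` sign vectors satisfy `(∑ v_ε i u i)² ≥ 1/(2n)`, and for them `left_mix` gives
`g ∈ E_ε`. So `2^n / 12 ≤ ∑_ε 1_{E_ε}(g)` and Markov's inequality (`meas_ge_le_lintegral_div`) gives
the measure `≤ (12 / 2^n) ∑_ε μ(E_ε) ≤ 12 √(2 n) t`.

Proof of `small_sv_sub`: the law of `res S g = (g i)_{i ∈ S}` under `gm ι m` is `gm S m`
(`measurePreserving_piEquivPiSubtypeProd` followed by the first projection, as in
`PR.Generic.fubini_bound`); use `Measure.le_map_apply`-type inequality for the outer measure, e.g. cover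
the bad set for `S` by a measurable superset (`toMeasurable`) of the same measure and pull it back.
-/

open MeasureTheory ProbabilityTheory Filter Topology Matrix
open scoped ENNReal NNReal RealInnerProductSpace

namespace Pool.Agent.H90.EO

open Pool.Agent.H90.PR

variable {ι : Type*} [Fintype ι] [DecidableEq ι] {m : ℕ}

/-- The unit sign vectors. -/
private noncomputable def Small_v (ε : ι → Bool) (i : ι) : ℝ :=
  (if ε i then 1 else -1) / √((m : ℝ) + 1)

omit [DecidableEq ι] in
private theorem Small_v_sq (hι : Fintype.card ι = m + 1) (ε : ι → Bool) :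
    ∑ i, Small_v (m := m) ε i ^ 2 = 1 := by
  have hm : (0 : ℝ) < (m : ℝ) + 1 := by positivity
  have h1 : ∀ i, Small_v (m := m) ε i ^ 2 = 1 / ((m : ℝ) + 1) := by
    intro i
    unfold Small_v
    rw [div_pow, Real.sq_sqrt hm.le]
    split_ifs <;> norm_num
  simp only [h1, Finset.sum_const, Finset.card_univ, hι, nsmul_eq_mul]
  push_cast
  field_simp

omit [DecidableEq ι] in
private theorem Small_measurable_mix (O : Matrix ι ι ℝ) :
    Measurable (mix O : (ι → EE m) → (ι → EE m)) := by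
  unfold mix
  refine measurable_pi_lambda _ fun k => ?_
  refine Finset.measurable_sum _ fun i _ => ?_
  exact (measurable_pi_apply i).const_smul (O k i)

/-- The slab event. -/
private def Small_B (T : Finset ι) (k : ι) (s : ℝ) : Set (ι → EE m) :=
  {g | |⟪nv T g, g k⟫| ≤ s}

omit [Fintype ι] [DecidableEq ι] in
private theorem Small_measurable_B (T : Finset ι) (k : ι) (s : ℝ) :
    MeasurableSet (Small_B (m := m) T k s) := by
  unfold Small_B
  have h1 : Measurable (fun g : ι → EE m => nv T g) := measurable_nv T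
  have h2 : Measurable (fun g : ι → EE m => g k) := measurable_pi_apply k
  exact measurableSet_le (by fun_prop) measurable_const

private theorem Small_B_le (T : Finset ι) (hT : T.card = m) (k : ι) (hk : k ∉ T) (s : ℝ) :
    gm ι m (Small_B T k s) ≤ ENNReal.ofReal s := by
  have hae : ∀ᵐ g ∂(gm ι m), ‖nv T g‖ = 1 := by
    filter_upwards [ae_linearIndepOn (ι := ι) (E := EE m) T (by simp [hT])] with g hg
    exact norm_nv T hT g hg
  have h0 : gm ι m {g | ¬ ‖nv T g‖ = 1} = 0 := hae
  calc gm ι m (Small_B T k s)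
      ≤ gm ι m ({g | ‖nv T g‖ = 1 ∧ |⟪nv T g, g k⟫| ≤ s} ∪ {g | ¬ ‖nv T g‖ = 1}) := by
        refine measure_mono fun g hg => ?_
        by_cases h : ‖nv T g‖ = 1
        · exact Or.inl ⟨h, hg⟩
        · exact Or.inr h
    _ ≤ gm ι m {g | ‖nv T g‖ = 1 ∧ |⟪nv T g, g k⟫| ≤ s} + gm ι m {g | ¬ ‖nv T g‖ = 1} :=
        measure_union_le _ _
    _ ≤ ENNReal.ofReal s := by
        rw [h0, add_zero]
        exact single_bound T k hk s

theorem small_sv (hι : Fintype.card ι = m + 1) (t : ℝ) (ht : 0 ≤ t) :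
    gm ι m {g | ∃ x : EE m, ‖x‖ = 1 ∧ ∑ i, ⟪g i, x⟫ ^ 2 ≤ t ^ 2} ≤
      ENNReal.ofReal (12 * (√(2 * ((m : ℝ) + 1)) * t)) := by
  classical
  have hm : (0 : ℝ) < (m : ℝ) + 1 := by positivity
  obtain ⟨i₀⟩ : Nonempty ι := by
    rw [← Fintype.card_pos_iff, hι]
    omega
  set T : Finset ι := Finset.univ.erase i₀ with hTdef
  have hT : T.card = m := by
    rw [hTdef, Finset.card_erase_of_mem (Finset.mem_univ _), Finset.card_univ, hι]
    omega
  have hk : i₀ ∉ T := Finset.notMem_erase _ _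
  set s : ℝ := √(2 * ((m : ℝ) + 1)) * t with hs
  have hs0 : 0 ≤ s := by positivity
  have hO : ∀ ε : ι → Bool, ∃ O : Matrix ι ι ℝ, O * Oᵀ = 1 ∧ ∀ i, O i₀ i = Small_v (m := m) ε i :=
    fun ε => exists_orth i₀ _ (Small_v_sq hι ε)
  choose O hO1 hO2 using hO
  set E : (ι → Bool) → Set (ι → EE m) := fun ε => mix (O ε) ⁻¹' Small_B T i₀ s with hE
  have hEm : ∀ ε, MeasurableSet (E ε) := fun ε =>
    Small_measurable_mix (O ε) (Small_measurable_B T i₀ s)
  have hEle : ∀ ε, gm ι m (E ε) ≤ ENNReal.ofReal s := by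
    intro ε
    have h1 := Measure.map_apply (μ := gm ι m) (Small_measurable_mix (m := m) (O ε))
      (Small_measurable_B T i₀ s)
    rw [map_mix (O ε) (hO1 ε)] at h1
    rw [hE, ← h1]
    exact Small_B_le T hT i₀ hk s
  -- the deterministic part
  have hdet : ∀ g : ι → EE m, LinearIndependent ℝ g →
      (∃ x : EE m, ‖x‖ = 1 ∧ ∑ i, ⟪g i, x⟫ ^ 2 ≤ t ^ 2) →
      (2 : ℝ) ^ Fintype.card ι ≤ 12 * ((Finset.univ.filter fun ε => g ∈ E ε).card : ℝ) := by
    rintro g hg ⟨x, hx, hxt⟩
    obtain ⟨u, hu, hut⟩ := exists_left hι g hg x hx t ht hxt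
    refine (card_signs u hu).trans ?_
    have hsub : (Finset.univ.filter (fun ε : ι → Bool =>
        1 / 2 ≤ (∑ i, (if ε i then u i else -u i)) ^ 2)) ⊆
        Finset.univ.filter fun ε => g ∈ E ε := by
      intro ε hε
      rw [Finset.mem_filter] at hε ⊢
      refine ⟨Finset.mem_univ _, ?_⟩
      have h1 := left_mix hι g u t hut (O ε) (hO1 ε) i₀
      have h2 : ∑ i, O ε i₀ i * u i =
          (∑ i, (if ε i then u i else -u i)) / √((m : ℝ) + 1) := by
        rw [Finset.sum_div]
        refine Finset.sum_congr rfl fun i _ => ?_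
        rw [hO2]
        unfold Small_v
        split_ifs <;> ring
      rw [h2] at h1
      set X : ℝ := ∑ i, (if ε i then u i else -u i) with hX
      set Y : ℝ := |⟪nv (Finset.univ.erase i₀) (mix (O ε) g), mix (O ε) g i₀⟫| with hY
      have hY0 : 0 ≤ Y := abs_nonneg _
      have h3 : 1 ≤ |X / √((m : ℝ) + 1)| * √(2 * ((m : ℝ) + 1)) := by
        have h4 : (1 : ℝ) ^ 2 ≤ (|X / √((m : ℝ) + 1)| * √(2 * ((m : ℝ) + 1))) ^ 2 := by
          rw [mul_pow, sq_abs, div_pow, Real.sq_sqrt hm.le, Real.sq_sqrt (by positivity)]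
          have h5 := hε.2
          have h6 : X ^ 2 / ((m : ℝ) + 1) * (2 * ((m : ℝ) + 1)) = 2 * X ^ 2 := by
            field_simp
          rw [h6]
          linarith
        exact le_of_sq_le_sq h4 (by positivity)
      show |⟪nv T (mix (O ε) g), mix (O ε) g i₀⟫| ≤ s
      calc Y = 1 * Y := (one_mul _).symm
        _ ≤ (|X / √((m : ℝ) + 1)| * √(2 * ((m : ℝ) + 1))) * Y :=
            mul_le_mul_of_nonneg_right h3 hY0
        _ = √(2 * ((m : ℝ) + 1)) * (|X / √((m : ℝ) + 1)| * Y) := by ring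
        _ ≤ √(2 * ((m : ℝ) + 1)) * t := mul_le_mul_of_nonneg_left h1 (by positivity)
    have hc := Finset.card_le_card hsub
    have hc' : ((Finset.univ.filter (fun ε : ι → Bool =>
        1 / 2 ≤ (∑ i, (if ε i then u i else -u i)) ^ 2)).card : ℝ) ≤
        ((Finset.univ.filter fun ε => g ∈ E ε).card : ℝ) := by exact_mod_cast hc
    linarith
  -- Markov
  set f : (ι → EE m) → ℝ≥0∞ := fun g => ∑ ε : ι → Bool, (E ε).indicator 1 g with hf
  have hfm : Measurable f := Finset.measurable_sum _ fun ε _ => measurable_one.indicator (hEm ε)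
  have hfint : ∫⁻ g, f g ∂(gm ι m) ≤ ENNReal.ofReal (2 ^ Fintype.card ι * s) := by
    rw [hf, lintegral_finsetSum _ fun ε _ => measurable_one.indicator (hEm ε)]
    calc ∑ ε : ι → Bool, ∫⁻ g, (E ε).indicator 1 g ∂(gm ι m)
        ≤ ∑ _ε : ι → Bool, ENNReal.ofReal s := by
          refine Finset.sum_le_sum fun ε _ => ?_
          rw [lintegral_indicator_one (hEm ε)]
          exact hEle ε
      _ = ENNReal.ofReal (2 ^ Fintype.card ι * s) := by
          rw [Finset.sum_const, Finset.card_univ, Fintype.card_fun, Fintype.card_bool,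
            nsmul_eq_mul, ENNReal.ofReal_mul (p := 2 ^ Fintype.card ι) (q := s) (by positivity),
            ENNReal.ofReal_pow (by norm_num), ENNReal.ofReal_ofNat]
          push_cast
          rfl
  have hfcard : ∀ g, f g = ((Finset.univ.filter fun ε => g ∈ E ε).card : ℝ≥0∞) := by
    intro g
    rw [hf]
    simp only [Set.indicator_apply, Pi.one_apply]
    rw [Finset.sum_boole]
  have hpow : (0 : ℝ) < 2 ^ Fintype.card ι / 12 := by positivity
  set c : ℝ≥0∞ := ENNReal.ofReal (2 ^ Fintype.card ι / 12) with hc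
  have hc0 : c ≠ 0 := (ENNReal.ofReal_pos.2 hpow).ne'
  have hct : c ≠ ∞ := ENNReal.ofReal_ne_top
  have hli : gm ι m {g | ¬ LinearIndependent ℝ g} = 0 := by
    have h1 := ae_linearIndepOn (ι := ι) (E := EE m) Finset.univ (by
      rw [Finset.card_univ, hι]
      simp)
    have h2 : ∀ᵐ g ∂(gm ι m), LinearIndependent ℝ g := by
      filter_upwards [h1] with g hg
      rw [Finset.coe_univ] at hg
      exact linearIndepOn_univ_iff.1 hg
    exact h2
  calc gm ι m {g | ∃ x : EE m, ‖x‖ = 1 ∧ ∑ i, ⟪g i, x⟫ ^ 2 ≤ t ^ 2}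
      ≤ gm ι m ({g | ¬ LinearIndependent ℝ g} ∪ {g | c ≤ f g}) := by
        refine measure_mono fun g hg => ?_
        by_cases h : LinearIndependent ℝ g
        · right
          show c ≤ f g
          rw [hfcard, hc, ← ENNReal.ofReal_natCast]
          apply ENNReal.ofReal_le_ofReal
          have h1 := hdet g h hg
          linarith
        · exact Or.inl h
    _ ≤ gm ι m {g | ¬ LinearIndependent ℝ g} + gm ι m {g | c ≤ f g} := measure_union_le _ _
    _ ≤ (∫⁻ g, f g ∂(gm ι m)) / c := by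
        rw [hli, zero_add]
        exact meas_ge_le_lintegral_div hfm.aemeasurable hc0 hct
    _ ≤ ENNReal.ofReal (2 ^ Fintype.card ι * s) / c := ENNReal.div_le_div_right hfint c
    _ = ENNReal.ofReal (12 * s) := by
        rw [hc, ← ENNReal.ofReal_div_of_pos hpow]
        congr 1
        field_simp

theorem small_sv_sub (S : Finset ι) (hS : S.card = m + 1) (t : ℝ) (ht : 0 ≤ t) :
    gm ι m {g | ∃ x : EE m, ‖x‖ = 1 ∧ ∑ i ∈ S, ⟪g i, x⟫ ^ 2 ≤ t ^ 2} ≤
      ENNReal.ofReal (12 * (√(2 * ((m : ℝ) + 1)) * t)) := by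
  classical
  have h1 := @small_sv {i // i ∈ S} (Subtype.fintype fun i => i ∈ S) _ m
    (by rw [Fintype.card_subtype]; simpa using hS) t ht
  refine le_trans ?_ h1
  have hmp := MeasurePreserving.comp measurePreserving_fst
    (measurePreserving_piEquivPiSubtypeProd (fun _ : ι => stdGaussian (EE m)) (fun i => i ∈ S))
  have h2 := Measure.le_map_apply hmp.aemeasurable
    {g : {i // i ∈ S} → EE m | ∃ x : EE m, ‖x‖ = 1 ∧
      @Finset.sum _ _ _ (@Finset.univ _ (Subtype.fintype fun i => i ∈ S))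
        (fun i => ⟪g i, x⟫ ^ 2) ≤ t ^ 2}
  rw [hmp.map_eq] at h2
  refine le_trans (measure_mono ?_) h2
  rintro g ⟨x, hx, hxt⟩
  refine ⟨x, hx, ?_⟩
  rw [@Finset.sum_subtype ι ℝ _ (fun i => i ∈ S) (Subtype.fintype fun i => i ∈ S) S
    (fun _ => Iff.rfl) (fun i => ⟪g i, x⟫ ^ 2)] at hxt
  exact hxt

end Pool.Agent.H90.EO
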