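import Pool.Agent.H90.EO.NvU
import Pool.Agent.H90.EO.LowDet

/-!
# A hit with large coefficients gives a small singular value (deterministic)

`exists_small`: let `T.card = m ≥ 1`, `l ∉ T`, `g` independent on `insert l T`, `|⟪nv T g, g l⟫| ≤ τ` and
`g ∉ few T l x` with `x > 0`. Then there is a unit vector `z` with
`√(∑_{i ∈ insert l T} ⟪g i, z⟫²) ≤ τ / (x √(m/2))`.

Proof. The vectors `g k`, `k ∈ T`, and `n = nv T g` (unit, orthogonal to them) form a basis of `EE m`, so
`g l = d n + ∑_{k ∈ T} c_k g k` with `d = ⟪n, g l⟫`; pairing with `ν_i = nu T i g` gives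
`⟪ν_i, g l⟫ = c_i ⟪ν_i, g i⟫` (`nu_inner`, `nu_inner_nv`), so `c_i = ⟪ν_i, g l⟫ / ⟪ν_i, g i⟫`
(`nu_inner_ne`), and `g ∉ cbad T i l x` means `x < |c_i|`. Put `u l = 1`, `u k = - c_k` for `k ∈ T`:
`∑_{i ∈ insert l T} u_i g_i = d n`, of norm `≤ τ`; and since fewer than half of the `i ∈ T` are in
`cbad`, more than `m/2` of them have `c_i² > x²`, so `∑ u_i² ≥ (m/2) x²`; hence
`‖∑ u_i g_i‖ ≤ τ ≤ (τ / (x √(m/2))) √(∑ u_i²)` and `exists_right` applies.

`omega_le_of_small`: then `omega A ≤ τ / (x √(m/2))` for the matrix `A` with rows `g`: take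
`S = insert l T` in `omega`, as in `PR.Det.omega_le` (with `sigma_le`).
-/

open MeasureTheory ProbabilityTheory Filter Topology
open scoped ENNReal NNReal RealInnerProductSpace

namespace Pool.Agent.H90.EO

open Pool.Agent.H90.PR

variable {m : ℕ}

/-- a vector orthogonal to the normal lies in the span -/
private theorem UpDet_span {ι : Type*} [DecidableEq ι] (T : Finset ι) (hT : T.card = m)
    (g : ι → EE m) (hg : LinearIndepOn ℝ g (T : Set ι)) (y : EE m)
    (hy : ⟪nv T g, y⟫ = (0 : ℝ)) : ∃ c : ι → ℝ, ∑ k ∈ T, c k • g k = y := by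
  rw [← Submodule.mem_span_image_finset_iff_exists_fun' ℝ]
  set K : Submodule ℝ (EE m) := Submodule.span ℝ (g '' (T : Set ι)) with hK
  have h1 : y ∈ Kᗮᗮ := by
    rw [Submodule.mem_orthogonal]
    intro z hz
    by_cases hz0 : z = 0
    · rw [hz0, inner_zero_left]
    have hzn : 0 < ‖z‖ := norm_pos_iff.2 hz0
    have hz1 : ∀ i ∈ T, ⟪z, g i⟫ = (0 : ℝ) := by
      intro i hi
      rw [Submodule.mem_orthogonal] at hz
      rw [real_inner_comm]
      exact hz (g i) (Submodule.subset_span ⟨i, hi, rfl⟩)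
    have hu : ‖(‖z‖⁻¹ • z)‖ = 1 := by
      rw [norm_smul, norm_inv, norm_norm, inv_mul_cancel₀ hzn.ne']
    have h2 := nv_unique T hT g hg (‖z‖⁻¹ • z) hu (fun i hi => by
      rw [real_inner_smul_left, hz1 i hi, mul_zero])
    have h3 : ⟪(‖z‖⁻¹ • z), y⟫ = (0 : ℝ) := by
      rcases h2 with h | h
      · rw [h, hy]
      · rw [h, inner_neg_left, hy, neg_zero]
    rw [real_inner_smul_left] at h3
    exact (mul_eq_zero.1 h3).resolve_left (inv_pos.2 hzn).ne'
  rwa [Submodule.orthogonal_orthogonal] at h1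

theorem exists_small {ι : Type*} [Fintype ι] [DecidableEq ι] (hm : 0 < m) (T : Finset ι)
    (hT : T.card = m) (l : ι) (hl : l ∉ T) (g : ι → EE m)
    (hg : LinearIndepOn ℝ g ((insert l T : Finset ι) : Set ι)) (τ x : ℝ) (hx : 0 < x)
    (h1 : g ∈ hit T l τ) (h2 : g ∉ few T l x) :
    ∃ z : EE m, ‖z‖ = 1 ∧ √(∑ i ∈ insert l T, ⟪g i, z⟫ ^ 2) ≤ τ / (x * √((m : ℝ) / 2)) := by
  classical
  have hgT : LinearIndepOn ℝ g (T : Set ι) := hg.mono (by simp)
  set n := nv T g with hn
  have hn1 : ‖n‖ = 1 := norm_nv T hT g hgT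
  have hd : |⟪n, g l⟫| ≤ τ := h1
  have hτ : 0 ≤ τ := (abs_nonneg _).trans hd
  set d : ℝ := ⟪n, g l⟫ with hd'
  obtain ⟨c, hc⟩ := UpDet_span T hT g hgT (g l - d • n) (by
    rw [inner_sub_right, real_inner_smul_right, ← hn, real_inner_self_eq_norm_sq, hn1, ← hd']
    ring)
  -- the coefficients
  have hci : ∀ i ∈ T, ⟪nu T i g, g l⟫ = c i * ⟪nu T i g, g i⟫ := by
    intro i hi
    have h3 : ⟪nu T i g, g l - d • n⟫ = ⟪nu T i g, ∑ k ∈ T, c k • g k⟫ := by rw [hc]
    rw [inner_sub_right, real_inner_smul_right, real_inner_comm, inner_sum,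
      Finset.sum_eq_single_of_mem i hi (fun k hk hki => by
        rw [real_inner_smul_right, nu_inner T hT i g k hk hki, mul_zero]),
      real_inner_smul_right] at h3
    have h4 : ⟪nu T i g, n⟫ = (0 : ℝ) := by
      rw [real_inner_comm]
      exact nu_inner_nv T hT i hi g
    rw [h4, mul_zero, sub_zero, real_inner_comm] at h3
    exact h3
  have hbig : ∀ i ∈ T, g ∉ cbad T i l x → x ^ 2 ≤ c i ^ 2 := by
    intro i hi hb
    have h3 : x * |⟪nu T i g, g i⟫| < |⟪nu T i g, g l⟫| := not_le.1 hb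
    rw [hci i hi, abs_mul] at h3
    have h4 : 0 < |⟪nu T i g, g i⟫| := abs_pos.2 (nu_inner_ne T hT i hi g hgT)
    have h5 : x < |c i| := lt_of_mul_lt_mul_right h3 h4.le
    rw [← sq_abs (c i)]
    exact pow_le_pow_left₀ hx.le h5.le 2
  -- the vector `u`
  set u : ι → ℝ := fun i => if i = l then 1 else -c i with hu
  have hul : u l = 1 := by simp [hu]
  have huk : ∀ k ∈ T, u k = -c k := by
    intro k hk
    have : k ≠ l := fun h => hl (h ▸ hk)
    simp [hu, this]
  have hsum : ∑ i ∈ insert l T, u i • g i = d • n := by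
    rw [Finset.sum_insert hl, hul, one_smul,
      Finset.sum_congr rfl (fun k hk => by rw [huk k hk, neg_smul]), Finset.sum_neg_distrib, hc]
    abel
  have hsq : ∑ i ∈ insert l T, u i ^ 2 = 1 + ∑ k ∈ T, c k ^ 2 := by
    rw [Finset.sum_insert hl, hul, one_pow,
      Finset.sum_congr rfl (fun k hk => by rw [huk k hk, neg_sq])]
  have hgood : x ^ 2 * ((m : ℝ) / 2) ≤ ∑ k ∈ T, c k ^ 2 := by
    have hcard : ((T.filter (fun i => g ∈ cbad T i l x)).card : ℝ) * 2 < m := by
      have h3 : ¬ ((T.card : ℝ) ≤ 2 * ((T.filter (fun i => g ∈ cbad T i l x)).card : ℝ)) := h2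
      rw [hT] at h3
      linarith [not_le.1 h3]
    have hsplit : (T.filter (fun i => g ∈ cbad T i l x)).card +
        (T.filter (fun i => ¬ g ∈ cbad T i l x)).card = T.card :=
      Finset.card_filter_add_card_filter_not _
    have hcard2 : (m : ℝ) / 2 ≤ ((T.filter (fun i => ¬ g ∈ cbad T i l x)).card : ℝ) := by
      have h3 : ((T.filter (fun i => g ∈ cbad T i l x)).card : ℝ) +
        ((T.filter (fun i => ¬ g ∈ cbad T i l x)).card : ℝ) = m := by
        have h4 : (T.card : ℝ) = m := by rw [hT]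
        refine Eq.trans ?_ h4
        exact_mod_cast hsplit
      linarith
    calc x ^ 2 * ((m : ℝ) / 2)
        ≤ x ^ 2 * ((T.filter (fun i => ¬ g ∈ cbad T i l x)).card : ℝ) :=
          mul_le_mul_of_nonneg_left hcard2 (sq_nonneg x)
      _ = ∑ k ∈ T.filter (fun i => ¬ g ∈ cbad T i l x), x ^ 2 := by
          rw [Finset.sum_const, nsmul_eq_mul, mul_comm]
      _ ≤ ∑ k ∈ T.filter (fun i => ¬ g ∈ cbad T i l x), c k ^ 2 := by
          refine Finset.sum_le_sum fun k hk => ?_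
          rw [Finset.mem_filter] at hk
          exact hbig k hk.1 hk.2
      _ ≤ ∑ k ∈ T, c k ^ 2 :=
          Finset.sum_le_sum_of_subset_of_nonneg (Finset.filter_subset _ _)
            (fun k _ _ => sq_nonneg _)
  have hm0 : (0 : ℝ) < m := by exact_mod_cast hm
  have hden : 0 < x * √((m : ℝ) / 2) := mul_pos hx (Real.sqrt_pos.2 (by positivity))
  have hroot : x * √((m : ℝ) / 2) ≤ √(∑ i ∈ insert l T, u i ^ 2) := by
    refine Real.le_sqrt_of_sq_le ?_
    rw [mul_pow, Real.sq_sqrt (by positivity), hsq]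
    linarith
  refine exists_right g (insert l T) (by rw [Finset.card_insert_of_notMem hl, hT]) hg u ?_ _ ?_
  · rw [hsq]
    have : 0 ≤ ∑ k ∈ T, c k ^ 2 := Finset.sum_nonneg fun k _ => sq_nonneg _
    linarith
  · rw [hsum, norm_smul, hn1, mul_one, Real.norm_eq_abs]
    calc |d| ≤ τ := hd
      _ = τ / (x * √((m : ℝ) / 2)) * (x * √((m : ℝ) / 2)) := by
          rw [div_mul_cancel₀ _ hden.ne']
      _ ≤ τ / (x * √((m : ℝ) / 2)) * √(∑ i ∈ insert l T, u i ^ 2) :=
          mul_le_mul_of_nonneg_left hroot (div_nonneg hτ hden.le)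

theorem omega_le_of_small (hm : 0 < m) (A : Matrix (Fin (2 * m + 1)) (Fin (m + 1)) ℝ)
    (T : Finset (Fin (2 * m + 1))) (hT : T.card = m) (l : Fin (2 * m + 1)) (hl : l ∉ T)
    (hg : LinearIndepOn ℝ (rowVec A) ((insert l T : Finset (Fin (2 * m + 1))) :
      Set (Fin (2 * m + 1)))) (τ x : ℝ) (hx : 0 < x)
    (h1 : rowVec A ∈ hit T l τ) (h2 : rowVec A ∉ few T l x) :
    omega A ≤ τ / (x * √((m : ℝ) / 2)) := by
  obtain ⟨z, hz, hle⟩ := exists_small hm T hT l hl (rowVec A) hg τ x hx h1 h2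
  have hSc : (insert l T).card = m + 1 := by rw [Finset.card_insert_of_notMem hl, hT]
  have hrank : (rowsIn A (insert l T)ᶜ).rank < m + 1 := by
    have h3 := Matrix.rank_le_card_height (rowsIn A (insert l T)ᶜ)
    rw [Fintype.card_coe, Finset.card_compl, Fintype.card_fin, hSc] at h3
    omega
  have h4 : omega A ≤ sigma (rowsIn A (insert l T)) := by
    unfold PR.omega
    exact ciInf_le (Set.finite_range _).bddBelow
      (⟨insert l T, hrank⟩ : {S : Finset (Fin (2 * m + 1)) // (rowsIn A Sᶜ).rank < m + 1})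
  exact h4.trans ((sigma_le A (insert l T) z hz).trans hle)

end Pool.Agent.H90.EO
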