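import Pool.Agent.H90.EO.Asy
import Pool.Agent.H90.EO.Coef
import Pool.Agent.H90.EO.UpDet

/-!
# Upper estimate for `omega`
-/

open MeasureTheory ProbabilityTheory Filter Topology
open scoped ENNReal NNReal RealInnerProductSpace

namespace Pool.Agent.H90.EO

open Pool.Agent.H90.PR

/-- The union of the good hits. -/
def goodU (m : ℕ) (τ x : ℝ) : Set (Fin (2 * m + 1) → EE m) :=
  ⋃ T ∈ (first m).powersetCard m,
    (hit T (Fin.last (2 * m)) τ \ few T (Fin.last (2 * m)) x)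

lemma measurableSet_goodU (m : ℕ) (τ x : ℝ) : MeasurableSet (goodU m τ x) := by
  apply Finset.measurableSet_biUnion
  intro T _
  exact (measurableSet_hit T _ τ).diff (measurableSet_few T _ x)

lemma goodU_large (K₀ ε x L : ℝ) (hε : 0 < ε) (hε1 : ε ≤ 1) (hK₀ : 16 / ε ≤ K₀) (hx : 0 ≤ x)
    (hL : 0 < L) (hxL : x * L + 2 / L ^ 2 ≤ ε / 16) : ∀ᶠ m : ℕ in atTop,
    1 - ε / 2 ≤ (gm (Fin (2 * m + 1)) m).real (goodU m (K₀ / m.centralBinom) x) := by
  have hK0 : 0 < K₀ := lt_of_lt_of_le (by positivity) hK₀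
  have hτ2 : ∀ᶠ m : ℕ in atTop, (K₀ / (m.centralBinom : ℝ)) ^ 2 < 1 / 5 := by
    have h1 : Tendsto (fun m : ℕ => (K₀ / (m.centralBinom : ℝ)) ^ 2) atTop (𝓝 0) := by
      have := (tendsto_tau K₀ hK0).pow 2
      simpa using this
    exact h1.eventually_lt_const (by norm_num)
  filter_upwards [second_moment K₀ (ε / 8) hK0 (by positivity), hτ2, eventually_ge_atTop 1] with
    m h1 h2 hm
  set N : ℝ := (m.centralBinom : ℝ) with hN
  have hN0 : 0 < N := by rw [hN]; exact_mod_cast Nat.centralBinom_pos m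
  set τ : ℝ := K₀ / N with hτ
  have hτ0 : 0 < τ := by positivity
  set μ := gm (Fin (2 * m + 1)) m with hμ
  set l := Fin.last (2 * m) with hl
  set 𝒯 := (first m).powersetCard m with h𝒯
  set A : Finset (Fin (2 * m + 1)) → Set (Fin (2 * m + 1) → EE m) := fun T =>
    hit T l τ \ few T l x with hA
  have hAm : ∀ T ∈ 𝒯, MeasurableSet (A T) := fun T _ =>
    (measurableSet_hit T _ τ).diff (measurableSet_few T _ x)
  have hsec := sq_sum_le_union μ 𝒯 A hAm
  have hU : (⋃ T ∈ 𝒯, A T) = goodU m τ x := rfl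
  rw [hU] at hsec
  -- lower bound for `N Φ`
  have hΦ : τ / 2 * (9 / 10) ≤ Phi τ * (9 / 10) ∧ K₀ / 2 ≤ N * Phi τ := by
    have e1 := le_Phi τ hτ0.le
    have hpi4 := Real.pi_lt_d2
    have hpi := Real.pi_pos
    have e2 : (5 / 9 : ℝ) ≤ √(2 / Real.pi) := by
      apply Real.le_sqrt_of_sq_le
      rw [le_div_iff₀ hpi]
      nlinarith
    have e3 : (9 / 10 : ℝ) ≤ 1 - τ ^ 2 / 2 := by linarith
    have e4 : τ / 2 ≤ √(2 / Real.pi) * τ * (1 - τ ^ 2 / 2) := by
      calc τ / 2 = 5 / 9 * τ * (9 / 10) := by ring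
        _ ≤ √(2 / Real.pi) * τ * (1 - τ ^ 2 / 2) := by gcongr
    have e5 : τ / 2 ≤ Phi τ := e4.trans e1
    refine ⟨by linarith, ?_⟩
    have hNτ : N * τ = K₀ := by rw [hτ]; field_simp
    calc K₀ / 2 = N * (τ / 2) := by rw [← hNτ]; ring
      _ ≤ N * Phi τ := by gcongr
  set Φ := Phi τ with hΦdef
  have hΦ0 : 0 ≤ Φ := Phi_nonneg τ
  set F : ℝ := N * Φ with hF
  have hF0 : K₀ / 2 ≤ F := hΦ.2
  have hFpos : 0 < F := lt_of_lt_of_le (by positivity) hF0
  -- first moment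
  have hfirst : F * (1 - ε / 8) ≤ ∑ T ∈ 𝒯, μ.real (A T) := by
    have hone : ∀ T ∈ 𝒯, Φ * (1 - ε / 8) ≤ μ.real (A T) := by
      intro T hT
      have hTc : T.card = m := (Finset.mem_powersetCard.mp hT).2
      have hlT := last_notMem hT
      have e1 : μ.real (hit T l τ) = Φ := hit_eq T hTc l hlT τ
      have e2 := few_le (by omega) T hTc l hlT τ x L hτ0.le hx hL
      have e3 : μ.real (hit T l τ ∩ few T l x) + μ.real (A T) = μ.real (hit T l τ) :=
        measureReal_inter_add_diff (measurableSet_few T l x)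
      have e4 : 2 * (Φ * (x * L + 2 / L ^ 2)) ≤ Φ * (ε / 8) := by
        have : Φ * (x * L + 2 / L ^ 2) ≤ Φ * (ε / 16) := by gcongr
        linarith
      rw [e1] at e3
      have e5 : μ.real (hit T l τ ∩ few T l x) ≤ Φ * (ε / 8) := e2.trans e4
      linarith
    calc F * (1 - ε / 8) = ∑ _T ∈ 𝒯, Φ * (1 - ε / 8) := by
          rw [Finset.sum_const, nsmul_eq_mul, card_sets, hF, hN]
          ring
      _ ≤ _ := Finset.sum_le_sum hone
  -- second moment
  have hsecond : ∑ T ∈ 𝒯, ∑ T' ∈ 𝒯, μ.real (A T ∩ A T') ≤ F + (1 + ε / 8) * F ^ 2 := by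
    refine le_trans ?_ h1
    apply Finset.sum_le_sum
    intro T _
    apply Finset.sum_le_sum
    intro T' _
    apply measureReal_mono _ (measure_ne_top _ _)
    exact Set.inter_subset_inter Set.diff_subset Set.diff_subset
  have hU0 : 0 ≤ μ.real (goodU m τ x) := measureReal_nonneg
  set u := μ.real (goodU m τ x) with hu
  have h3 : (F * (1 - ε / 8)) ^ 2 ≤ u * (F + (1 + ε / 8) * F ^ 2) := by
    have e1 : 0 ≤ F * (1 - ε / 8) := by
      have : 0 ≤ 1 - ε / 8 := by linarith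
      positivity
    calc (F * (1 - ε / 8)) ^ 2 ≤ (∑ T ∈ 𝒯, μ.real (A T)) ^ 2 := by gcongr
      _ ≤ u * ∑ T ∈ 𝒯, ∑ T' ∈ 𝒯, μ.real (A T ∩ A T') := hsec
      _ ≤ _ := by gcongr
  -- F ≤ (ε/8) F²
  have h4 : F ≤ ε / 8 * F ^ 2 := by
    have e1 : 1 ≤ ε / 8 * F := by
      have e2 : 16 / ε / 2 ≤ F := by linarith
      calc (1 : ℝ) = ε / 8 * (16 / ε / 2) := by field_simp; norm_num
        _ ≤ ε / 8 * F := by gcongr
    nlinarith
  have h5 : F ^ 2 * (1 - ε / 8) ^ 2 ≤ F ^ 2 * (u * (1 + ε / 4)) := by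
    calc F ^ 2 * (1 - ε / 8) ^ 2 = (F * (1 - ε / 8)) ^ 2 := by ring
      _ ≤ u * (F + (1 + ε / 8) * F ^ 2) := h3
      _ ≤ u * (ε / 8 * F ^ 2 + (1 + ε / 8) * F ^ 2) := by gcongr
      _ = F ^ 2 * (u * (1 + ε / 4)) := by ring
  have h6 : (1 - ε / 8) ^ 2 ≤ u * (1 + ε / 4) := le_of_mul_le_mul_left h5 (by positivity)
  by_contra hcon
  rw [not_le] at hcon
  have h7 : u * (1 + ε / 4) < (1 - ε / 2) * (1 + ε / 4) := by
    have : 0 < 1 + ε / 4 := by linarith
    gcongr
  nlinarith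

/-- Upper estimate for `omega`: for every `ε > 0` there is `C` such that the probability of
`omega A > C 4^(-(m+1))` is at most `ε` for large `m`. -/
theorem gl_upper (ε : ℝ) (hε : 0 < ε) : ∃ C : ℝ, 0 < C ∧ ∀ᶠ m : ℕ in atTop,
    gl m {A | ¬ omega (Matrix.of A) ≤ C * (1 / 4) ^ (m + 1)} ≤ ENNReal.ofReal ε := by
  wlog hε1 : ε ≤ 1 generalizing ε
  · obtain ⟨C, hC, h⟩ := this 1 one_pos le_rfl
    refine ⟨C, hC, h.mono fun m hm => hm.trans ?_⟩
    apply ENNReal.ofReal_le_ofReal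
    linarith
  -- parameters
  obtain ⟨L, x, hL, hx, hxL⟩ : ∃ L x : ℝ, 0 < L ∧ 0 < x ∧ x * L + 2 / L ^ 2 ≤ ε / 16 := by
    have hL : 0 < 64 / ε := by positivity
    have hL1 : 1 ≤ 64 / ε := by
      rw [le_div_iff₀ hε]
      linarith
    refine ⟨64 / ε, (ε / 32) / (64 / ε), hL, by positivity, ?_⟩
    have e1 : ε / 32 / (64 / ε) * (64 / ε) = ε / 32 := by field_simp
    have e2 : 2 / (64 / ε) ^ 2 ≤ ε / 32 := by
      calc 2 / (64 / ε) ^ 2 ≤ 2 / (64 / ε) := by
            gcongr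
            nlinarith
        _ = ε / 32 := by field_simp; norm_num
    linarith
  set K₀ : ℝ := 16 / ε with hK₀
  have hK0 : 0 < K₀ := by positivity
  refine ⟨12 * K₀ / x, by positivity, ?_⟩
  filter_upwards [goodU_large K₀ ε x L hε hε1 le_rfl hx.le hL hxL, eventually_ge_atTop 1] with
    m h1 hm
  set N : ℝ := (m.centralBinom : ℝ) with hN
  have hN0 : 0 < N := by rw [hN]; exact_mod_cast Nat.centralBinom_pos m
  set τ : ℝ := K₀ / N with hτ
  have hm0 : (0 : ℝ) < m := by exact_mod_cast hm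
  -- the bad event is contained in the complement of `goodU` and a null set
  set B1 : Set (Fin (2 * m + 1) → EE m) := (goodU m τ x)ᶜ with hB1
  set B2 : Set (Fin (2 * m + 1) → EE m) := {g | ¬ ∀ T : Finset (Fin (2 * m + 1)),
    T.card = m + 1 → LinearIndepOn ℝ g (T : Set (Fin (2 * m + 1)))} with hB2
  have hsub : {A : Fin (2 * m + 1) → Fin (m + 1) → ℝ |
      ¬ omega (Matrix.of A) ≤ 12 * K₀ / x * (1 / 4) ^ (m + 1)} ⊆
      {A | (fun i => WithLp.toLp 2 (A i)) ∈ B1 ∪ B2} := by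
    intro A hA
    by_contra hcon
    simp only [Set.mem_ofPred_eq, Set.mem_union, not_or] at hcon
    obtain ⟨h2, h3⟩ := hcon
    apply hA
    simp only [hB2, Set.mem_ofPred_eq, not_not] at h3
    simp only [hB1, Set.mem_compl_iff, not_not, goodU, Set.mem_iUnion] at h2
    obtain ⟨T, hT, hTh⟩ := h2
    have hTc : T.card = m := (Finset.mem_powersetCard.mp hT).2
    have hlT := last_notMem hT
    have hins : (insert (Fin.last (2 * m)) T).card = m + 1 := by
      rw [Finset.card_insert_of_notMem hlT, hTc]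
    have ho := omega_le_of_small (by omega) (Matrix.of A) T hTc (Fin.last (2 * m)) hlT
      (h3 _ hins) τ x hx hTh.1 hTh.2
    refine ho.trans ?_
    -- numerical estimate
    have hb := le_centralBinom m hm
    have hsm : 0 < √(m : ℝ) := Real.sqrt_pos.mpr hm0
    have e1 : τ ≤ 2 * K₀ * √(m : ℝ) * (1 / 4) ^ m := by
      rw [hτ, div_le_iff₀ hN0, div_pow, one_pow]
      calc K₀ = K₀ * (1 / 4 ^ m) * 4 ^ m := by field_simp
        _ ≤ K₀ * (1 / 4 ^ m) * (2 * √(m : ℝ) * N) := by gcongr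
        _ = _ := by ring
    have e2 : √((m : ℝ) / 2) = √(m : ℝ) / √2 := Real.sqrt_div hm0.le 2
    have e3 : √2 ≤ 3 / 2 := by
      rw [Real.sqrt_le_left (by norm_num)]
      norm_num
    have h2p : 0 < √2 := by positivity
    calc τ / (x * √((m : ℝ) / 2)) ≤ (2 * K₀ * √(m : ℝ) * (1 / 4) ^ m) / (x * √((m : ℝ) / 2)) := by
          gcongr
      _ = (2 * K₀ * √2 / x) * (1 / 4) ^ m := by
          rw [e2]
          field_simp
      _ ≤ (2 * K₀ * (3 / 2) / x) * (1 / 4) ^ m := by gcongr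
      _ = 12 * K₀ / x * (1 / 4) ^ (m + 1) := by
          rw [pow_succ]
          ring
  refine (measure_mono hsub).trans ((gl_preimage_le m _).trans ?_)
  refine (measure_union_le _ _).trans ?_
  rw [ae_generic m, add_zero]
  have h5 : mu m B1 = ENNReal.ofReal ((mu m).real B1) := by
    rw [Measure.real, ENNReal.ofReal_toReal (measure_ne_top _ _)]
  rw [h5]
  apply ENNReal.ofReal_le_ofReal
  have h6 : (mu m).real B1 = 1 - (mu m).real (goodU m τ x) :=
    probReal_compl_eq_one_sub (measurableSet_goodU m τ x)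
  rw [h6]
  have h7 : (mu m).real (goodU m τ x) = (gm (Fin (2 * m + 1)) m).real (goodU m τ x) := rfl
  rw [h7]
  linarith

end Pool.Agent.H90.EO
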